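import Mathlib

/-!
# The arithmetic of the valencies
-/

namespace Pool.Agent.R4S

open Finset

/-- Pair condition on valencies. -/
def prB (x y : ℕ) : Bool :=
  (List.range 6).any fun a => decide (x ≤ a + 11) && decide (x * a % y = 0)

/-- Row condition on valencies. -/
def rowB (x y z w : ℕ) : Bool :=
  (List.range 6).any fun a => decide (x * a % y = 0) && (List.range 6).any fun b =>
    decide (x * b % z = 0) && (List.range 6).any fun d => decide (x * d % w = 0) &&
      decide (a + b + d + 1 = x)

/-- The surviving valencies. -/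
def survivors : List (ℕ × ℕ × ℕ × ℕ) :=
  [(16, 16, 8, 1), (15, 15, 10, 1), (15, 15, 12, 1), (14, 14, 14, 1), (16, 16, 16, 1),
   (16, 10, 10, 5), (15, 15, 10, 5), (15, 15, 15, 6), (14, 14, 14, 7), (16, 16, 8, 8),
   (16, 10, 10, 8), (12, 12, 12, 9), (16, 10, 10, 10), (15, 15, 15, 10), (12, 12, 12, 12),
   (14, 14, 14, 14), (16, 16, 16, 16)]

/-- The complete check, for valencies `x ≥ y ≥ z ≥ w ≥ 1`. -/
def test : Bool :=
  (List.range 17).all fun x => (List.range 17).all fun y =>
    !(decide (y ≤ x) && decide (9 ≤ y) && prB x y && prB y x) ||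
    (List.range 17).all fun z => !(decide (z ≤ y) && decide (25 ≤ x + y + z) &&
      prB x z && prB z x && prB y z && prB z y) ||
      (List.range 17).all fun w => !(decide (w ≤ z) && decide (1 ≤ w) &&
        decide (41 ≤ x + y + z + w) && rowB x y z w &&
        rowB y x z w && rowB z x y w && rowB w x y z &&
        decide ((x + y + z + w + 1) * x % 2 = 0) && decide ((x + y + z + w + 1) * y % 2 = 0) &&
        decide ((x + y + z + w + 1) * z % 2 = 0) && decide ((x + y + z + w + 1) * w % 2 = 0)) ||
        decide ((x, y, z, w) ∈ survivors)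

theorem test_true : test = true := by decide +kernel

theorem prB_of {x y a : ℕ} (h1 : a < 6) (h2 : x ≤ a + 11) (h3 : x * a % y = 0) :
    prB x y = true := by
  rw [prB, List.any_eq_true]
  exact ⟨a, List.mem_range.mpr h1, by simp [h2, h3]⟩

theorem rowB_of {x y z w a b d : ℕ} (h1 : a < 6) (h2 : b < 6) (h3 : d < 6) (h4 : x * a % y = 0)
    (h5 : x * b % z = 0) (h6 : x * d % w = 0) (h7 : a + b + d + 1 = x) :
    rowB x y z w = true := by
  rw [rowB, List.any_eq_true]
  refine ⟨a, List.mem_range.mpr h1, ?_⟩
  rw [Bool.and_eq_true, List.any_eq_true]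
  refine ⟨by simp [h4], b, List.mem_range.mpr h2, ?_⟩
  rw [Bool.and_eq_true, List.any_eq_true]
  refine ⟨by simp [h5], d, List.mem_range.mpr h3, ?_⟩
  simp [h6, h7]

theorem valencies {x y z w : ℕ} (hx : x < 17) (hyx : y ≤ x) (hzy : z ≤ y) (hwz : w ≤ z)
    (hw : 1 ≤ w)
    (h1 : prB x y = true) (h2 : prB y x = true) (h3 : prB x z = true) (h4 : prB z x = true)
    (h5 : prB y z = true) (h6 : prB z y = true) (hs : 41 ≤ x + y + z + w)
    (r1 : rowB x y z w = true) (r2 : rowB y x z w = true) (r3 : rowB z x y w = true)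
    (r4 : rowB w x y z = true) (e1 : (x + y + z + w + 1) * x % 2 = 0)
    (e2 : (x + y + z + w + 1) * y % 2 = 0) (e3 : (x + y + z + w + 1) * z % 2 = 0)
    (e4 : (x + y + z + w + 1) * w % 2 = 0) : (x, y, z, w) ∈ survivors := by
  have h := test_true
  rw [test, List.all_eq_true] at h
  have h := h x (List.mem_range.mpr hx)
  rw [List.all_eq_true] at h
  have h := h y (List.mem_range.mpr (by omega))
  have hy' : 9 ≤ y := by omega
  rw [h1, h2, decide_eq_true hyx, decide_eq_true hy'] at h
  simp only [Bool.and_self, Bool.not_true, Bool.false_or] at h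
  rw [List.all_eq_true] at h
  have h := h z (List.mem_range.mpr (by omega))
  have hs' : 25 ≤ x + y + z := by omega
  rw [h3, h4, h5, h6, decide_eq_true hzy, decide_eq_true hs'] at h
  simp only [Bool.and_self, Bool.not_true, Bool.false_or] at h
  rw [List.all_eq_true] at h
  have h := h w (List.mem_range.mpr (by omega))
  rw [r1, r2, r3, r4, decide_eq_true hwz, decide_eq_true hw, decide_eq_true hs,
    decide_eq_true e1, decide_eq_true e2, decide_eq_true e3, decide_eq_true e4] at h
  simpa using h

end Pool.Agent.R4S
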