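import Pool.Agent.R4S.Scheme

/-!
# Colourings that are association schemes: one associativity identity
-/

namespace Pool.Agent.R4S

open Finset

section
variable {V : Type} [Fintype V] [DecidableEq V] {c : Sym2 V → Fin 4}
  {p : Fin 4 → Fin 4 → Fin 4 → ℕ}

theorem assoc_left (hp : IsScheme c p) {x y : V} (hxy : x ≠ y) (i : Fin 4) :
    ∑ b : V, (Finset.univ.filter (fun a => x ≠ a ∧ c s(x, a) = i ∧ a ≠ b ∧ c s(a, b) = i ∧
      b ≠ y ∧ c s(b, y) = c s(x, y))).card
      = (nb c x i).card + ∑ e, p i i e * p e (c s(x, y)) (c s(x, y)) := by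
  have h1 : ∀ b : V, (Finset.univ.filter (fun a => x ≠ a ∧ c s(x, a) = i ∧ a ≠ b ∧
      c s(a, b) = i ∧ b ≠ y ∧ c s(b, y) = c s(x, y))).card
      = (if b = x then (nb c x i).card else 0)
        + ∑ e, if (x ≠ b ∧ b ≠ y ∧ c s(x, b) = e ∧ c s(b, y) = c s(x, y))
          then p i i e else 0 := by
    intro b
    by_cases hb : b = x
    · subst hb
      rw [if_pos rfl]
      have h2 : ∑ e, (if (b ≠ b ∧ b ≠ y ∧ c s(b, b) = e ∧ c s(b, y) = c s(b, y))
          then p i i e else 0) = 0 := by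
        refine Finset.sum_eq_zero fun e _ => ?_
        rw [if_neg]
        rintro ⟨h, _⟩; exact h rfl
      rw [h2, add_zero]
      congr 1
      ext a
      simp only [Finset.mem_filter, Finset.mem_univ, true_and, mem_nb]
      constructor
      · rintro ⟨h1, h2, _⟩; exact ⟨h1, h2⟩
      · rintro ⟨h1, h2⟩
        refine ⟨h1, h2, h1.symm, ?_, hxy, trivial⟩
        rw [Sym2.eq_swap]; exact h2
    · rw [if_neg hb, zero_add]
      by_cases hT : b ≠ y ∧ c s(b, y) = c s(x, y)
      · rw [Finset.sum_eq_single (c s(x, b))]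
        · rw [if_pos ⟨Ne.symm hb, hT.1, rfl, hT.2⟩, ← hp x b (Ne.symm hb) i i]
          congr 1
          ext a
          simp only [Finset.mem_filter, Finset.mem_univ, true_and]
          constructor
          · rintro ⟨h1, h2, h3, h4, _⟩; exact ⟨h1, h3, h2, h4⟩
          · rintro ⟨h1, h3, h2, h4⟩; exact ⟨h1, h2, h3, h4, hT⟩
        · intro e _ he
          rw [if_neg]
          rintro ⟨_, _, h, _⟩; exact he h.symm
        · intro h; exact absurd (Finset.mem_univ _) h
      · have h2 : ∑ e, (if (x ≠ b ∧ b ≠ y ∧ c s(x, b) = e ∧ c s(b, y) = c s(x, y))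
            then p i i e else 0) = 0 := by
          refine Finset.sum_eq_zero fun e _ => ?_
          rw [if_neg]
          rintro ⟨_, h1, _, h2⟩; exact hT ⟨h1, h2⟩
        rw [h2, Finset.card_eq_zero, Finset.filter_eq_empty_iff]
        rintro a _ ⟨_, _, _, _, h⟩
        exact hT h
  rw [Finset.sum_congr rfl (fun b _ => h1 b), Finset.sum_add_distrib]
  congr 1
  · rw [Finset.sum_ite_eq' Finset.univ x]
    simp
  · rw [Finset.sum_comm]
    refine Finset.sum_congr rfl fun e _ => ?_
    rw [← hp x y hxy e (c s(x, y)), ← Finset.sum_filter, Finset.sum_const, smul_eq_mul, mul_comm]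

theorem assoc_right (hp : IsScheme c p) {x y : V} (hxy : x ≠ y) {i : Fin 4}
    (hi : i ≠ c s(x, y)) :
    ∑ a : V, (Finset.univ.filter (fun b => x ≠ a ∧ c s(x, a) = i ∧ a ≠ b ∧ c s(a, b) = i ∧
      b ≠ y ∧ c s(b, y) = c s(x, y))).card
      = ∑ f, p i (c s(x, y)) f * p i f (c s(x, y)) := by
  have h1 : ∀ a : V, (Finset.univ.filter (fun b => x ≠ a ∧ c s(x, a) = i ∧ a ≠ b ∧
      c s(a, b) = i ∧ b ≠ y ∧ c s(b, y) = c s(x, y))).card
      = ∑ f, if (x ≠ a ∧ a ≠ y ∧ c s(x, a) = i ∧ c s(a, y) = f)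
          then p i (c s(x, y)) f else 0 := by
    intro a
    by_cases hT : x ≠ a ∧ c s(x, a) = i
    · have hay : a ≠ y := by
        rintro rfl
        exact hi hT.2.symm
      rw [Finset.sum_eq_single (c s(a, y))]
      · rw [if_pos ⟨hT.1, hay, hT.2, rfl⟩, ← hp a y hay i (c s(x, y))]
        congr 1
        ext b
        simp only [Finset.mem_filter, Finset.mem_univ, true_and]
        constructor
        · rintro ⟨_, _, h1, h2, h3, h4⟩; exact ⟨h1, h3, h2, h4⟩
        · rintro ⟨h1, h3, h2, h4⟩; exact ⟨hT.1, hT.2, h1, h2, h3, h4⟩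
      · intro e _ he
        rw [if_neg]
        rintro ⟨_, _, _, h⟩; exact he h.symm
      · intro h; exact absurd (Finset.mem_univ _) h
    · have h2 : ∑ f, (if (x ≠ a ∧ a ≠ y ∧ c s(x, a) = i ∧ c s(a, y) = f)
          then p i (c s(x, y)) f else 0) = 0 := by
        refine Finset.sum_eq_zero fun e _ => ?_
        rw [if_neg]
        rintro ⟨h1, _, h2, _⟩; exact hT ⟨h1, h2⟩
      rw [h2, Finset.card_eq_zero, Finset.filter_eq_empty_iff]
      rintro b _ ⟨h1, h2, _⟩
      exact hT ⟨h1, h2⟩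
  rw [Finset.sum_congr rfl (fun a _ => h1 a), Finset.sum_comm]
  refine Finset.sum_congr rfl fun f _ => ?_
  rw [← hp x y hxy i f, ← Finset.sum_filter, Finset.sum_const, smul_eq_mul, mul_comm]

theorem assoc (hp : IsScheme c p) {x y : V} (hxy : x ≠ y) {i : Fin 4}
    (hi : i ≠ c s(x, y)) :
    (nb c x i).card + ∑ e, p i i e * p e (c s(x, y)) (c s(x, y))
      = ∑ f, p i (c s(x, y)) f * p i f (c s(x, y)) := by
  rw [← assoc_left hp hxy i, ← assoc_right hp hxy hi]
  simp_rw [Finset.card_filter]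
  exact Finset.sum_comm

end

end Pool.Agent.R4S
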