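import Pool.Agent.R4S.Gewirtz

/-!
# Symmetries of prime order of 4-colourings without monochromatic triangles
-/

namespace Pool.Agent.R4S

open Finset

section
variable {V : Type} [Fintype V] [DecidableEq V] {c : Sym2 V → Fin 4}

omit [Fintype V] [DecidableEq V] in
theorem dvd_card_of_moved {p : ℕ} (hp : p.Prime) {g : Equiv.Perm V} (hg : g ^ p = 1)
    (S : Finset V) (hS : ∀ x, g x ∈ S ↔ x ∈ S) (hfix : ∀ x ∈ S, g x ≠ x) : p ∣ S.card := by
  by_contra h
  have : Fact p.Prime := ⟨hp⟩
  have hτ : (g.subtypePerm (p := fun x => x ∈ S) hS) ^ p ^ 1 = 1 := by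
    rw [pow_one, Equiv.Perm.subtypePerm_pow]
    ext a
    simp [hg]
  have hcard : ¬ p ∣ Fintype.card {x // x ∈ S} := by rwa [Fintype.card_coe]
  obtain ⟨a, ha⟩ := Equiv.Perm.exists_fixed_point_of_prime hcard hτ
  exact hfix a.1 a.2 (congrArg Subtype.val ha)

theorem two_le_nb (hc : NoMono c) (hn : 51 ≤ Fintype.card V) (v : V) (i : Fin 4) :
    2 ≤ (nb c v i).card := by
  have hs := sum_card_nb c v
  have h0 := card_nb_le hc 0 v
  have h1 := card_nb_le hc 1 v
  have h2 := card_nb_le hc 2 v
  have h3 := card_nb_le hc 3 v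
  rw [Fin.sum_univ_four] at hs
  fin_cases i
  · change 2 ≤ (nb c v 0).card; omega
  · change 2 ≤ (nb c v 1).card; omega
  · change 2 ≤ (nb c v 2).card; omega
  · change 2 ≤ (nb c v 3).card; omega

theorem perm_colour_trivial (hc : NoMono c) (hn : 51 ≤ Fintype.card V) {g : Equiv.Perm V}
    {σ : Equiv.Perm (Fin 4)} (hg : ∀ u v, u ≠ v → c s(g u, g v) = σ (c s(u, v))) {p : ℕ}
    (hp : p.Prime) (hp7 : 7 ≤ p) (hgp : g ^ p = 1) : σ = 1 := by
  have hk : ∀ (k : ℕ) (u v : V), u ≠ v → c s((g ^ k) u, (g ^ k) v) = (σ ^ k) (c s(u, v)) := by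
    intro k
    induction k with
    | zero => intro u v _; simp
    | succ k ih =>
      intro u v huv
      rw [pow_succ', pow_succ', Equiv.Perm.mul_apply, Equiv.Perm.mul_apply, Equiv.Perm.mul_apply,
        hg _ _ ((g ^ k).injective.ne huv), ih u v huv]
  obtain ⟨v⟩ := Fintype.card_pos_iff.mp (show 0 < Fintype.card V by omega)
  have hσp : σ ^ p = 1 := by
    ext i
    have h2 := two_le_nb hc hn v i
    obtain ⟨w, hw⟩ := Finset.card_pos.mp (show 0 < (nb c v i).card by omega)
    rw [mem_nb] at hw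
    have h3 := hk p v w hw.1
    rw [hgp, hw.2] at h3
    simp only [Equiv.Perm.coe_one, id_eq] at h3 ⊢
    rw [← h3, hw.2]
  have h1 : orderOf σ ∣ p := orderOf_dvd_of_pow_eq_one hσp
  have h2 : orderOf σ ∣ 24 := by
    have := orderOf_dvd_card (x := σ)
    rwa [Fintype.card_perm, Fintype.card_fin] at this
  rcases hp.eq_one_or_self_of_dvd _ h1 with h3 | h3
  · exact orderOf_eq_one_iff.mp h3
  · exfalso
    rw [h3] at h2
    have h4 := Nat.le_of_dvd (by norm_num) h2
    interval_cases p <;> revert h2 hp <;> norm_num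

theorem aut_main (hc : NoMono c) (hn : 51 ≤ Fintype.card V) {g : Equiv.Perm V}
    (hg : ∀ u v, u ≠ v → c s(g u, g v) = c s(u, v)) {p : ℕ}
    (hp : p.Prime) (hp7 : 7 ≤ p) (ho : orderOf g = p) :
    ((∀ v, g v ≠ v) ∧ p ∣ Fintype.card V) ∨
      ((∃! v, g v = v) ∧ (p = 7 ∧ Fintype.card V = 57 ∨ p = 13 ∧ Fintype.card V = 53)) := by
  have hgp : g ^ p = 1 := by rw [← ho]; exact pow_orderOf_eq_one g
  by_cases hF : ∀ v, g v ≠ v
  · left
    refine ⟨hF, ?_⟩
    have := dvd_card_of_moved hp hgp Finset.univ (fun x => by simp) (fun x _ => hF x)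
    rwa [Finset.card_univ] at this
  right
  push Not at hF
  obtain ⟨x, hx⟩ := hF
  set mv : V → Fin 4 → Finset V := fun y i => (nb c y i).filter (fun w => g w ≠ w) with hmv
  have mem_mv : ∀ y i w, w ∈ mv y i ↔ (y ≠ w ∧ c s(y, w) = i) ∧ g w ≠ w := by
    intro y i w
    rw [hmv, Finset.mem_filter, mem_nb]
  have hinv : ∀ y i, g y = y → ∀ w, g w ∈ mv y i ↔ w ∈ mv y i := by
    intro y i hy w
    rw [mem_mv, mem_mv]
    have h1 : y ≠ g w ↔ y ≠ w := by
      rw [not_iff_not]
      constructor
      · intro h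
        apply g.injective
        rw [hy, h]
      · intro h
        rw [← h, hy]
    have h2 : g (g w) ≠ g w ↔ g w ≠ w := g.injective.ne_iff
    rw [h1, h2]
    constructor
    · rintro ⟨⟨h3, h4⟩, h5⟩
      refine ⟨⟨h3, ?_⟩, h5⟩
      rw [← hg y w h3, hy, h4]
    · rintro ⟨⟨h3, h4⟩, h5⟩
      refine ⟨⟨h3, ?_⟩, h5⟩
      have := hg y w h3
      rw [hy] at this
      rw [this, h4]
  have hsame : ∀ y z w, g y = y → g z = z → g w ≠ w → c s(y, w) = c s(z, w) := by
    intro y z w hy hz hw
    by_contra hne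
    have hyw : y ≠ w := fun h => hw (h ▸ hy)
    have hzw : z ≠ w := fun h => hw (h ▸ hz)
    have h1 : p ∣ (mv y (c s(y, w)) ∩ mv z (c s(z, w))).card := by
      apply dvd_card_of_moved hp hgp
      · intro a
        rw [Finset.mem_inter, Finset.mem_inter, hinv y _ hy a, hinv z _ hz a]
      · intro a ha
        rw [Finset.mem_inter, mem_mv] at ha
        exact ha.1.2
    have h2 : (mv y (c s(y, w)) ∩ mv z (c s(z, w))).card ≤ 5 := by
      refine le_trans (Finset.card_le_card ?_) (inter_le hc (v := y) (u := z) (Ne.symm hne))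
      exact Finset.inter_subset_inter (Finset.filter_subset _ _) (Finset.filter_subset _ _)
    have h3 : 0 < (mv y (c s(y, w)) ∩ mv z (c s(z, w))).card := by
      apply Finset.card_pos.mpr
      refine ⟨w, ?_⟩
      rw [Finset.mem_inter, mem_mv, mem_mv]
      exact ⟨⟨⟨hyw, rfl⟩, hw⟩, ⟨⟨hzw, rfl⟩, hw⟩⟩
    have h4 := Nat.le_of_dvd h3 h1
    omega
  set F : Finset V := Finset.univ.filter (fun v => g v = v) with hFdef
  set M : Finset V := Finset.univ.filter (fun v => ¬ g v = v) with hMdef
  have hFM : F.card + M.card = Fintype.card V := by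
    rw [hFdef, hMdef, Finset.card_filter_add_card_filter_not, Finset.card_univ]
  have hM0 : M.Nonempty := by
    by_contra hM
    rw [Finset.not_nonempty_iff_eq_empty, hMdef, Finset.filter_eq_empty_iff] at hM
    have h1 : g = 1 := by
      ext v
      have := hM (Finset.mem_univ v)
      push Not at this
      simpa using this
    rw [h1, orderOf_one] at ho
    omega
  set I : Finset (Fin 4) := M.image (fun w => c s(x, w)) with hI
  have hMle : M.card ≤ I.card * 16 := by
    have h1 : M ⊆ I.biUnion (fun i => nb c x i) := by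
      intro w hw
      rw [Finset.mem_biUnion]
      refine ⟨c s(x, w), Finset.mem_image_of_mem _ hw, mem_nb.mpr ⟨?_, rfl⟩⟩
      rintro rfl
      exact (Finset.mem_filter.mp hw).2 hx
    exact (Finset.card_le_card h1).trans
      (Finset.card_biUnion_le_card_mul I _ 16 fun i _ => card_nb_le hc i x)
  have hFle : F.card ≤ ramseyBound (4 - I.card) := by
    apply card_le_ramseyBound hc (4 - I.card) (Finset.univ \ I) F
    · rw [Finset.card_sdiff_of_subset (Finset.subset_univ I), Finset.card_univ, Fintype.card_fin]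
    · intro y hy z hz hyz
      rw [Finset.mem_sdiff]
      refine ⟨Finset.mem_univ _, ?_⟩
      intro hmem
      obtain ⟨w, hw, hw2⟩ := Finset.mem_image.mp hmem
      have hy' := (Finset.mem_filter.mp hy).2
      have hz' := (Finset.mem_filter.mp hz).2
      have hw' := (Finset.mem_filter.mp hw).2
      have h1 := hsame x y w hx hy' hw'
      have h2 := hsame x z w hx hz' hw'
      have hyw : y ≠ w := fun h => hw' (h ▸ hy')
      have hzw : z ≠ w := fun h => hw' (h ▸ hz')
      exact hc y z w hyz hzw hyw ⟨by rw [← hw2, h2], by rw [← hw2, h1]⟩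
  have hI1 : 1 ≤ I.card := Finset.card_pos.mpr (hM0.image _)
  have hI4 : I.card ≤ 4 := by
    have := Finset.card_le_univ I
    rwa [Fintype.card_fin] at this
  have hF1 : F.card ≤ 1 := by
    interval_cases hIc : I.card
    · exfalso
      have : ramseyBound (4 - 1) = 16 := rfl
      omega
    · exfalso
      have : ramseyBound (4 - 2) = 5 := rfl
      omega
    · exfalso
      have : ramseyBound (4 - 3) = 2 := rfl
      omega
    · exact hFle
  have huniq : ∀ y, g y = y → y = x := by
    intro y hy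
    exact Finset.card_le_one.mp hF1 y (Finset.mem_filter.mpr ⟨Finset.mem_univ _, hy⟩) x
      (Finset.mem_filter.mpr ⟨Finset.mem_univ _, hx⟩)
  refine ⟨⟨x, hx, huniq⟩, ?_⟩
  have hdv : ∀ i, p ∣ (nb c x i).card := by
    intro i
    have h1 : mv x i = nb c x i := by
      rw [hmv]
      apply Finset.filter_true_of_mem
      intro w hw h
      rw [mem_nb] at hw
      exact hw.1 (huniq w h).symm
    rw [← h1]
    apply dvd_card_of_moved hp hgp _ (hinv x i hx)
    intro w hw
    exact ((mem_mv _ _ _).mp hw).2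
  have hs := sum_card_nb c x
  rw [Fin.sum_univ_four] at hs
  obtain ⟨b0, e0⟩ := hdv 0
  obtain ⟨b1, e1⟩ := hdv 1
  obtain ⟨b2, e2⟩ := hdv 2
  obtain ⟨b3, e3⟩ := hdv 3
  have h0 := card_nb_le hc 0 x
  have h1 := card_nb_le hc 1 x
  have h2 := card_nb_le hc 2 x
  have h3 := card_nb_le hc 3 x
  have hq := two_le_nb hc hn x 0
  have hp16 : p ≤ 16 := by
    refine le_trans (Nat.le_of_dvd (by omega) (hdv 0)) h0
  rw [e0] at h0 hs
  rw [e1] at h1 hs
  rw [e2] at h2 hs
  rw [e3] at h3 hs
  clear hdv e0 e1 e2 e3 hq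
  interval_cases p
  · left; omega
  · exact absurd hp (by norm_num)
  · exact absurd hp (by norm_num)
  · exact absurd hp (by norm_num)
  · exfalso; omega
  · exact absurd hp (by norm_num)
  · right; omega
  · exact absurd hp (by norm_num)
  · exact absurd hp (by norm_num)
  · exact absurd hp (by norm_num)

end

end Pool.Agent.R4S
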