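import Pool.Agent.R4S.Gewirtz

/-!
# Colour classes with constant codegree
-/

namespace Pool.Agent.R4S

open Finset Matrix

section
variable {V : Type} [Fintype V] [DecidableEq V] {c : Sym2 V → Fin 4}

theorem deg_eq_of_nonadj (hc : NoMono c) {i : Fin 4} {m : ℕ} (hm1 : 1 ≤ m)
    (hm : ∀ u v : V, u ≠ v → c s(u, v) ≠ i → (nb c u i ∩ nb c v i).card = m)
    {u v : V} (huv : u ≠ v) (hi : c s(u, v) ≠ i) : (nb c u i).card = (nb c v i).card := by
  have key : ∀ a b : V, a ≠ b → c s(a, b) ≠ i →
      ∑ w ∈ nb c a i, (nb c b i ∩ nb c w i).card = ((nb c a i).card - m) * m := by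
    intro a b hab hi'
    have h1 : ∀ w ∈ nb c a i, (nb c b i ∩ nb c w i).card
        = if w ∈ nb c a i ∩ nb c b i then 0 else m := by
      intro w hw
      by_cases hwb : w ∈ nb c b i
      · rw [if_pos (Finset.mem_inter.mpr ⟨hw, hwb⟩), inter_self hc hwb, Finset.card_empty]
      · rw [if_neg (fun h => hwb (Finset.mem_inter.mp h).2)]
        apply hm
        · rintro rfl
          rw [mem_nb] at hw
          exact hi' hw.2
        · intro h
          apply hwb
          rw [mem_nb]
          refine ⟨?_, h⟩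
          rintro rfl
          rw [mem_nb] at hw
          exact hi' hw.2
    rw [Finset.sum_congr rfl h1, Finset.sum_ite, Finset.sum_const_zero, zero_add,
      Finset.sum_const, smul_eq_mul]
    congr 1
    have h2 : (nb c a i).filter (fun w => ¬ w ∈ nb c a i ∩ nb c b i)
        = nb c a i \ (nb c a i ∩ nb c b i) := by
      ext w
      rw [Finset.mem_filter, Finset.mem_sdiff]
    rw [h2, Finset.card_sdiff_of_subset Finset.inter_subset_left, hm a b hab hi']
  have h1 := key u v huv hi
  have h2 := key v u huv.symm (by rw [Sym2.eq_swap]; exact hi)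
  have h3 : ∑ w ∈ nb c u i, (nb c v i ∩ nb c w i).card
      = ∑ w ∈ nb c v i, (nb c u i ∩ nb c w i).card := by
    have h4 := form_symm (colourGraph c i) (ind (nb c u i)) (ind (nb c v i))
    rw [ind_form, ind_form] at h4
    simp only [neighborFinset_eq] at h4
    exact_mod_cast h4
  rw [h1, h2] at h3
  have h5 := Nat.eq_of_mul_eq_mul_right (by omega) h3
  have h6 : m ≤ (nb c u i).card := by
    rw [← hm u v huv hi]; exact Finset.card_le_card Finset.inter_subset_left
  have h7 : m ≤ (nb c v i).card := by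
    rw [← hm u v huv hi]; exact Finset.card_le_card Finset.inter_subset_right
  omega

theorem codegree_not_const (hc : NoMono c) (hn : 51 ≤ Fintype.card V) (i : Fin 4) (m : ℕ) :
    ¬ ∀ u v : V, u ≠ v → c s(u, v) ≠ i → (nb c u i ∩ nb c v i).card = m := by
  intro hm
  have hdeg : ∀ v, 2 ≤ (nb c v i).card := by
    intro v
    have hs := sum_card_nb c v
    have h0 := card_nb_le hc 0 v
    have h1 := card_nb_le hc 1 v
    have h2 := card_nb_le hc 2 v
    have h3 := card_nb_le hc 3 v
    rw [Fin.sum_univ_four] at hs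
    fin_cases i
    · change 2 ≤ (nb c v 0).card; omega
    · change 2 ≤ (nb c v 1).card; omega
    · change 2 ≤ (nb c v 2).card; omega
    · change 2 ≤ (nb c v 3).card; omega
  obtain ⟨v⟩ := Fintype.card_pos_iff.mp (show 0 < Fintype.card V by omega)
  have hm1 : 1 ≤ m := by
    obtain ⟨x, hx, y, hy, hxy⟩ := Finset.one_lt_card.mp (show 1 < (nb c v i).card from hdeg v)
    have hx' := mem_nb.mp hx
    have hy' := mem_nb.mp hy
    have h1 : c s(x, y) ≠ i := by
      intro h
      exact hc v x y hx'.1 hxy hy'.1 ⟨by rw [hx'.2, h], by rw [hx'.2, hy'.2]⟩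
    rw [← hm x y hxy h1]
    apply Finset.card_pos.mpr
    refine ⟨v, Finset.mem_inter.mpr ⟨mem_nb.mpr ⟨hx'.1.symm, ?_⟩, mem_nb.mpr ⟨hy'.1.symm, ?_⟩⟩⟩
    · rw [Sym2.eq_swap]; exact hx'.2
    · rw [Sym2.eq_swap]; exact hy'.2
  have hreg : ∀ x, (nb c x i).card = (nb c v i).card := by
    intro x
    by_cases hxv : x = v
    · rw [hxv]
    by_cases hi : c s(x, v) = i
    · have hex : ∃ w, w ∉ ({x, v} : Finset V) ∪ (nb c x i ∪ nb c v i) := by
        by_contra hne
        push Not at hne
        have h1 : (Finset.univ : Finset V).card ≤ (({x, v} : Finset V) ∪ (nb c x i ∪ nb c v i)).card :=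
          Finset.card_le_card fun w _ => hne w
        have h2 := Finset.card_union_le ({x, v} : Finset V) (nb c x i ∪ nb c v i)
        have h3 := Finset.card_union_le (nb c x i) (nb c v i)
        have h4 := card_nb_le hc i x
        have h5 := card_nb_le hc i v
        have h6 : ({x, v} : Finset V).card ≤ 2 := Finset.card_le_two
        rw [Finset.card_univ] at h1
        omega
      obtain ⟨w, hw⟩ := hex
      simp only [Finset.mem_union, Finset.mem_insert, Finset.mem_singleton, not_or, mem_nb,
        not_and] at hw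
      obtain ⟨⟨h1, h2⟩, h3, h4⟩ := hw
      rw [deg_eq_of_nonadj hc hm1 hm (Ne.symm h1) (h3 (Ne.symm h1)),
        deg_eq_of_nonadj hc hm1 hm (Ne.symm h2) (h4 (Ne.symm h2))]
    · exact deg_eq_of_nonadj hc hm1 hm hxv hi
  refine no_srg hc hn (i := i) (k := (nb c v i).card) (l := 0) (m := m) ?_
  have hcn : ∀ x y : V, Fintype.card ((colourGraph c i).commonNeighbors x y)
      = (nb c x i ∩ nb c y i).card := by
    intro x y
    rw [← Set.toFinset_card]
    congr 1
    ext w
    rw [Set.mem_toFinset, SimpleGraph.mem_commonNeighbors, Finset.mem_inter, mem_nb, mem_nb]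
    exact Iff.rfl
  refine ⟨rfl, fun x => ?_, fun x y hxy => ?_, fun x y hxy hadj => ?_⟩
  · rw [degree_eq]; exact hreg x
  · rw [hcn, inter_self hc (mem_nb.mpr hxy), Finset.card_empty]
  · rw [hcn]
    exact hm x y hxy fun h => hadj ⟨hxy, h⟩

end

end Pool.Agent.R4S
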