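import Mathlib

/-!
# 4-colourings of the edges of a complete graph without monochromatic triangles: basics
-/

namespace Pool.Agent.R4S

open Finset

/-- The colouring `c` of the edges of the complete graph on `V` has no monochromatic triangle. -/
def NoMono {V : Type} (c : Sym2 V → Fin 4) : Prop :=
  ∀ u v w : V, u ≠ v → v ≠ w → u ≠ w → ¬ (c s(u, v) = c s(v, w) ∧ c s(u, v) = c s(u, w))

/-- The graph formed by the edges of colour `i`. -/
def colourGraph {V : Type} (c : Sym2 V → Fin 4) (i : Fin 4) : SimpleGraph V where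
  Adj u v := u ≠ v ∧ c s(u, v) = i
  symm := ⟨fun u v h => ⟨h.1.symm, by rw [Sym2.eq_swap]; exact h.2⟩⟩
  loopless := ⟨fun _ h => h.1 rfl⟩

instance {V : Type} [DecidableEq V] (c : Sym2 V → Fin 4) (i : Fin 4) :
    DecidableRel (colourGraph c i).Adj :=
  fun u v => inferInstanceAs (Decidable (u ≠ v ∧ c s(u, v) = i))

/-- The recursive bound `1, 2, 5, 16, ...`. -/
def ramseyBound : ℕ → ℕ
  | 0 => 1
  | m + 1 => 1 + (m + 1) * ramseyBound m

theorem card_le_ramseyBound {V : Type} [DecidableEq V] {c : Sym2 V → Fin 4} (hc : NoMono c) :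
    ∀ (m : ℕ) (C : Finset (Fin 4)) (S : Finset V), C.card = m →
      (∀ u ∈ S, ∀ v ∈ S, u ≠ v → c s(u, v) ∈ C) → S.card ≤ ramseyBound m := by
  intro m
  induction m with
  | zero =>
    intro C S hC hS
    have hC' : C = ∅ := Finset.card_eq_zero.mp hC
    subst hC'
    change S.card ≤ 1
    rw [Finset.card_le_one]
    intro a ha b hb
    by_contra hne
    exact absurd (hS a ha b hb hne) (Finset.notMem_empty _)
  | succ m ih =>
    intro C S hC hS
    change S.card ≤ 1 + (m + 1) * ramseyBound m
    rcases S.eq_empty_or_nonempty with rfl | ⟨v, hv⟩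
    · simp
    · have hsub : S ⊆ {v} ∪ C.biUnion (fun i => S.filter (fun u => v ≠ u ∧ c s(v, u) = i)) := by
        intro u hu
        rw [Finset.mem_union, Finset.mem_singleton, Finset.mem_biUnion]
        by_cases huv : u = v
        · exact Or.inl huv
        · refine Or.inr ⟨c s(v, u), hS v hv u hu (Ne.symm huv), ?_⟩
          rw [Finset.mem_filter]
          exact ⟨hu, Ne.symm huv, rfl⟩
      have hN : ∀ i ∈ C, (S.filter (fun u => v ≠ u ∧ c s(v, u) = i)).card ≤ ramseyBound m := by
        intro i hi
        apply ih (C.erase i)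
        · rw [Finset.card_erase_of_mem hi, hC]; rfl
        · intro u hu w hw huw
          rw [Finset.mem_filter] at hu hw
          rw [Finset.mem_erase]
          refine ⟨?_, hS u hu.1 w hw.1 huw⟩
          intro h
          refine hc v u w hu.2.1 huw hw.2.1 ⟨?_, ?_⟩
          · rw [hu.2.2, h]
          · rw [hu.2.2, hw.2.2]
      calc S.card ≤ ({v} ∪ C.biUnion
            (fun i => S.filter (fun u => v ≠ u ∧ c s(v, u) = i))).card := Finset.card_le_card hsub
        _ ≤ 1 + (C.biUnion (fun i => S.filter (fun u => v ≠ u ∧ c s(v, u) = i))).card := by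
            refine (Finset.card_union_le _ _).trans ?_
            simp
        _ ≤ 1 + (m + 1) * ramseyBound m := by
            have := Finset.card_biUnion_le_card_mul C
              (fun i => S.filter (fun u => v ≠ u ∧ c s(v, u) = i)) (ramseyBound m) hN
            rw [hC] at this
            omega

/-- The set of vertices joined to `u` by an edge of colour `i`. -/
def nb {V : Type} [Fintype V] [DecidableEq V] (c : Sym2 V → Fin 4) (u : V) (i : Fin 4) :
    Finset V :=
  Finset.univ.filter (fun w => u ≠ w ∧ c s(u, w) = i)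

theorem mem_nb {V : Type} [Fintype V] [DecidableEq V] {c : Sym2 V → Fin 4} {u : V} {i : Fin 4}
    {w : V} : w ∈ nb c u i ↔ u ≠ w ∧ c s(u, w) = i := by
  simp [nb]

theorem card_nb_le {V : Type} [Fintype V] [DecidableEq V] {c : Sym2 V → Fin 4} (hc : NoMono c)
    (i : Fin 4) (v : V) : (nb c v i).card ≤ 16 := by
  have h := card_le_ramseyBound hc 3 (Finset.univ.erase i) (nb c v i)
    (by rw [Finset.card_erase_of_mem (Finset.mem_univ i)]; simp) ?_
  · exact h
  · intro u hu w hw huw
    rw [mem_nb] at hu hw
    rw [Finset.mem_erase]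
    refine ⟨?_, Finset.mem_univ _⟩
    intro h
    refine hc v u w hu.1 huw hw.1 ⟨?_, ?_⟩
    · rw [hu.2, h]
    · rw [hu.2, hw.2]

theorem sum_card_nb {V : Type} [Fintype V] [DecidableEq V] (c : Sym2 V → Fin 4) (v : V) :
    ∑ i, (nb c v i).card = Fintype.card V - 1 := by
  have h1 : (Finset.univ.erase v).card = ∑ i : Fin 4,
      ((Finset.univ.erase v).filter (fun u => c s(v, u) = i)).card :=
    Finset.card_eq_sum_card_fiberwise (fun _ _ => Finset.mem_coe.mpr (Finset.mem_univ _))
  rw [Finset.card_erase_of_mem (Finset.mem_univ v), Finset.card_univ] at h1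
  rw [h1]
  refine Finset.sum_congr rfl fun i _ => ?_
  congr 1
  ext u
  rw [mem_nb, Finset.mem_filter, Finset.mem_erase]
  constructor
  · intro h
    exact ⟨⟨h.1.symm, Finset.mem_univ _⟩, h.2⟩
  · intro h
    exact ⟨h.1.1.symm, h.2⟩

theorem neighborFinset_eq {V : Type} [Fintype V] [DecidableEq V] (c : Sym2 V → Fin 4)
    (i : Fin 4) (v : V) : (colourGraph c i).neighborFinset v = nb c v i := by
  ext u
  rw [SimpleGraph.mem_neighborFinset, mem_nb]
  exact Iff.rfl

theorem degree_eq {V : Type} [Fintype V] [DecidableEq V] (c : Sym2 V → Fin 4)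
    (i : Fin 4) (v : V) : (colourGraph c i).degree v = (nb c v i).card := by
  rw [← SimpleGraph.card_neighborFinset_eq_degree, neighborFinset_eq]

end Pool.Agent.R4S
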