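import Pool.Agent.R4S.Arith

/-!
# No intersection numbers
-/

namespace Pool.Agent.R4S

open Finset

/-- The identities and inequalities satisfied by the intersection numbers `p i j k` and the
valencies `K i` of a colouring that is an association scheme. -/
structure Facts (p : Fin 4 → Fin 4 → Fin 4 → ℕ) (K : Fin 4 → ℕ) : Prop where
  row : ∀ i k, ∑ j, p i j k + (if i = k then 1 else 0) = K i
  sym : ∀ i j k, p i j k = p j i k
  tri : ∀ i j k, K k * p i j k = K i * p k j i
  zero : ∀ i, p i i i = 0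
  bd : ∀ i j k, i ≠ j → p i j k ≤ 5
  assoc : ∀ i j, i ≠ j → K i + ∑ e, p i i e * p e j j = ∑ f, p i j f * p i f j
  le : ∀ i, K i ≤ 16
  sum : 41 ≤ ∑ i, K i
  pos : ∀ i, 1 ≤ K i
  par : ∀ i, ((∑ i, K i) + 1) * K i % 2 = 0

theorem Facts.perm {p : Fin 4 → Fin 4 → Fin 4 → ℕ} {K : Fin 4 → ℕ} (h : Facts p K)
    (σ : Equiv.Perm (Fin 4)) :
    Facts (fun i j k => p (σ i) (σ j) (σ k)) (fun i => K (σ i)) where
  row i k := by
    have h1 := h.row (σ i) (σ k)
    rw [← Equiv.sum_comp σ] at h1
    rw [← h1]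
    congr 1
    by_cases hik : i = k
    · rw [if_pos hik, if_pos (congrArg σ hik)]
    · rw [if_neg hik, if_neg (fun hh => hik (σ.injective hh))]
  sym i j k := h.sym _ _ _
  tri i j k := h.tri _ _ _
  zero i := h.zero _
  bd i j k hij := h.bd _ _ _ (fun hh => hij (σ.injective hh))
  assoc i j hij := by
    have h1 := h.assoc (σ i) (σ j) (fun hh => hij (σ.injective hh))
    rw [← Equiv.sum_comp σ, ← Equiv.sum_comp σ (fun f => p (σ i) (σ j) f * p (σ i) f (σ j))] at h1
    exact h1
  le i := h.le _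
  sum := by
    have h1 := h.sum
    rw [← Equiv.sum_comp σ] at h1
    exact h1
  pos i := h.pos _
  par i := by
    have h1 := h.par (σ i)
    rw [← Equiv.sum_comp σ] at h1
    exact h1

end Pool.Agent.R4S
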