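import Pool.Agent.R4S.Scheme

/-!
# The cyclotomic scheme with four classes on 41 points
-/

namespace Pool.Agent.R4S

open Finset

/-- The index of a nonzero element of `ZMod 41` modulo 4, to the base 6. -/
def cls (x : ZMod 41) : Fin 4 :=
  ([0, 0, 2, 3, 0, 2, 1, 3, 2, 2, 0, 3, 3, 3, 1, 1, 0, 1, 0, 1, 2, 2, 1, 0, 1, 0, 1, 1, 3, 3, 3,
    0, 2, 2, 3, 1, 2, 0, 3, 2, 0] : List (Fin 4)).getD x.val 0

theorem cls_neg : ∀ x : ZMod 41, cls (-x) = cls x := by decide +kernel

/-- The colouring of the edges of the complete graph on `ZMod 41` by the class of the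
difference. -/
def col (e : Sym2 (ZMod 41)) : Fin 4 :=
  Sym2.lift ⟨fun u v => cls (u - v), fun u v => by
    change cls (u - v) = cls (v - u)
    rw [← cls_neg, neg_sub]⟩ e

theorem col_mk (u v : ZMod 41) : col s(u, v) = cls (u - v) := rfl

/-- The intersection numbers of the cyclotomic scheme. -/
def cyc (i j k : Fin 4) : ℕ :=
  ((([[[0, 4, 3, 2], [4, 2, 2, 2], [3, 2, 3, 2], [2, 2, 2, 4]],
    [[4, 2, 2, 2], [2, 0, 4, 3], [2, 4, 2, 2], [2, 3, 2, 3]],
    [[3, 2, 3, 2], [2, 4, 2, 2], [3, 2, 0, 4], [2, 2, 4, 2]],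
    [[2, 2, 2, 4], [2, 3, 2, 3], [2, 2, 4, 2], [4, 3, 2, 0]]] : List (List (List ℕ))).getD
      i.val []).getD j.val []).getD k.val 0

theorem sumFree : ∀ a b : ZMod 41, a ≠ 0 → b ≠ 0 → a + b ≠ 0 →
    ¬ (cls a = cls b ∧ cls a = cls (a + b)) := by decide +kernel

theorem cyc_count : ∀ d : ZMod 41, d ≠ 0 → ∀ i j : Fin 4,
    (Finset.univ.filter (fun x : ZMod 41 => d ≠ x ∧ x ≠ 0 ∧ cls (d - x) = i ∧ cls x = j)).card
      = cyc i j (cls d) := by decide +kernel

theorem col_noMono : NoMono col := by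
  intro u v w huv hvw huw
  rw [col_mk, col_mk, col_mk]
  have h := sumFree (u - v) (v - w) (sub_ne_zero.mpr huv) (sub_ne_zero.mpr hvw)
    (by rw [sub_add_sub_cancel]; exact sub_ne_zero.mpr huw)
  rwa [sub_add_sub_cancel] at h

theorem col_scheme : IsScheme col cyc := by
  intro u v huv i j
  rw [col_mk, ← cyc_count (u - v) (sub_ne_zero.mpr huv) i j]
  refine Finset.card_bij (fun w _ => w - v) ?_ ?_ ?_
  · intro w hw
    simp only [Finset.mem_filter, Finset.mem_univ, true_and, col_mk] at hw ⊢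
    refine ⟨?_, sub_ne_zero.mpr hw.2.1, ?_, hw.2.2.2⟩
    · intro h
      exact hw.1 (sub_left_injective h)
    · rw [sub_sub_sub_cancel_right]; exact hw.2.2.1
  · intro a _ b _ h
    exact sub_left_injective h
  · intro x hx
    simp only [Finset.mem_filter, Finset.mem_univ, true_and] at hx
    refine ⟨x + v, ?_, by ring⟩
    simp only [Finset.mem_filter, Finset.mem_univ, true_and, col_mk]
    refine ⟨?_, ?_, ?_, ?_⟩
    · intro h
      apply hx.1
      rw [h]; ring
    · intro h
      apply hx.2.1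
      have : x = x + v - v := by ring
      rw [this, h, sub_self]
    · have : u - (x + v) = u - v - x := by ring
      rw [this]; exact hx.2.2.1
    · rw [add_sub_cancel_right]; exact hx.2.2.2

end Pool.Agent.R4S
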