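import Pool.Agent.R4S.Aut

/-!
# Every colour class contains a 4-cycle
-/

namespace Pool.Agent.R4S

open Finset

section
variable {V : Type} [Fintype V] [DecidableEq V] {c : Sym2 V → Fin 4}

theorem mem_nb_comm {u v : V} {i : Fin 4} : u ∈ nb c v i ↔ v ∈ nb c u i := by
  rw [mem_nb, mem_nb, Sym2.eq_swap]
  exact ⟨fun h => ⟨h.1.symm, h.2⟩, fun h => ⟨h.1.symm, h.2⟩⟩

theorem swap_sum (S : Finset V) (T : Finset V) (f : V → V → ℕ) (i : Fin 4) :
    ∑ w ∈ T, ∑ x ∈ S ∩ nb c w i, f w x = ∑ x ∈ S, ∑ w ∈ T ∩ nb c x i, f w x := by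
  have h1 : ∀ w, ∑ x ∈ S ∩ nb c w i, f w x = ∑ x ∈ S, if x ∈ nb c w i then f w x else 0 := by
    intro w
    rw [← Finset.filter_mem_eq_inter, Finset.sum_filter]
  have h2 : ∀ x, ∑ w ∈ T ∩ nb c x i, f w x = ∑ w ∈ T, if w ∈ nb c x i then f w x else 0 := by
    intro x
    rw [← Finset.filter_mem_eq_inter, Finset.sum_filter]
  simp_rw [h1, h2]
  rw [Finset.sum_comm]
  refine Finset.sum_congr rfl fun x _ => Finset.sum_congr rfl fun w _ => ?_
  simp only [mem_nb_comm (c := c) (u := x) (v := w)]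

theorem walk_two (hc : NoMono c) {i : Fin 4}
    (hcod : ∀ u v : V, u ≠ v → (nb c u i ∩ nb c v i).card ≤ 1) (S : Finset V) {u : V}
    (hu : u ∈ S) : ∑ w ∈ S ∩ nb c u i, (S ∩ nb c w i).card ≤ S.card - 1 := by
  have h1 : ∑ w ∈ S ∩ nb c u i, (S ∩ nb c w i).card
      = ∑ x ∈ S, ((S ∩ nb c u i) ∩ nb c x i).card := by
    have := swap_sum (c := c) S (S ∩ nb c u i) (fun _ _ => 1) i
    simpa only [Finset.sum_const, smul_eq_mul, mul_one] using this
  rw [h1, ← Finset.add_sum_erase S _ hu]
  have h2 : (S ∩ nb c u i) ∩ nb c u i = S ∩ nb c u i := by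
    rw [Finset.inter_assoc, Finset.inter_self]
  rw [h2]
  have h3 : ∀ x ∈ S.erase u, ((S ∩ nb c u i) ∩ nb c x i).card
      ≤ if x ∈ nb c u i then 0 else 1 := by
    intro x hx
    rw [Finset.mem_erase] at hx
    by_cases hxu : x ∈ nb c u i
    · rw [if_pos hxu, Finset.inter_assoc, inter_self hc hxu, Finset.inter_empty,
        Finset.card_empty]
    · rw [if_neg hxu, Finset.inter_assoc]
      exact (Finset.card_le_card Finset.inter_subset_right).trans (hcod u x hx.1.symm)
  have h4 := Finset.sum_le_sum h3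
  have h5 : ∑ x ∈ S.erase u, (if x ∈ nb c u i then 0 else 1)
      = ((S.erase u) \ (S ∩ nb c u i)).card := by
    rw [Finset.card_eq_sum_ones, Finset.sum_ite, Finset.sum_const_zero, zero_add]
    refine Finset.sum_congr ?_ fun _ _ => rfl
    ext x
    rw [Finset.mem_filter, Finset.mem_sdiff, Finset.mem_erase, Finset.mem_inter]
    tauto
  rw [h5, Finset.card_sdiff_of_subset, Finset.card_erase_of_mem hu] at h4
  · have h6 : (S ∩ nb c u i).card ≤ (S.erase u).card := by
      apply Finset.card_le_card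
      intro x hx
      rw [Finset.mem_inter, mem_nb] at hx
      exact Finset.mem_erase.mpr ⟨hx.2.1.symm, hx.1⟩
    rw [Finset.card_erase_of_mem hu] at h6
    omega
  · intro x hx
    rw [Finset.mem_inter, mem_nb] at hx
    exact Finset.mem_erase.mpr ⟨hx.2.1.symm, hx.1⟩

theorem nb_le_fourteen (hc : NoMono c) {i X : Fin 4} (hX : X ≠ i)
    (hcod : ∀ u v : V, u ≠ v → (nb c u i ∩ nb c v i).card ≤ 1) (v : V) :
    (nb c v X).card ≤ 14 := by
  by_contra hgt
  have h16 := card_nb_le hc X v
  have h1 := cnt_lower hc v hX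
  set S := nb c v X with hS
  have h2 : ∑ u ∈ S, ∑ w ∈ S ∩ nb c u i, (S ∩ nb c w i).card ≤ S.card * (S.card - 1) := by
    have := Finset.sum_le_sum fun u (hu : u ∈ S) => walk_two hc hcod S hu
    rwa [Finset.sum_const, smul_eq_mul] at this
  have h3 : ∑ u ∈ S, ∑ w ∈ S ∩ nb c u i, (S ∩ nb c w i).card
      = ∑ w ∈ S, (S ∩ nb c w i).card ^ 2 := by
    rw [swap_sum (c := c) S S (fun _ w => (S ∩ nb c w i).card) i]
    refine Finset.sum_congr rfl fun w _ => ?_
    rw [Finset.sum_const, smul_eq_mul, sq]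
  have h4 : ((cnt c S i : ℕ) : ℤ) ^ 2
      ≤ (S.card : ℤ) * ∑ w ∈ S, ((S ∩ nb c w i).card : ℤ) ^ 2 := by
    have := sq_sum_le_card_mul_sum_sq (s := S) (f := fun w => ((S ∩ nb c w i).card : ℤ))
    rw [cnt]
    push_cast
    exact this
  have h5 : ∑ w ∈ S, ((S ∩ nb c w i).card : ℤ) ^ 2 ≤ (S.card : ℤ) * ((S.card - 1 : ℕ) : ℤ) := by
    rw [h3] at h2
    exact_mod_cast h2
  have hs : S.card = 15 ∨ S.card = 16 := by omega
  rcases hs with hs | hs
  · rw [hs] at h1 h4 h5
    have h6 : (62 : ℤ) ≤ cnt c S i := by omega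
    norm_num at h5 h4
    nlinarith
  · rw [hs] at h1 h4 h5
    have h6 : (80 : ℤ) ≤ cnt c S i := by omega
    norm_num at h5 h4
    nlinarith

theorem codegree_or_moore (hc : NoMono c) (hn : 50 ≤ Fintype.card V) (i : Fin 4) :
    (∃ u v : V, u ≠ v ∧ 2 ≤ (nb c u i ∩ nb c v i).card) ∨
      (colourGraph c i).IsSRGWith 50 7 0 1 := by
  by_cases h : ∃ u v : V, u ≠ v ∧ 2 ≤ (nb c u i ∩ nb c v i).card
  · exact Or.inl h
  right
  push Not at h
  have hcod : ∀ u v : V, u ≠ v → (nb c u i ∩ nb c v i).card ≤ 1 := fun u v huv =>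
    Nat.le_of_lt_succ (h u v huv)
  have hdeg : ∀ v, Fintype.card V ≤ (nb c v i).card + 43 := by
    intro v
    have hs := sum_card_nb c v
    rw [Fin.sum_univ_four] at hs
    have hle : ∀ X, X ≠ i → (nb c v X).card ≤ 14 := fun X hX => nb_le_fourteen hc hX hcod v
    have h0 := hle 0
    have h1 := hle 1
    have h2 := hle 2
    have h3 := hle 3
    fin_cases i <;>
      simp only [Fin.zero_eta, Fin.mk_one, Fin.reduceFinMk, ne_eq, not_true_eq_false,
        Fin.reduceEq, not_false_eq_true, forall_const, Fin.isValue] at * <;> omega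
  have hwalk : ∀ v, ∑ w ∈ nb c v i, (nb c w i).card ≤ Fintype.card V - 1 := by
    intro v
    have h1 := walk_two hc hcod Finset.univ (Finset.mem_univ v)
    simpa only [Finset.univ_inter, Finset.card_univ] using h1
  have hsq : ∀ v, (nb c v i).card * (Fintype.card V - 43) ≤ Fintype.card V - 1 := by
    intro v
    refine le_trans ?_ (hwalk v)
    rw [← smul_eq_mul, ← Finset.sum_const]
    exact Finset.sum_le_sum fun w _ => by have := hdeg w; omega
  obtain ⟨v₀⟩ := Fintype.card_pos_iff.mp (show 0 < Fintype.card V by omega)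
  have hcard : Fintype.card V = 50 := by
    have h1 := hsq v₀
    have h2 := hdeg v₀
    have h3 := card_nb_le hc i v₀
    have h4 : (Fintype.card V - 43) * (Fintype.card V - 43) ≤ Fintype.card V - 1 :=
      le_trans (Nat.mul_le_mul_right _ (by omega)) h1
    generalize Fintype.card V = n at *
    have h5 : n ≤ 59 := by omega
    clear h1 hdeg hwalk hsq
    interval_cases n <;> omega
  have h7 : ∀ v, (nb c v i).card = 7 := by
    intro v
    have h1 := hsq v
    have h2 := hdeg v
    rw [hcard] at h1 h2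
    omega
  have hcn : ∀ x y : V, Fintype.card ((colourGraph c i).commonNeighbors x y)
      = (nb c x i ∩ nb c y i).card := by
    intro x y
    rw [← Set.toFinset_card]
    congr 1
    ext w
    rw [Set.mem_toFinset, SimpleGraph.mem_commonNeighbors, Finset.mem_inter, mem_nb, mem_nb]
    exact Iff.rfl
  have hone : ∀ u x : V, u ≠ x → x ∉ nb c u i → (nb c u i ∩ nb c x i).card = 1 := by
    intro u x hux hx
    have h1 : ∑ w ∈ nb c u i, (nb c w i).card = ∑ x, (nb c u i ∩ nb c x i).card := by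
      have := swap_sum (c := c) Finset.univ (nb c u i) (fun _ _ => 1) i
      simpa only [Finset.sum_const, smul_eq_mul, mul_one, Finset.univ_inter] using this
    have h2 : ∑ w ∈ nb c u i, (nb c w i).card = 49 := by
      rw [Finset.sum_congr rfl fun w _ => h7 w, Finset.sum_const, h7 u, smul_eq_mul]
    rw [h1, ← Finset.add_sum_erase Finset.univ _ (Finset.mem_univ u), Finset.inter_self, h7 u] at h2
    have h3 : ∀ y ∈ Finset.univ.erase u, (nb c u i ∩ nb c y i).card
        ≤ if y ∈ nb c u i then 0 else 1 := by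
      intro y hy
      rw [Finset.mem_erase] at hy
      by_cases hyu : y ∈ nb c u i
      · rw [if_pos hyu, inter_self hc hyu, Finset.card_empty]
      · rw [if_neg hyu]
        exact hcod u y hy.1.symm
    have h5 : ∑ y ∈ Finset.univ.erase u, (if y ∈ nb c u i then 0 else 1)
        = ((Finset.univ.erase u) \ nb c u i).card := by
      rw [Finset.card_eq_sum_ones, Finset.sum_ite, Finset.sum_const_zero, zero_add]
      refine Finset.sum_congr ?_ fun _ _ => rfl
      ext x
      rw [Finset.mem_filter, Finset.mem_sdiff]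
    rw [Finset.card_sdiff_of_subset, Finset.card_erase_of_mem (Finset.mem_univ u),
      Finset.card_univ, hcard, h7 u] at h5
    · have h6 := (Finset.sum_eq_sum_iff_of_le h3).mp (by omega) x
        (Finset.mem_erase.mpr ⟨hux.symm, Finset.mem_univ _⟩)
      rw [if_neg hx] at h6
      exact h6
    · intro x hx
      rw [mem_nb] at hx
      exact Finset.mem_erase.mpr ⟨hx.1.symm, Finset.mem_univ _⟩
  refine ⟨hcard, fun x => ?_, fun x y hxy => ?_, fun x y hxy hadj => ?_⟩
  · rw [degree_eq]; exact h7 x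
  · rw [hcn, inter_self hc (mem_nb.mpr hxy), Finset.card_empty]
  · rw [hcn]
    exact hone x y hxy fun h => hadj (mem_nb.mp h)

end

end Pool.Agent.R4S
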