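import Pool.Agent.R4S.SRG

/-!
# The parameters (56, 10, 0, 2) do not occur as a colour class
-/

namespace Pool.Agent.R4S

open Finset Matrix

section quad
variable {V : Type} [Fintype V] [DecidableEq V]

/-- The indicator vector of a set of vertices. -/
def ind (S : Finset V) : V → ℤ := fun v => if v ∈ S then 1 else 0

theorem quad (G : SimpleGraph V) [DecidableRel G.Adj] (h : G.IsSRGWith 56 10 0 2) (x : V → ℤ) :
    7 * (x ⬝ᵥ (G.adjMatrix ℤ *ᵥ x)) ≤ 14 * (x ⬝ᵥ x) + (∑ v, x v) ^ 2 := by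
  set A : Matrix V V ℤ := G.adjMatrix ℤ with hA
  set s : ℤ := ∑ v, x v with hs
  set J : Matrix V V ℤ := Matrix.of fun _ _ => (1 : ℤ) with hJ
  have hcompl : 1 + A + Gᶜ.adjMatrix ℤ = J := by
    rw [hA, hJ]
    ext u v
    simp only [Matrix.add_apply, Matrix.one_apply, SimpleGraph.adjMatrix_apply,
      SimpleGraph.compl_adj, Matrix.of_apply]
    by_cases h1 : u = v
    · subst h1; simp
    · by_cases h2 : G.Adj u v <;> simp [h1, h2]
  have hA2 : A * A = (10 : ℤ) • (1 : Matrix V V ℤ) + (2 : ℤ) • (J - 1 - A) := by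
    have h1 := h.matrix_eq (α := ℤ)
    rw [← hA] at h1
    rw [← pow_two, h1, ← hcompl]
    simp only [zero_smul, add_zero]
    rw [show (1 + A + Gᶜ.adjMatrix ℤ - 1 - A) = Gᶜ.adjMatrix ℤ by abel]
    norm_cast
  have hJx : J *ᵥ x = fun _ => s := by
    ext v
    simp [hJ, Matrix.mulVec, dotProduct, hs]
  have hAAx : A *ᵥ (A *ᵥ x) = (8 : ℤ) • x - (2 : ℤ) • (A *ᵥ x) + (2 : ℤ) • (fun _ => s) := by
    rw [Matrix.mulVec_mulVec, hA2, ← hJx]
    simp only [Matrix.add_mulVec, Matrix.smul_mulVec, Matrix.sub_mulVec, Matrix.one_mulVec]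
    module
  have hsymm : Aᵀ = A := by rw [hA]; exact SimpleGraph.transpose_adjMatrix _
  have h3 : (A *ᵥ x) ⬝ᵥ (A *ᵥ x) = 8 * (x ⬝ᵥ x) - 2 * (x ⬝ᵥ (A *ᵥ x)) + 2 * s ^ 2 := by
    have h31 : (A *ᵥ x) ⬝ᵥ (A *ᵥ x) = x ⬝ᵥ (A *ᵥ (A *ᵥ x)) := by
      rw [Matrix.dotProduct_mulVec x A (A *ᵥ x), ← Matrix.mulVec_transpose, hsymm]
    rw [h31, hAAx, dotProduct_add, dotProduct_sub, dotProduct_smul, dotProduct_smul,
      dotProduct_smul]
    have h32 : x ⬝ᵥ (fun _ => s) = s * s := by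
      simp only [dotProduct]
      rw [← Finset.sum_mul]
    rw [h32]
    simp only [smul_eq_mul]
    ring
  have h4 : ∑ v, (A *ᵥ x) v = 10 * s := by
    have h41 : ∑ v, (A *ᵥ x) v = (fun _ => (1 : ℤ)) ⬝ᵥ (A *ᵥ x) := by
      simp [dotProduct]
    have h42 : A *ᵥ (fun _ => (1 : ℤ)) = fun _ => (10 : ℤ) := by
      ext v
      rw [hA, SimpleGraph.adjMatrix_mulVec_apply]
      have := h.regular v
      simp [this]
    rw [h41, Matrix.dotProduct_mulVec, ← Matrix.mulVec_transpose, hsymm, h42]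
    simp only [dotProduct]
    rw [← Finset.mul_sum]
  have hcard : Fintype.card V = 56 := h.card
  have h5 : 0 ≤ ∑ v, (7 * (A *ᵥ x) v - 14 * x v - s) ^ 2 :=
    Finset.sum_nonneg fun v _ => sq_nonneg _
  have h6 : ∑ v, (7 * (A *ᵥ x) v - 14 * x v - s) ^ 2
      = 49 * ((A *ᵥ x) ⬝ᵥ (A *ᵥ x)) + 196 * (x ⬝ᵥ x) - 196 * (x ⬝ᵥ (A *ᵥ x))
        - 14 * s * (10 * s) + 28 * s * s + 56 * s ^ 2 := by
    have h61 : ∀ v, (7 * (A *ᵥ x) v - 14 * x v - s) ^ 2
        = 49 * ((A *ᵥ x) v * (A *ᵥ x) v) + 196 * (x v * x v) - 196 * (x v * (A *ᵥ x) v)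
          - 14 * s * (A *ᵥ x) v + 28 * s * x v + s ^ 2 := by
      intro v; ring
    rw [Finset.sum_congr rfl fun v _ => h61 v]
    simp only [Finset.sum_add_distrib, Finset.sum_sub_distrib, ← Finset.mul_sum,
      Finset.sum_const, Finset.card_univ, hcard, h4, ← hs, dotProduct]
    simp
  rw [h6, h3] at h5
  linarith

theorem ind_form (G : SimpleGraph V) [DecidableRel G.Adj] (S T : Finset V) :
    ind S ⬝ᵥ (G.adjMatrix ℤ *ᵥ ind T) = ((∑ u ∈ S, (T ∩ G.neighborFinset u).card : ℕ) : ℤ) := by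
  simp only [dotProduct, SimpleGraph.adjMatrix_mulVec_apply, ind, ite_mul, one_mul, zero_mul]
  rw [Finset.sum_ite_mem, Finset.univ_inter]
  push_cast
  refine Finset.sum_congr rfl fun u _ => ?_
  rw [Finset.sum_boole, Finset.filter_mem_eq_inter, Finset.inter_comm]

omit [DecidableEq V] in
theorem form_symm (G : SimpleGraph V) [DecidableRel G.Adj] (x y : V → ℤ) :
    x ⬝ᵥ (G.adjMatrix ℤ *ᵥ y) = y ⬝ᵥ (G.adjMatrix ℤ *ᵥ x) := by
  rw [Matrix.dotProduct_mulVec, ← Matrix.mulVec_transpose, SimpleGraph.transpose_adjMatrix,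
    dotProduct_comm]

theorem ind_dot (S T : Finset V) : ind S ⬝ᵥ ind T = ((S ∩ T).card : ℤ) := by
  simp only [dotProduct, ind, ite_mul, one_mul, zero_mul]
  rw [Finset.sum_ite_mem, Finset.univ_inter, Finset.sum_boole, Finset.filter_mem_eq_inter]

theorem ind_sum (S : Finset V) : ∑ v, ind S v = (S.card : ℤ) := by
  simp [ind]

end quad

section col
variable {V : Type} [Fintype V] [DecidableEq V] {c : Sym2 V → Fin 4}

/-- The number of ordered pairs of elements of `S` of colour `Y`. -/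
def cnt (c : Sym2 V → Fin 4) (S : Finset V) (Y : Fin 4) : ℕ := ∑ u ∈ S, (S ∩ nb c u Y).card

theorem inter_le (hc : NoMono c) {v u : V} {X Y : Fin 4} (hXY : Y ≠ X) :
    (nb c v X ∩ nb c u Y).card ≤ 5 := by
  have h := card_le_ramseyBound hc 2 ((Finset.univ.erase X).erase Y) (nb c v X ∩ nb c u Y) ?_ ?_
  · exact h
  · rw [Finset.card_erase_of_mem, Finset.card_erase_of_mem (Finset.mem_univ X)]
    · simp
    · rw [Finset.mem_erase]; exact ⟨hXY, Finset.mem_univ _⟩
  · intro x hx y hy hxy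
    rw [Finset.mem_inter, mem_nb, mem_nb] at hx hy
    rw [Finset.mem_erase, Finset.mem_erase]
    refine ⟨?_, ?_, Finset.mem_univ _⟩
    · intro h
      exact hc u x y hx.2.1 hxy hy.2.1 ⟨by rw [hx.2.2, h], by rw [hx.2.2, hy.2.2]⟩
    · intro h
      exact hc v x y hx.1.1 hxy hy.1.1 ⟨by rw [hx.1.2, h], by rw [hx.1.2, hy.1.2]⟩

theorem inter_self (hc : NoMono c) {v u : V} {X : Fin 4} (hu : u ∈ nb c v X) :
    nb c v X ∩ nb c u X = ∅ := by
  rw [Finset.eq_empty_iff_forall_notMem]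
  intro w hw
  rw [Finset.mem_inter, mem_nb, mem_nb] at hw
  rw [mem_nb] at hu
  exact hc v u w hu.1 hw.2.1 hw.1.1 ⟨by rw [hu.2, hw.2.2], by rw [hu.2, hw.1.2]⟩

theorem sum_inter (c : Sym2 V → Fin 4) (T : Finset V) {v : V} (hv : v ∉ T) :
    ∑ Y, (T ∩ nb c v Y).card = T.card := by
  have h1 : T.card = ∑ Y : Fin 4, (T.filter (fun w => c s(v, w) = Y)).card :=
    Finset.card_eq_sum_card_fiberwise (fun _ _ => Finset.mem_coe.mpr (Finset.mem_univ _))
  rw [h1]
  refine Finset.sum_congr rfl fun Y _ => ?_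
  congr 1
  ext w
  rw [Finset.mem_inter, mem_nb, Finset.mem_filter]
  constructor
  · rintro ⟨h1, h2, h3⟩; exact ⟨h1, h3⟩
  · rintro ⟨h1, h2⟩; exact ⟨h1, fun h => hv (h ▸ h1), h2⟩

theorem sum_inter_self (c : Sym2 V → Fin 4) (S : Finset V) {u : V} (hu : u ∈ S) :
    ∑ Y, (S ∩ nb c u Y).card = S.card - 1 := by
  have h1 := sum_inter c (S.erase u) (Finset.notMem_erase u S)
  rw [Finset.card_erase_of_mem hu] at h1
  rw [← h1]
  refine Finset.sum_congr rfl fun Y _ => ?_
  congr 1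
  ext w
  rw [Finset.mem_inter, Finset.mem_inter, mem_nb, Finset.mem_erase]
  constructor
  · rintro ⟨h1, h2, h3⟩; exact ⟨⟨h2.symm, h1⟩, h2, h3⟩
  · rintro ⟨⟨h1, h2⟩, h3, h4⟩; exact ⟨h2, h3, h4⟩

theorem cnt_even (c : Sym2 V → Fin 4) (S : Finset V) (Y : Fin 4) : Even (cnt c S Y) := by
  rw [← ZMod.natCast_eq_zero_iff_even]
  have h1 : ((cnt c S Y : ℕ) : ZMod 2)
      = ∑ p ∈ S ×ˢ S, if p.1 ≠ p.2 ∧ c s(p.1, p.2) = Y then (1 : ZMod 2) else 0 := by
    rw [Finset.sum_product, cnt]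
    push_cast
    refine Finset.sum_congr rfl fun u _ => ?_
    rw [Finset.sum_boole]
    congr 2
    ext w
    rw [Finset.mem_inter, mem_nb, Finset.mem_filter]
  rw [h1]
  refine Finset.sum_involution (fun p _ => p.swap) ?_ ?_ ?_ ?_
  · rintro ⟨a, b⟩ _
    simp only [Prod.swap]
    have hsw : c s(b, a) = c s(a, b) := congrArg c Sym2.eq_swap
    by_cases hab : a ≠ b ∧ c s(a, b) = Y
    · rw [if_pos hab, if_pos ⟨hab.1.symm, hsw.trans hab.2⟩]; decide
    · rw [if_neg hab, if_neg (fun h => hab ⟨h.1.symm, hsw.symm.trans h.2⟩)]; decide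
  · rintro ⟨a, b⟩ _ h h'
    simp only [Prod.swap, Prod.mk.injEq] at h'
    apply h
    rw [if_neg]
    rintro ⟨h1, -⟩
    exact h1 h'.2
  · rintro ⟨a, b⟩ h
    rw [Finset.mem_product] at h ⊢
    exact ⟨h.2, h.1⟩
  · rintro ⟨a, b⟩ _; rfl

theorem cnt_lower (hc : NoMono c) (v : V) {X i : Fin 4} (hX : X ≠ i) :
    (nb c v X).card * ((nb c v X).card - 1)
      ≤ cnt c (nb c v X) i + 2 * (2 * (5 * (nb c v X).card / 2)) := by
  set S := nb c v X with hS
  have hsum : ∑ Y, cnt c S Y = S.card * (S.card - 1) := by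
    simp only [cnt]
    rw [Finset.sum_comm, Finset.sum_congr rfl (fun u hu => sum_inter_self c S hu),
      Finset.sum_const, smul_eq_mul]
  have hXX : cnt c S X = 0 := by
    rw [cnt]
    refine Finset.sum_eq_zero fun u hu => ?_
    rw [hS, inter_self hc hu, Finset.card_empty]
  have hY : ∀ Y, Y ≠ X → cnt c S Y ≤ 2 * (5 * S.card / 2) := by
    intro Y hYX
    have h1 : cnt c S Y ≤ ∑ u ∈ S, 5 := Finset.sum_le_sum fun u _ => inter_le hc hYX
    rw [Finset.sum_const, smul_eq_mul] at h1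
    obtain ⟨t, ht⟩ := cnt_even c S Y
    omega
  rw [Fin.sum_univ_four] at hsum
  rw [← hsum]
  have h0 := hY 0
  have h1 := hY 1
  have h2 := hY 2
  have h3 := hY 3
  clear_value S
  generalize 2 * (5 * S.card / 2) = B at *
  fin_cases X <;> fin_cases i <;>
    simp only [Fin.zero_eta, Fin.mk_one, Fin.reduceFinMk, ne_eq, not_true_eq_false,
      Fin.reduceEq, not_false_eq_true, forall_const, Fin.isValue] at * <;> omega

/-- The number of edges of colour `i` from the neighbourhood of colour `X` to that of colour `Y`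
of the vertex `v`. -/
def crs (c : Sym2 V → Fin 4) (v : V) (i X Y : Fin 4) : ℕ :=
  ∑ u ∈ nb c v X, (nb c v Y ∩ nb c u i).card

theorem crs_form (c : Sym2 V → Fin 4) (v : V) (i X Y : Fin 4) :
    (crs c v i X Y : ℤ)
      = ind (nb c v X) ⬝ᵥ ((colourGraph c i).adjMatrix ℤ *ᵥ ind (nb c v Y)) := by
  rw [ind_form, crs]
  simp only [neighborFinset_eq]

theorem crs_symm (c : Sym2 V → Fin 4) (v : V) (i X Y : Fin 4) :
    crs c v i X Y = crs c v i Y X := by
  have h : (crs c v i X Y : ℤ) = crs c v i Y X := by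
    rw [crs_form, crs_form, form_symm]
  exact_mod_cast h

theorem nb_disjoint (c : Sym2 V → Fin 4) (v : V) {X Y : Fin 4} (h : X ≠ Y) :
    nb c v X ∩ nb c v Y = ∅ := by
  rw [Finset.eq_empty_iff_forall_notMem]
  intro w hw
  rw [Finset.mem_inter, mem_nb, mem_nb] at hw
  exact h (hw.1.2.symm.trans hw.2.2)

theorem card_nb_eq {i : Fin 4} (h : (colourGraph c i).IsSRGWith 56 10 0 2) (v : V) :
    (nb c v i).card = 10 := by
  rw [← degree_eq]; exact h.regular v

theorem card_nb_le' (hc : NoMono c) {i X : Fin 4} (hX : X ≠ i)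
    (h : (colourGraph c i).IsSRGWith 56 10 0 2) (v : V) : (nb c v X).card ≤ 15 := by
  have h1 := card_nb_le hc X v
  by_contra h2
  have h3 : (nb c v X).card = 16 := by omega
  have h4 := cnt_lower hc v hX
  rw [h3] at h4
  have h5 := quad _ h (ind (nb c v X))
  rw [← crs_form, ind_dot, ind_sum, Finset.inter_self, h3] at h5
  have h6 : crs c v i X X = cnt c (nb c v X) i := rfl
  rw [h6] at h5
  omega

theorem row_sum {i X : Fin 4} (hX : X ≠ i) (h : (colourGraph c i).IsSRGWith 56 10 0 2) (v : V) :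
    ∑ Y, crs c v i X Y = 10 * (nb c v X).card := by
  simp only [crs]
  rw [Finset.sum_comm]
  have h1 : ∀ u ∈ nb c v X, ∑ Y, (nb c v Y ∩ nb c u i).card = 10 := by
    intro u hu
    rw [← card_nb_eq h u]
    have hv : v ∉ nb c u i := by
      intro hv
      rw [mem_nb] at hu hv
      apply hX
      rw [← hu.2, ← hv.2, Sym2.eq_swap]
    rw [← sum_inter c (nb c u i) hv]
    exact Finset.sum_congr rfl fun Y _ => by rw [Finset.inter_comm]
  rw [Finset.sum_congr rfl h1, Finset.sum_const, smul_eq_mul, mul_comm]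

theorem crs_self {i X : Fin 4} (hX : X ≠ i) (h : (colourGraph c i).IsSRGWith 56 10 0 2) (v : V) :
    crs c v i X i = 2 * (nb c v X).card := by
  rw [crs]
  have h1 : ∀ u ∈ nb c v X, (nb c v i ∩ nb c u i).card = 2 := by
    intro u hu
    rw [mem_nb] at hu
    have h2 : ¬ (colourGraph c i).Adj v u := by
      intro hadj
      exact hX (hu.2.symm.trans hadj.2)
    have h3 := h.of_not_adj hu.1 h2
    rw [← h3, ← Set.toFinset_card]
    congr 1
    ext w
    rw [Set.mem_toFinset, SimpleGraph.mem_commonNeighbors, Finset.mem_inter, mem_nb, mem_nb]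
    exact Iff.rfl
  rw [Finset.sum_congr rfl h1, Finset.sum_const, smul_eq_mul, mul_comm]

theorem pair_le {i X Y : Fin 4} (hXY : X ≠ Y) (h : (colourGraph c i).IsSRGWith 56 10 0 2) (v : V)
    (h1 : (nb c v X).card = 15) (h2 : (nb c v Y).card = 15) :
    crs c v i X X + crs c v i Y Y ≤ 2 * crs c v i X Y + 60 := by
  have h3 := quad _ h (ind (nb c v X) - ind (nb c v Y))
  have h4 : ∑ w, (ind (nb c v X) - ind (nb c v Y)) w = 0 := by
    simp only [Pi.sub_apply]
    rw [Finset.sum_sub_distrib, ind_sum, ind_sum, h1, h2, sub_self]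
  have h5 : (ind (nb c v X) - ind (nb c v Y)) ⬝ᵥ (ind (nb c v X) - ind (nb c v Y)) = 30 := by
    rw [sub_dotProduct, dotProduct_sub, dotProduct_sub, ind_dot, ind_dot, ind_dot, ind_dot,
      nb_disjoint c v hXY, nb_disjoint c v hXY.symm, Finset.inter_self, Finset.inter_self, h1, h2]
    norm_num
  have h6 : (ind (nb c v X) - ind (nb c v Y)) ⬝ᵥ
      ((colourGraph c i).adjMatrix ℤ *ᵥ (ind (nb c v X) - ind (nb c v Y)))
      = crs c v i X X + crs c v i Y Y - 2 * crs c v i X Y := by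
    rw [Matrix.mulVec_sub, sub_dotProduct, dotProduct_sub, dotProduct_sub, ← crs_form, ← crs_form,
      ← crs_form, ← crs_form, crs_symm c v i Y X]
    ring
  rw [h4, h5, h6] at h3
  omega

theorem no_gewirtz (hc : NoMono c) {i : Fin 4} (h : (colourGraph c i).IsSRGWith 56 10 0 2) :
    False := by
  have hcard : Fintype.card V = 56 := h.card
  obtain ⟨v⟩ := Fintype.card_pos_iff.mp (show 0 < Fintype.card V by omega)
  have hs := sum_card_nb c v
  rw [hcard, Fin.sum_univ_four] at hs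
  have hi := card_nb_eq h v
  have hle : ∀ X, X ≠ i → (nb c v X).card ≤ 15 := fun X hX => card_nb_le' hc hX h v
  have h15 : ∀ X, X ≠ i → (nb c v X).card = 15 := by
    intro X hX
    have h0 := hle 0
    have h1 := hle 1
    have h2 := hle 2
    have h3 := hle 3
    fin_cases X <;> fin_cases i <;>
      simp only [Fin.zero_eta, Fin.mk_one, Fin.reduceFinMk, ne_eq, not_true_eq_false,
        Fin.reduceEq, not_false_eq_true, forall_const, Fin.isValue] at * <;> omega
  have hA : ∀ X, X ≠ i → crs c v i X 0 + crs c v i X 1 + crs c v i X 2 + crs c v i X 3 = 150 := by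
    intro X hX
    have := row_sum hX h v
    rw [h15 X hX, Fin.sum_univ_four] at this
    exact this
  have hB : ∀ X, X ≠ i → crs c v i X i = 30 := by
    intro X hX
    rw [crs_self hX h v, h15 X hX]
  have hC : ∀ X, X ≠ i → 62 ≤ crs c v i X X := by
    intro X hX
    have h1 := cnt_lower hc v hX
    rw [h15 X hX] at h1
    have h6 : crs c v i X X = cnt c (nb c v X) i := rfl
    rw [h6]
    omega
  have hD : ∀ X Y, X ≠ i → Y ≠ i → X ≠ Y →
      crs c v i X X + crs c v i Y Y ≤ 2 * crs c v i X Y + 60 := by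
    intro X Y hX hY hXY
    exact pair_le hXY h v (h15 X hX) (h15 Y hY)
  have hS := crs_symm c v i
  have s01 := hS 0 1
  have s02 := hS 0 2
  have s03 := hS 0 3
  have s12 := hS 1 2
  have s13 := hS 1 3
  have s23 := hS 2 3
  have a0 := hA 0
  have a1 := hA 1
  have a2 := hA 2
  have a3 := hA 3
  have b0 := hB 0
  have b1 := hB 1
  have b2 := hB 2
  have b3 := hB 3
  have c0 := hC 0
  have c1 := hC 1
  have c2 := hC 2
  have c3 := hC 3
  have d01 := hD 0 1
  have d02 := hD 0 2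
  have d03 := hD 0 3
  have d12 := hD 1 2
  have d13 := hD 1 3
  have d23 := hD 2 3
  clear hs hi hle h15 hA hB hC hD hS h
  fin_cases i <;>
    simp only [Fin.zero_eta, Fin.mk_one, Fin.reduceFinMk, ne_eq, not_true_eq_false,
      Fin.reduceEq, not_false_eq_true, forall_const, Fin.isValue] at * <;> omega

theorem no_srg (hc : NoMono c) (hn : 51 ≤ Fintype.card V) {i : Fin 4} {k l m : ℕ} :
    ¬ (colourGraph c i).IsSRGWith (Fintype.card V) k l m := by
  intro h
  obtain ⟨h1, rfl, rfl, rfl⟩ := srg_colour hc hn h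
  rw [h1] at h
  exact no_gewirtz hc h

end col

end Pool.Agent.R4S
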