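import Pool.Agent.R4S.NoFacts
import Pool.Agent.R4S.Forty

/-!
# The largest association scheme colouring
-/

namespace Pool.Agent.R4S

open Finset

theorem NoMono.comap {V W : Type} {c : Sym2 V → Fin 4} (hc : NoMono c) (e : W ≃ V) :
    NoMono (fun s => c (Sym2.map e s)) := by
  intro u v w huv hvw huw
  exact hc (e u) (e v) (e w) (e.injective.ne huv) (e.injective.ne hvw) (e.injective.ne huw)

theorem IsScheme.comap {V W : Type} [Fintype V] [DecidableEq V] [Fintype W] [DecidableEq W]
    {c : Sym2 V → Fin 4} {p : Fin 4 → Fin 4 → Fin 4 → ℕ} (hp : IsScheme c p) (e : W ≃ V) :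
    IsScheme (fun s => c (Sym2.map e s)) p := by
  intro u v huv i j
  have h := hp (e u) (e v) (e.injective.ne huv) i j
  change _ = p i j (c s(e u, e v))
  rw [← h]
  refine Finset.card_bij (fun w _ => e w) ?_ ?_ ?_
  · intro w hw
    simp only [Finset.mem_filter, Finset.mem_univ, true_and, Sym2.map_mk] at hw ⊢
    exact ⟨e.injective.ne hw.1, e.injective.ne hw.2.1, hw.2.2⟩
  · intro a _ b _ hab
    exact e.injective hab
  · intro x hx
    refine ⟨e.symm x, ?_, e.apply_symm_apply x⟩
    simp only [Finset.mem_filter, Finset.mem_univ, true_and, Sym2.map_mk] at hx ⊢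
    rw [e.apply_symm_apply]
    refine ⟨?_, ?_, hx.2.2⟩
    · intro h1; apply hx.1; rw [h1, e.apply_symm_apply]
    · intro h1; apply hx.2.1; rw [← h1, e.apply_symm_apply]

theorem isGreatest : IsGreatest {n : ℕ | ∃ (c : Sym2 (Fin n) → Fin 4)
    (p : Fin 4 → Fin 4 → Fin 4 → ℕ), NoMono c ∧ IsScheme c p} 41 := by
  constructor
  · have e : Fin 41 ≃ ZMod 41 := Equiv.refl _
    exact ⟨_, cyc, col_noMono.comap e, col_scheme.comap e⟩
  · rintro n ⟨c, p, hc, hp⟩
    by_contra hn
    exact not_scheme hc (by rw [Fintype.card_fin]; omega) hp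

end Pool.Agent.R4S
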