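import Pool.Agent.R4S.KillC

/-!
# Valencies excluded by the identities (KillD)
-/

namespace Pool.Agent.R4S

open Finset

theorem kill_16_10_10_5 {p : Fin 4 → Fin 4 → Fin 4 → ℕ} {K : Fin 4 → ℕ} (h : Facts p K)
    (k0 : K 0 = 16) (k1 : K 1 = 10) (k2 : K 2 = 10) (k3 : K 3 = 5) : False := by
  have b021 := h.bd 0 2 1 (by decide)
  have r00 := h.row 0 0
  rw [Fin.sum_univ_four, if_pos rfl, k0] at r00
  have r11 := h.row 1 1
  rw [Fin.sum_univ_four, if_pos rfl, k1] at r11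
  have r22 := h.row 2 2
  rw [Fin.sum_univ_four, if_pos rfl, k2] at r22
  have r33 := h.row 3 3
  rw [Fin.sum_univ_four, if_pos rfl, k3] at r33
  have r01 := h.row 0 1
  rw [Fin.sum_univ_four, if_neg (by decide), k0] at r01
  have r02 := h.row 0 2
  rw [Fin.sum_univ_four, if_neg (by decide), k0] at r02
  have r03 := h.row 0 3
  rw [Fin.sum_univ_four, if_neg (by decide), k0] at r03
  have r12 := h.row 1 2
  rw [Fin.sum_univ_four, if_neg (by decide), k1] at r12
  have r13 := h.row 1 3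
  rw [Fin.sum_univ_four, if_neg (by decide), k1] at r13
  have r23 := h.row 2 3
  rw [Fin.sum_univ_four, if_neg (by decide), k2] at r23
  have t001 := h.tri 0 0 1
  rw [k0, k1] at t001
  have t011 := h.tri 0 1 1
  rw [k0, k1] at t011
  have t002 := h.tri 0 0 2
  rw [k0, k2] at t002
  have t022 := h.tri 0 2 2
  rw [k0, k2] at t022
  have t003 := h.tri 0 0 3
  rw [k0, k3] at t003
  have t033 := h.tri 0 3 3
  rw [k0, k3] at t033
  have t112 := h.tri 1 1 2
  rw [k1, k2] at t112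
  have t122 := h.tri 1 2 2
  rw [k1, k2] at t122
  have t113 := h.tri 1 1 3
  rw [k1, k3] at t113
  have t133 := h.tri 1 3 3
  rw [k1, k3] at t133
  have t223 := h.tri 2 2 3
  rw [k2, k3] at t223
  have t233 := h.tri 2 3 3
  rw [k2, k3] at t233
  have t012 := h.tri 0 1 2
  rw [k0, k2] at t012
  have t021 := h.tri 0 2 1
  rw [k0, k1] at t021
  have t013 := h.tri 0 1 3
  rw [k0, k3] at t013
  have t031 := h.tri 0 3 1
  rw [k0, k1] at t031
  have t023 := h.tri 0 2 3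
  rw [k0, k3] at t023
  have t032 := h.tri 0 3 2
  rw [k0, k2] at t032
  have t123 := h.tri 1 2 3
  rw [k1, k3] at t123
  have t132 := h.tri 1 3 2
  rw [k1, k2] at t132
  have b01 := h.bd 0 1 0 (by decide)
  have b02 := h.bd 0 2 0 (by decide)
  have b03 := h.bd 0 3 0 (by decide)
  have b10 := h.bd 1 0 1 (by decide)
  have b12 := h.bd 1 2 1 (by decide)
  have b13 := h.bd 1 3 1 (by decide)
  have b20 := h.bd 2 0 2 (by decide)
  have b21 := h.bd 2 1 2 (by decide)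
  have b23 := h.bd 2 3 2 (by decide)
  have b30 := h.bd 3 0 3 (by decide)
  have b31 := h.bd 3 1 3 (by decide)
  have b32 := h.bd 3 2 3 (by decide)
  simp only [h.zero, h.sym 1 0 0, h.sym 1 0 1, h.sym 1 0 2, h.sym 1 0 3, h.sym 2 0 0, h.sym 2 0 2, h.sym 2 0 3, h.sym 2 1 0, h.sym 2 1 1, h.sym 2 1 2, h.sym 2 1 3, h.sym 3 0 0, h.sym 3 0 3, h.sym 3 1 0, h.sym 3 1 1, h.sym 3 1 3, h.sym 3 2 0, h.sym 3 2 1, h.sym 3 2 2, h.sym 3 2 3] at r00 r11 r22 r33 r01 r02 r03 r12 r13 r23 t001 t011 t002 t022 t003 t033 t112 t122 t113 t133 t223 t233 t012 t021 t013 t031 t023 t032 t123 t132 b01 b02 b03 b10 b12 b13 b20 b21 b23 b30 b31 b32 b021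
  generalize p 0 0 1 = x001 at r00 r11 r22 r33 r01 r02 r03 r12 r13 r23 t001 t011 t002 t022 t003 t033 t112 t122 t113 t133 t223 t233 t012 t021 t013 t031 t023 t032 t123 t132 b01 b02 b03 b10 b12 b13 b20 b21 b23 b30 b31 b32 b021
  generalize p 0 0 2 = x002 at r00 r11 r22 r33 r01 r02 r03 r12 r13 r23 t001 t011 t002 t022 t003 t033 t112 t122 t113 t133 t223 t233 t012 t021 t013 t031 t023 t032 t123 t132 b01 b02 b03 b10 b12 b13 b20 b21 b23 b30 b31 b32 b021
  generalize p 0 0 3 = x003 at r00 r11 r22 r33 r01 r02 r03 r12 r13 r23 t001 t011 t002 t022 t003 t033 t112 t122 t113 t133 t223 t233 t012 t021 t013 t031 t023 t032 t123 t132 b01 b02 b03 b10 b12 b13 b20 b21 b23 b30 b31 b32 b021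
  generalize p 0 1 0 = x010 at r00 r11 r22 r33 r01 r02 r03 r12 r13 r23 t001 t011 t002 t022 t003 t033 t112 t122 t113 t133 t223 t233 t012 t021 t013 t031 t023 t032 t123 t132 b01 b02 b03 b10 b12 b13 b20 b21 b23 b30 b31 b32 b021
  generalize p 0 1 1 = x011 at r00 r11 r22 r33 r01 r02 r03 r12 r13 r23 t001 t011 t002 t022 t003 t033 t112 t122 t113 t133 t223 t233 t012 t021 t013 t031 t023 t032 t123 t132 b01 b02 b03 b10 b12 b13 b20 b21 b23 b30 b31 b32 b021
  generalize p 0 1 2 = x012 at r00 r11 r22 r33 r01 r02 r03 r12 r13 r23 t001 t011 t002 t022 t003 t033 t112 t122 t113 t133 t223 t233 t012 t021 t013 t031 t023 t032 t123 t132 b01 b02 b03 b10 b12 b13 b20 b21 b23 b30 b31 b32 b021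
  generalize p 0 1 3 = x013 at r00 r11 r22 r33 r01 r02 r03 r12 r13 r23 t001 t011 t002 t022 t003 t033 t112 t122 t113 t133 t223 t233 t012 t021 t013 t031 t023 t032 t123 t132 b01 b02 b03 b10 b12 b13 b20 b21 b23 b30 b31 b32 b021
  generalize p 0 2 0 = x020 at r00 r11 r22 r33 r01 r02 r03 r12 r13 r23 t001 t011 t002 t022 t003 t033 t112 t122 t113 t133 t223 t233 t012 t021 t013 t031 t023 t032 t123 t132 b01 b02 b03 b10 b12 b13 b20 b21 b23 b30 b31 b32 b021
  generalize p 0 2 1 = x021 at r00 r11 r22 r33 r01 r02 r03 r12 r13 r23 t001 t011 t002 t022 t003 t033 t112 t122 t113 t133 t223 t233 t012 t021 t013 t031 t023 t032 t123 t132 b01 b02 b03 b10 b12 b13 b20 b21 b23 b30 b31 b32 b021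
  generalize p 0 2 2 = x022 at r00 r11 r22 r33 r01 r02 r03 r12 r13 r23 t001 t011 t002 t022 t003 t033 t112 t122 t113 t133 t223 t233 t012 t021 t013 t031 t023 t032 t123 t132 b01 b02 b03 b10 b12 b13 b20 b21 b23 b30 b31 b32 b021
  generalize p 0 2 3 = x023 at r00 r11 r22 r33 r01 r02 r03 r12 r13 r23 t001 t011 t002 t022 t003 t033 t112 t122 t113 t133 t223 t233 t012 t021 t013 t031 t023 t032 t123 t132 b01 b02 b03 b10 b12 b13 b20 b21 b23 b30 b31 b32 b021
  generalize p 0 3 0 = x030 at r00 r11 r22 r33 r01 r02 r03 r12 r13 r23 t001 t011 t002 t022 t003 t033 t112 t122 t113 t133 t223 t233 t012 t021 t013 t031 t023 t032 t123 t132 b01 b02 b03 b10 b12 b13 b20 b21 b23 b30 b31 b32 b021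
  generalize p 0 3 1 = x031 at r00 r11 r22 r33 r01 r02 r03 r12 r13 r23 t001 t011 t002 t022 t003 t033 t112 t122 t113 t133 t223 t233 t012 t021 t013 t031 t023 t032 t123 t132 b01 b02 b03 b10 b12 b13 b20 b21 b23 b30 b31 b32 b021
  generalize p 0 3 2 = x032 at r00 r11 r22 r33 r01 r02 r03 r12 r13 r23 t001 t011 t002 t022 t003 t033 t112 t122 t113 t133 t223 t233 t012 t021 t013 t031 t023 t032 t123 t132 b01 b02 b03 b10 b12 b13 b20 b21 b23 b30 b31 b32 b021
  generalize p 0 3 3 = x033 at r00 r11 r22 r33 r01 r02 r03 r12 r13 r23 t001 t011 t002 t022 t003 t033 t112 t122 t113 t133 t223 t233 t012 t021 t013 t031 t023 t032 t123 t132 b01 b02 b03 b10 b12 b13 b20 b21 b23 b30 b31 b32 b021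
  generalize p 1 1 0 = x110 at r00 r11 r22 r33 r01 r02 r03 r12 r13 r23 t001 t011 t002 t022 t003 t033 t112 t122 t113 t133 t223 t233 t012 t021 t013 t031 t023 t032 t123 t132 b01 b02 b03 b10 b12 b13 b20 b21 b23 b30 b31 b32 b021
  generalize p 1 1 2 = x112 at r00 r11 r22 r33 r01 r02 r03 r12 r13 r23 t001 t011 t002 t022 t003 t033 t112 t122 t113 t133 t223 t233 t012 t021 t013 t031 t023 t032 t123 t132 b01 b02 b03 b10 b12 b13 b20 b21 b23 b30 b31 b32 b021
  generalize p 1 1 3 = x113 at r00 r11 r22 r33 r01 r02 r03 r12 r13 r23 t001 t011 t002 t022 t003 t033 t112 t122 t113 t133 t223 t233 t012 t021 t013 t031 t023 t032 t123 t132 b01 b02 b03 b10 b12 b13 b20 b21 b23 b30 b31 b32 b021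
  generalize p 1 2 0 = x120 at r00 r11 r22 r33 r01 r02 r03 r12 r13 r23 t001 t011 t002 t022 t003 t033 t112 t122 t113 t133 t223 t233 t012 t021 t013 t031 t023 t032 t123 t132 b01 b02 b03 b10 b12 b13 b20 b21 b23 b30 b31 b32 b021
  generalize p 1 2 1 = x121 at r00 r11 r22 r33 r01 r02 r03 r12 r13 r23 t001 t011 t002 t022 t003 t033 t112 t122 t113 t133 t223 t233 t012 t021 t013 t031 t023 t032 t123 t132 b01 b02 b03 b10 b12 b13 b20 b21 b23 b30 b31 b32 b021
  generalize p 1 2 2 = x122 at r00 r11 r22 r33 r01 r02 r03 r12 r13 r23 t001 t011 t002 t022 t003 t033 t112 t122 t113 t133 t223 t233 t012 t021 t013 t031 t023 t032 t123 t132 b01 b02 b03 b10 b12 b13 b20 b21 b23 b30 b31 b32 b021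
  generalize p 1 2 3 = x123 at r00 r11 r22 r33 r01 r02 r03 r12 r13 r23 t001 t011 t002 t022 t003 t033 t112 t122 t113 t133 t223 t233 t012 t021 t013 t031 t023 t032 t123 t132 b01 b02 b03 b10 b12 b13 b20 b21 b23 b30 b31 b32 b021
  generalize p 1 3 0 = x130 at r00 r11 r22 r33 r01 r02 r03 r12 r13 r23 t001 t011 t002 t022 t003 t033 t112 t122 t113 t133 t223 t233 t012 t021 t013 t031 t023 t032 t123 t132 b01 b02 b03 b10 b12 b13 b20 b21 b23 b30 b31 b32 b021
  generalize p 1 3 1 = x131 at r00 r11 r22 r33 r01 r02 r03 r12 r13 r23 t001 t011 t002 t022 t003 t033 t112 t122 t113 t133 t223 t233 t012 t021 t013 t031 t023 t032 t123 t132 b01 b02 b03 b10 b12 b13 b20 b21 b23 b30 b31 b32 b021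
  generalize p 1 3 2 = x132 at r00 r11 r22 r33 r01 r02 r03 r12 r13 r23 t001 t011 t002 t022 t003 t033 t112 t122 t113 t133 t223 t233 t012 t021 t013 t031 t023 t032 t123 t132 b01 b02 b03 b10 b12 b13 b20 b21 b23 b30 b31 b32 b021
  generalize p 1 3 3 = x133 at r00 r11 r22 r33 r01 r02 r03 r12 r13 r23 t001 t011 t002 t022 t003 t033 t112 t122 t113 t133 t223 t233 t012 t021 t013 t031 t023 t032 t123 t132 b01 b02 b03 b10 b12 b13 b20 b21 b23 b30 b31 b32 b021
  generalize p 2 2 0 = x220 at r00 r11 r22 r33 r01 r02 r03 r12 r13 r23 t001 t011 t002 t022 t003 t033 t112 t122 t113 t133 t223 t233 t012 t021 t013 t031 t023 t032 t123 t132 b01 b02 b03 b10 b12 b13 b20 b21 b23 b30 b31 b32 b021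
  generalize p 2 2 1 = x221 at r00 r11 r22 r33 r01 r02 r03 r12 r13 r23 t001 t011 t002 t022 t003 t033 t112 t122 t113 t133 t223 t233 t012 t021 t013 t031 t023 t032 t123 t132 b01 b02 b03 b10 b12 b13 b20 b21 b23 b30 b31 b32 b021
  generalize p 2 2 3 = x223 at r00 r11 r22 r33 r01 r02 r03 r12 r13 r23 t001 t011 t002 t022 t003 t033 t112 t122 t113 t133 t223 t233 t012 t021 t013 t031 t023 t032 t123 t132 b01 b02 b03 b10 b12 b13 b20 b21 b23 b30 b31 b32 b021
  generalize p 2 3 0 = x230 at r00 r11 r22 r33 r01 r02 r03 r12 r13 r23 t001 t011 t002 t022 t003 t033 t112 t122 t113 t133 t223 t233 t012 t021 t013 t031 t023 t032 t123 t132 b01 b02 b03 b10 b12 b13 b20 b21 b23 b30 b31 b32 b021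
  generalize p 2 3 1 = x231 at r00 r11 r22 r33 r01 r02 r03 r12 r13 r23 t001 t011 t002 t022 t003 t033 t112 t122 t113 t133 t223 t233 t012 t021 t013 t031 t023 t032 t123 t132 b01 b02 b03 b10 b12 b13 b20 b21 b23 b30 b31 b32 b021
  generalize p 2 3 2 = x232 at r00 r11 r22 r33 r01 r02 r03 r12 r13 r23 t001 t011 t002 t022 t003 t033 t112 t122 t113 t133 t223 t233 t012 t021 t013 t031 t023 t032 t123 t132 b01 b02 b03 b10 b12 b13 b20 b21 b23 b30 b31 b32 b021
  generalize p 2 3 3 = x233 at r00 r11 r22 r33 r01 r02 r03 r12 r13 r23 t001 t011 t002 t022 t003 t033 t112 t122 t113 t133 t223 t233 t012 t021 t013 t031 t023 t032 t123 t132 b01 b02 b03 b10 b12 b13 b20 b21 b23 b30 b31 b32 b021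
  generalize p 3 3 0 = x330 at r00 r11 r22 r33 r01 r02 r03 r12 r13 r23 t001 t011 t002 t022 t003 t033 t112 t122 t113 t133 t223 t233 t012 t021 t013 t031 t023 t032 t123 t132 b01 b02 b03 b10 b12 b13 b20 b21 b23 b30 b31 b32 b021
  generalize p 3 3 1 = x331 at r00 r11 r22 r33 r01 r02 r03 r12 r13 r23 t001 t011 t002 t022 t003 t033 t112 t122 t113 t133 t223 t233 t012 t021 t013 t031 t023 t032 t123 t132 b01 b02 b03 b10 b12 b13 b20 b21 b23 b30 b31 b32 b021
  generalize p 3 3 2 = x332 at r00 r11 r22 r33 r01 r02 r03 r12 r13 r23 t001 t011 t002 t022 t003 t033 t112 t122 t113 t133 t223 t233 t012 t021 t013 t031 t023 t032 t123 t132 b01 b02 b03 b10 b12 b13 b20 b21 b23 b30 b31 b32 b021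
  clear h
  have h1 : x030 = 5 := by clear * - r00 b01 b02 b03; omega
  have h1' : x010 = 5 := by clear * - r00 b01 b02 b03; omega
  have h2 : x013 = 0 := by clear * - r03 t003 h1; omega
  have h3 : x031 = 0 := by clear * - t013 t031 h2; omega
  have h4 : x011 = 0 := by clear * - t011 b10; omega
  have h5 : x001 = 8 := by clear * - t001 h1'; omega
  clear * - r01 h3 h4 h5 b021
  omega

theorem kill_16_16_8_8 {p : Fin 4 → Fin 4 → Fin 4 → ℕ} {K : Fin 4 → ℕ} (h : Facts p K)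
    (k0 : K 0 = 16) (k1 : K 1 = 16) (k2 : K 2 = 8) (k3 : K 3 = 8) : False := by
  have r00 := h.row 0 0
  rw [Fin.sum_univ_four, if_pos rfl, k0] at r00
  have r11 := h.row 1 1
  rw [Fin.sum_univ_four, if_pos rfl, k1] at r11
  have r22 := h.row 2 2
  rw [Fin.sum_univ_four, if_pos rfl, k2] at r22
  have r33 := h.row 3 3
  rw [Fin.sum_univ_four, if_pos rfl, k3] at r33
  have r01 := h.row 0 1
  rw [Fin.sum_univ_four, if_neg (by decide), k0] at r01
  have r02 := h.row 0 2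
  rw [Fin.sum_univ_four, if_neg (by decide), k0] at r02
  have r03 := h.row 0 3
  rw [Fin.sum_univ_four, if_neg (by decide), k0] at r03
  have r12 := h.row 1 2
  rw [Fin.sum_univ_four, if_neg (by decide), k1] at r12
  have r13 := h.row 1 3
  rw [Fin.sum_univ_four, if_neg (by decide), k1] at r13
  have r23 := h.row 2 3
  rw [Fin.sum_univ_four, if_neg (by decide), k2] at r23
  have t001 := h.tri 0 0 1
  rw [k0, k1] at t001
  have t011 := h.tri 0 1 1
  rw [k0, k1] at t011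
  have t002 := h.tri 0 0 2
  rw [k0, k2] at t002
  have t022 := h.tri 0 2 2
  rw [k0, k2] at t022
  have t003 := h.tri 0 0 3
  rw [k0, k3] at t003
  have t033 := h.tri 0 3 3
  rw [k0, k3] at t033
  have t112 := h.tri 1 1 2
  rw [k1, k2] at t112
  have t122 := h.tri 1 2 2
  rw [k1, k2] at t122
  have t113 := h.tri 1 1 3
  rw [k1, k3] at t113
  have t133 := h.tri 1 3 3
  rw [k1, k3] at t133
  have t223 := h.tri 2 2 3
  rw [k2, k3] at t223
  have t233 := h.tri 2 3 3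
  rw [k2, k3] at t233
  have t012 := h.tri 0 1 2
  rw [k0, k2] at t012
  have t021 := h.tri 0 2 1
  rw [k0, k1] at t021
  have t013 := h.tri 0 1 3
  rw [k0, k3] at t013
  have t031 := h.tri 0 3 1
  rw [k0, k1] at t031
  have t023 := h.tri 0 2 3
  rw [k0, k3] at t023
  have t032 := h.tri 0 3 2
  rw [k0, k2] at t032
  have t123 := h.tri 1 2 3
  rw [k1, k3] at t123
  have t132 := h.tri 1 3 2
  rw [k1, k2] at t132
  have b01 := h.bd 0 1 0 (by decide)
  have b02 := h.bd 0 2 0 (by decide)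
  have b03 := h.bd 0 3 0 (by decide)
  have b10 := h.bd 1 0 1 (by decide)
  have b12 := h.bd 1 2 1 (by decide)
  have b13 := h.bd 1 3 1 (by decide)
  have b20 := h.bd 2 0 2 (by decide)
  have b21 := h.bd 2 1 2 (by decide)
  have b23 := h.bd 2 3 2 (by decide)
  have b30 := h.bd 3 0 3 (by decide)
  have b31 := h.bd 3 1 3 (by decide)
  have b32 := h.bd 3 2 3 (by decide)
  simp only [h.zero, h.sym 1 0 0, h.sym 1 0 1, h.sym 1 0 2, h.sym 1 0 3, h.sym 2 0 0, h.sym 2 0 2, h.sym 2 0 3, h.sym 2 1 0, h.sym 2 1 1, h.sym 2 1 2, h.sym 2 1 3, h.sym 3 0 0, h.sym 3 0 3, h.sym 3 1 0, h.sym 3 1 1, h.sym 3 1 3, h.sym 3 2 0, h.sym 3 2 1, h.sym 3 2 2, h.sym 3 2 3] at r00 r11 r22 r33 r01 r02 r03 r12 r13 r23 t001 t011 t002 t022 t003 t033 t112 t122 t113 t133 t223 t233 t012 t021 t013 t031 t023 t032 t123 t132 b01 b02 b03 b10 b12 b13 b20 b21 b23 b30 b31 b32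
  generalize p 0 0 1 = x001 at r00 r11 r22 r33 r01 r02 r03 r12 r13 r23 t001 t011 t002 t022 t003 t033 t112 t122 t113 t133 t223 t233 t012 t021 t013 t031 t023 t032 t123 t132 b01 b02 b03 b10 b12 b13 b20 b21 b23 b30 b31 b32
  generalize p 0 0 2 = x002 at r00 r11 r22 r33 r01 r02 r03 r12 r13 r23 t001 t011 t002 t022 t003 t033 t112 t122 t113 t133 t223 t233 t012 t021 t013 t031 t023 t032 t123 t132 b01 b02 b03 b10 b12 b13 b20 b21 b23 b30 b31 b32
  generalize p 0 0 3 = x003 at r00 r11 r22 r33 r01 r02 r03 r12 r13 r23 t001 t011 t002 t022 t003 t033 t112 t122 t113 t133 t223 t233 t012 t021 t013 t031 t023 t032 t123 t132 b01 b02 b03 b10 b12 b13 b20 b21 b23 b30 b31 b32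
  generalize p 0 1 0 = x010 at r00 r11 r22 r33 r01 r02 r03 r12 r13 r23 t001 t011 t002 t022 t003 t033 t112 t122 t113 t133 t223 t233 t012 t021 t013 t031 t023 t032 t123 t132 b01 b02 b03 b10 b12 b13 b20 b21 b23 b30 b31 b32
  generalize p 0 1 1 = x011 at r00 r11 r22 r33 r01 r02 r03 r12 r13 r23 t001 t011 t002 t022 t003 t033 t112 t122 t113 t133 t223 t233 t012 t021 t013 t031 t023 t032 t123 t132 b01 b02 b03 b10 b12 b13 b20 b21 b23 b30 b31 b32
  generalize p 0 1 2 = x012 at r00 r11 r22 r33 r01 r02 r03 r12 r13 r23 t001 t011 t002 t022 t003 t033 t112 t122 t113 t133 t223 t233 t012 t021 t013 t031 t023 t032 t123 t132 b01 b02 b03 b10 b12 b13 b20 b21 b23 b30 b31 b32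
  generalize p 0 1 3 = x013 at r00 r11 r22 r33 r01 r02 r03 r12 r13 r23 t001 t011 t002 t022 t003 t033 t112 t122 t113 t133 t223 t233 t012 t021 t013 t031 t023 t032 t123 t132 b01 b02 b03 b10 b12 b13 b20 b21 b23 b30 b31 b32
  generalize p 0 2 0 = x020 at r00 r11 r22 r33 r01 r02 r03 r12 r13 r23 t001 t011 t002 t022 t003 t033 t112 t122 t113 t133 t223 t233 t012 t021 t013 t031 t023 t032 t123 t132 b01 b02 b03 b10 b12 b13 b20 b21 b23 b30 b31 b32
  generalize p 0 2 1 = x021 at r00 r11 r22 r33 r01 r02 r03 r12 r13 r23 t001 t011 t002 t022 t003 t033 t112 t122 t113 t133 t223 t233 t012 t021 t013 t031 t023 t032 t123 t132 b01 b02 b03 b10 b12 b13 b20 b21 b23 b30 b31 b32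
  generalize p 0 2 2 = x022 at r00 r11 r22 r33 r01 r02 r03 r12 r13 r23 t001 t011 t002 t022 t003 t033 t112 t122 t113 t133 t223 t233 t012 t021 t013 t031 t023 t032 t123 t132 b01 b02 b03 b10 b12 b13 b20 b21 b23 b30 b31 b32
  generalize p 0 2 3 = x023 at r00 r11 r22 r33 r01 r02 r03 r12 r13 r23 t001 t011 t002 t022 t003 t033 t112 t122 t113 t133 t223 t233 t012 t021 t013 t031 t023 t032 t123 t132 b01 b02 b03 b10 b12 b13 b20 b21 b23 b30 b31 b32
  generalize p 0 3 0 = x030 at r00 r11 r22 r33 r01 r02 r03 r12 r13 r23 t001 t011 t002 t022 t003 t033 t112 t122 t113 t133 t223 t233 t012 t021 t013 t031 t023 t032 t123 t132 b01 b02 b03 b10 b12 b13 b20 b21 b23 b30 b31 b32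
  generalize p 0 3 1 = x031 at r00 r11 r22 r33 r01 r02 r03 r12 r13 r23 t001 t011 t002 t022 t003 t033 t112 t122 t113 t133 t223 t233 t012 t021 t013 t031 t023 t032 t123 t132 b01 b02 b03 b10 b12 b13 b20 b21 b23 b30 b31 b32
  generalize p 0 3 2 = x032 at r00 r11 r22 r33 r01 r02 r03 r12 r13 r23 t001 t011 t002 t022 t003 t033 t112 t122 t113 t133 t223 t233 t012 t021 t013 t031 t023 t032 t123 t132 b01 b02 b03 b10 b12 b13 b20 b21 b23 b30 b31 b32
  generalize p 0 3 3 = x033 at r00 r11 r22 r33 r01 r02 r03 r12 r13 r23 t001 t011 t002 t022 t003 t033 t112 t122 t113 t133 t223 t233 t012 t021 t013 t031 t023 t032 t123 t132 b01 b02 b03 b10 b12 b13 b20 b21 b23 b30 b31 b32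
  generalize p 1 1 0 = x110 at r00 r11 r22 r33 r01 r02 r03 r12 r13 r23 t001 t011 t002 t022 t003 t033 t112 t122 t113 t133 t223 t233 t012 t021 t013 t031 t023 t032 t123 t132 b01 b02 b03 b10 b12 b13 b20 b21 b23 b30 b31 b32
  generalize p 1 1 2 = x112 at r00 r11 r22 r33 r01 r02 r03 r12 r13 r23 t001 t011 t002 t022 t003 t033 t112 t122 t113 t133 t223 t233 t012 t021 t013 t031 t023 t032 t123 t132 b01 b02 b03 b10 b12 b13 b20 b21 b23 b30 b31 b32
  generalize p 1 1 3 = x113 at r00 r11 r22 r33 r01 r02 r03 r12 r13 r23 t001 t011 t002 t022 t003 t033 t112 t122 t113 t133 t223 t233 t012 t021 t013 t031 t023 t032 t123 t132 b01 b02 b03 b10 b12 b13 b20 b21 b23 b30 b31 b32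
  generalize p 1 2 0 = x120 at r00 r11 r22 r33 r01 r02 r03 r12 r13 r23 t001 t011 t002 t022 t003 t033 t112 t122 t113 t133 t223 t233 t012 t021 t013 t031 t023 t032 t123 t132 b01 b02 b03 b10 b12 b13 b20 b21 b23 b30 b31 b32
  generalize p 1 2 1 = x121 at r00 r11 r22 r33 r01 r02 r03 r12 r13 r23 t001 t011 t002 t022 t003 t033 t112 t122 t113 t133 t223 t233 t012 t021 t013 t031 t023 t032 t123 t132 b01 b02 b03 b10 b12 b13 b20 b21 b23 b30 b31 b32
  generalize p 1 2 2 = x122 at r00 r11 r22 r33 r01 r02 r03 r12 r13 r23 t001 t011 t002 t022 t003 t033 t112 t122 t113 t133 t223 t233 t012 t021 t013 t031 t023 t032 t123 t132 b01 b02 b03 b10 b12 b13 b20 b21 b23 b30 b31 b32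
  generalize p 1 2 3 = x123 at r00 r11 r22 r33 r01 r02 r03 r12 r13 r23 t001 t011 t002 t022 t003 t033 t112 t122 t113 t133 t223 t233 t012 t021 t013 t031 t023 t032 t123 t132 b01 b02 b03 b10 b12 b13 b20 b21 b23 b30 b31 b32
  generalize p 1 3 0 = x130 at r00 r11 r22 r33 r01 r02 r03 r12 r13 r23 t001 t011 t002 t022 t003 t033 t112 t122 t113 t133 t223 t233 t012 t021 t013 t031 t023 t032 t123 t132 b01 b02 b03 b10 b12 b13 b20 b21 b23 b30 b31 b32
  generalize p 1 3 1 = x131 at r00 r11 r22 r33 r01 r02 r03 r12 r13 r23 t001 t011 t002 t022 t003 t033 t112 t122 t113 t133 t223 t233 t012 t021 t013 t031 t023 t032 t123 t132 b01 b02 b03 b10 b12 b13 b20 b21 b23 b30 b31 b32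
  generalize p 1 3 2 = x132 at r00 r11 r22 r33 r01 r02 r03 r12 r13 r23 t001 t011 t002 t022 t003 t033 t112 t122 t113 t133 t223 t233 t012 t021 t013 t031 t023 t032 t123 t132 b01 b02 b03 b10 b12 b13 b20 b21 b23 b30 b31 b32
  generalize p 1 3 3 = x133 at r00 r11 r22 r33 r01 r02 r03 r12 r13 r23 t001 t011 t002 t022 t003 t033 t112 t122 t113 t133 t223 t233 t012 t021 t013 t031 t023 t032 t123 t132 b01 b02 b03 b10 b12 b13 b20 b21 b23 b30 b31 b32
  generalize p 2 2 0 = x220 at r00 r11 r22 r33 r01 r02 r03 r12 r13 r23 t001 t011 t002 t022 t003 t033 t112 t122 t113 t133 t223 t233 t012 t021 t013 t031 t023 t032 t123 t132 b01 b02 b03 b10 b12 b13 b20 b21 b23 b30 b31 b32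
  generalize p 2 2 1 = x221 at r00 r11 r22 r33 r01 r02 r03 r12 r13 r23 t001 t011 t002 t022 t003 t033 t112 t122 t113 t133 t223 t233 t012 t021 t013 t031 t023 t032 t123 t132 b01 b02 b03 b10 b12 b13 b20 b21 b23 b30 b31 b32
  generalize p 2 2 3 = x223 at r00 r11 r22 r33 r01 r02 r03 r12 r13 r23 t001 t011 t002 t022 t003 t033 t112 t122 t113 t133 t223 t233 t012 t021 t013 t031 t023 t032 t123 t132 b01 b02 b03 b10 b12 b13 b20 b21 b23 b30 b31 b32
  generalize p 2 3 0 = x230 at r00 r11 r22 r33 r01 r02 r03 r12 r13 r23 t001 t011 t002 t022 t003 t033 t112 t122 t113 t133 t223 t233 t012 t021 t013 t031 t023 t032 t123 t132 b01 b02 b03 b10 b12 b13 b20 b21 b23 b30 b31 b32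
  generalize p 2 3 1 = x231 at r00 r11 r22 r33 r01 r02 r03 r12 r13 r23 t001 t011 t002 t022 t003 t033 t112 t122 t113 t133 t223 t233 t012 t021 t013 t031 t023 t032 t123 t132 b01 b02 b03 b10 b12 b13 b20 b21 b23 b30 b31 b32
  generalize p 2 3 2 = x232 at r00 r11 r22 r33 r01 r02 r03 r12 r13 r23 t001 t011 t002 t022 t003 t033 t112 t122 t113 t133 t223 t233 t012 t021 t013 t031 t023 t032 t123 t132 b01 b02 b03 b10 b12 b13 b20 b21 b23 b30 b31 b32
  generalize p 2 3 3 = x233 at r00 r11 r22 r33 r01 r02 r03 r12 r13 r23 t001 t011 t002 t022 t003 t033 t112 t122 t113 t133 t223 t233 t012 t021 t013 t031 t023 t032 t123 t132 b01 b02 b03 b10 b12 b13 b20 b21 b23 b30 b31 b32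
  generalize p 3 3 0 = x330 at r00 r11 r22 r33 r01 r02 r03 r12 r13 r23 t001 t011 t002 t022 t003 t033 t112 t122 t113 t133 t223 t233 t012 t021 t013 t031 t023 t032 t123 t132 b01 b02 b03 b10 b12 b13 b20 b21 b23 b30 b31 b32
  generalize p 3 3 1 = x331 at r00 r11 r22 r33 r01 r02 r03 r12 r13 r23 t001 t011 t002 t022 t003 t033 t112 t122 t113 t133 t223 t233 t012 t021 t013 t031 t023 t032 t123 t132 b01 b02 b03 b10 b12 b13 b20 b21 b23 b30 b31 b32
  generalize p 3 3 2 = x332 at r00 r11 r22 r33 r01 r02 r03 r12 r13 r23 t001 t011 t002 t022 t003 t033 t112 t122 t113 t133 t223 t233 t012 t021 t013 t031 t023 t032 t123 t132 b01 b02 b03 b10 b12 b13 b20 b21 b23 b30 b31 b32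
  clear h
  have a1 : x010 = 5 := by clear * - r00 b01 b02 b03; omega
  have a2 : x020 = 5 := by clear * - r00 b01 b02 b03; omega
  have a3 : x030 = 5 := by clear * - r00 b01 b02 b03; omega
  have c1 : x011 = 5 := by clear * - r11 b10 b12 b13; omega
  have c2 : x121 = 5 := by clear * - r11 b10 b12 b13; omega
  have c3 : x131 = 5 := by clear * - r11 b10 b12 b13; omega
  have d1 : x021 + x031 = 6 := by clear * - r01 t001 a1 c1; omega
  have d2 : x012 = 2 * x021 := by clear * - t012 t021; omega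
  have d3 : x013 = 2 * x031 := by clear * - t013 t031; omega
  have f1 : x022 = 0 := by clear * - r02 r03 t002 t003 a2 a3 d1 d2 d3; omega
  have f2 : x122 = 0 := by clear * - r12 r13 t112 t113 c2 c3 d1 d2 d3; omega
  clear * - r22 f1 f2 b23
  omega

theorem kill_16_10_10_10 {p : Fin 4 → Fin 4 → Fin 4 → ℕ} {K : Fin 4 → ℕ} (h : Facts p K)
    (k0 : K 0 = 16) (k1 : K 1 = 10) (k2 : K 2 = 10) (k3 : K 3 = 10) : False := by
  have r00 := h.row 0 0
  rw [Fin.sum_univ_four, if_pos rfl, k0] at r00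
  have r11 := h.row 1 1
  rw [Fin.sum_univ_four, if_pos rfl, k1] at r11
  have r22 := h.row 2 2
  rw [Fin.sum_univ_four, if_pos rfl, k2] at r22
  have r33 := h.row 3 3
  rw [Fin.sum_univ_four, if_pos rfl, k3] at r33
  have r01 := h.row 0 1
  rw [Fin.sum_univ_four, if_neg (by decide), k0] at r01
  have r02 := h.row 0 2
  rw [Fin.sum_univ_four, if_neg (by decide), k0] at r02
  have r03 := h.row 0 3
  rw [Fin.sum_univ_four, if_neg (by decide), k0] at r03
  have r12 := h.row 1 2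
  rw [Fin.sum_univ_four, if_neg (by decide), k1] at r12
  have r13 := h.row 1 3
  rw [Fin.sum_univ_four, if_neg (by decide), k1] at r13
  have r23 := h.row 2 3
  rw [Fin.sum_univ_four, if_neg (by decide), k2] at r23
  have t001 := h.tri 0 0 1
  rw [k0, k1] at t001
  have t011 := h.tri 0 1 1
  rw [k0, k1] at t011
  have t002 := h.tri 0 0 2
  rw [k0, k2] at t002
  have t022 := h.tri 0 2 2
  rw [k0, k2] at t022
  have t003 := h.tri 0 0 3
  rw [k0, k3] at t003
  have t033 := h.tri 0 3 3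
  rw [k0, k3] at t033
  have t112 := h.tri 1 1 2
  rw [k1, k2] at t112
  have t122 := h.tri 1 2 2
  rw [k1, k2] at t122
  have t113 := h.tri 1 1 3
  rw [k1, k3] at t113
  have t133 := h.tri 1 3 3
  rw [k1, k3] at t133
  have t223 := h.tri 2 2 3
  rw [k2, k3] at t223
  have t233 := h.tri 2 3 3
  rw [k2, k3] at t233
  have t012 := h.tri 0 1 2
  rw [k0, k2] at t012
  have t021 := h.tri 0 2 1
  rw [k0, k1] at t021
  have t013 := h.tri 0 1 3
  rw [k0, k3] at t013
  have t031 := h.tri 0 3 1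
  rw [k0, k1] at t031
  have t023 := h.tri 0 2 3
  rw [k0, k3] at t023
  have t032 := h.tri 0 3 2
  rw [k0, k2] at t032
  have t123 := h.tri 1 2 3
  rw [k1, k3] at t123
  have t132 := h.tri 1 3 2
  rw [k1, k2] at t132
  have b01 := h.bd 0 1 0 (by decide)
  have b02 := h.bd 0 2 0 (by decide)
  have b03 := h.bd 0 3 0 (by decide)
  have b10 := h.bd 1 0 1 (by decide)
  have b12 := h.bd 1 2 1 (by decide)
  have b13 := h.bd 1 3 1 (by decide)
  have b20 := h.bd 2 0 2 (by decide)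
  have b21 := h.bd 2 1 2 (by decide)
  have b23 := h.bd 2 3 2 (by decide)
  have b30 := h.bd 3 0 3 (by decide)
  have b31 := h.bd 3 1 3 (by decide)
  have b32 := h.bd 3 2 3 (by decide)
  simp only [h.zero, h.sym 1 0 0, h.sym 1 0 1, h.sym 1 0 2, h.sym 1 0 3, h.sym 2 0 0, h.sym 2 0 2, h.sym 2 0 3, h.sym 2 1 0, h.sym 2 1 1, h.sym 2 1 2, h.sym 2 1 3, h.sym 3 0 0, h.sym 3 0 3, h.sym 3 1 0, h.sym 3 1 1, h.sym 3 1 3, h.sym 3 2 0, h.sym 3 2 1, h.sym 3 2 2, h.sym 3 2 3] at r00 r11 r22 r33 r01 r02 r03 r12 r13 r23 t001 t011 t002 t022 t003 t033 t112 t122 t113 t133 t223 t233 t012 t021 t013 t031 t023 t032 t123 t132 b01 b02 b03 b10 b12 b13 b20 b21 b23 b30 b31 b32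
  generalize p 0 0 1 = x001 at r00 r11 r22 r33 r01 r02 r03 r12 r13 r23 t001 t011 t002 t022 t003 t033 t112 t122 t113 t133 t223 t233 t012 t021 t013 t031 t023 t032 t123 t132 b01 b02 b03 b10 b12 b13 b20 b21 b23 b30 b31 b32
  generalize p 0 0 2 = x002 at r00 r11 r22 r33 r01 r02 r03 r12 r13 r23 t001 t011 t002 t022 t003 t033 t112 t122 t113 t133 t223 t233 t012 t021 t013 t031 t023 t032 t123 t132 b01 b02 b03 b10 b12 b13 b20 b21 b23 b30 b31 b32
  generalize p 0 0 3 = x003 at r00 r11 r22 r33 r01 r02 r03 r12 r13 r23 t001 t011 t002 t022 t003 t033 t112 t122 t113 t133 t223 t233 t012 t021 t013 t031 t023 t032 t123 t132 b01 b02 b03 b10 b12 b13 b20 b21 b23 b30 b31 b32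
  generalize p 0 1 0 = x010 at r00 r11 r22 r33 r01 r02 r03 r12 r13 r23 t001 t011 t002 t022 t003 t033 t112 t122 t113 t133 t223 t233 t012 t021 t013 t031 t023 t032 t123 t132 b01 b02 b03 b10 b12 b13 b20 b21 b23 b30 b31 b32
  generalize p 0 1 1 = x011 at r00 r11 r22 r33 r01 r02 r03 r12 r13 r23 t001 t011 t002 t022 t003 t033 t112 t122 t113 t133 t223 t233 t012 t021 t013 t031 t023 t032 t123 t132 b01 b02 b03 b10 b12 b13 b20 b21 b23 b30 b31 b32
  generalize p 0 1 2 = x012 at r00 r11 r22 r33 r01 r02 r03 r12 r13 r23 t001 t011 t002 t022 t003 t033 t112 t122 t113 t133 t223 t233 t012 t021 t013 t031 t023 t032 t123 t132 b01 b02 b03 b10 b12 b13 b20 b21 b23 b30 b31 b32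
  generalize p 0 1 3 = x013 at r00 r11 r22 r33 r01 r02 r03 r12 r13 r23 t001 t011 t002 t022 t003 t033 t112 t122 t113 t133 t223 t233 t012 t021 t013 t031 t023 t032 t123 t132 b01 b02 b03 b10 b12 b13 b20 b21 b23 b30 b31 b32
  generalize p 0 2 0 = x020 at r00 r11 r22 r33 r01 r02 r03 r12 r13 r23 t001 t011 t002 t022 t003 t033 t112 t122 t113 t133 t223 t233 t012 t021 t013 t031 t023 t032 t123 t132 b01 b02 b03 b10 b12 b13 b20 b21 b23 b30 b31 b32
  generalize p 0 2 1 = x021 at r00 r11 r22 r33 r01 r02 r03 r12 r13 r23 t001 t011 t002 t022 t003 t033 t112 t122 t113 t133 t223 t233 t012 t021 t013 t031 t023 t032 t123 t132 b01 b02 b03 b10 b12 b13 b20 b21 b23 b30 b31 b32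
  generalize p 0 2 2 = x022 at r00 r11 r22 r33 r01 r02 r03 r12 r13 r23 t001 t011 t002 t022 t003 t033 t112 t122 t113 t133 t223 t233 t012 t021 t013 t031 t023 t032 t123 t132 b01 b02 b03 b10 b12 b13 b20 b21 b23 b30 b31 b32
  generalize p 0 2 3 = x023 at r00 r11 r22 r33 r01 r02 r03 r12 r13 r23 t001 t011 t002 t022 t003 t033 t112 t122 t113 t133 t223 t233 t012 t021 t013 t031 t023 t032 t123 t132 b01 b02 b03 b10 b12 b13 b20 b21 b23 b30 b31 b32
  generalize p 0 3 0 = x030 at r00 r11 r22 r33 r01 r02 r03 r12 r13 r23 t001 t011 t002 t022 t003 t033 t112 t122 t113 t133 t223 t233 t012 t021 t013 t031 t023 t032 t123 t132 b01 b02 b03 b10 b12 b13 b20 b21 b23 b30 b31 b32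
  generalize p 0 3 1 = x031 at r00 r11 r22 r33 r01 r02 r03 r12 r13 r23 t001 t011 t002 t022 t003 t033 t112 t122 t113 t133 t223 t233 t012 t021 t013 t031 t023 t032 t123 t132 b01 b02 b03 b10 b12 b13 b20 b21 b23 b30 b31 b32
  generalize p 0 3 2 = x032 at r00 r11 r22 r33 r01 r02 r03 r12 r13 r23 t001 t011 t002 t022 t003 t033 t112 t122 t113 t133 t223 t233 t012 t021 t013 t031 t023 t032 t123 t132 b01 b02 b03 b10 b12 b13 b20 b21 b23 b30 b31 b32
  generalize p 0 3 3 = x033 at r00 r11 r22 r33 r01 r02 r03 r12 r13 r23 t001 t011 t002 t022 t003 t033 t112 t122 t113 t133 t223 t233 t012 t021 t013 t031 t023 t032 t123 t132 b01 b02 b03 b10 b12 b13 b20 b21 b23 b30 b31 b32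
  generalize p 1 1 0 = x110 at r00 r11 r22 r33 r01 r02 r03 r12 r13 r23 t001 t011 t002 t022 t003 t033 t112 t122 t113 t133 t223 t233 t012 t021 t013 t031 t023 t032 t123 t132 b01 b02 b03 b10 b12 b13 b20 b21 b23 b30 b31 b32
  generalize p 1 1 2 = x112 at r00 r11 r22 r33 r01 r02 r03 r12 r13 r23 t001 t011 t002 t022 t003 t033 t112 t122 t113 t133 t223 t233 t012 t021 t013 t031 t023 t032 t123 t132 b01 b02 b03 b10 b12 b13 b20 b21 b23 b30 b31 b32
  generalize p 1 1 3 = x113 at r00 r11 r22 r33 r01 r02 r03 r12 r13 r23 t001 t011 t002 t022 t003 t033 t112 t122 t113 t133 t223 t233 t012 t021 t013 t031 t023 t032 t123 t132 b01 b02 b03 b10 b12 b13 b20 b21 b23 b30 b31 b32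
  generalize p 1 2 0 = x120 at r00 r11 r22 r33 r01 r02 r03 r12 r13 r23 t001 t011 t002 t022 t003 t033 t112 t122 t113 t133 t223 t233 t012 t021 t013 t031 t023 t032 t123 t132 b01 b02 b03 b10 b12 b13 b20 b21 b23 b30 b31 b32
  generalize p 1 2 1 = x121 at r00 r11 r22 r33 r01 r02 r03 r12 r13 r23 t001 t011 t002 t022 t003 t033 t112 t122 t113 t133 t223 t233 t012 t021 t013 t031 t023 t032 t123 t132 b01 b02 b03 b10 b12 b13 b20 b21 b23 b30 b31 b32
  generalize p 1 2 2 = x122 at r00 r11 r22 r33 r01 r02 r03 r12 r13 r23 t001 t011 t002 t022 t003 t033 t112 t122 t113 t133 t223 t233 t012 t021 t013 t031 t023 t032 t123 t132 b01 b02 b03 b10 b12 b13 b20 b21 b23 b30 b31 b32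
  generalize p 1 2 3 = x123 at r00 r11 r22 r33 r01 r02 r03 r12 r13 r23 t001 t011 t002 t022 t003 t033 t112 t122 t113 t133 t223 t233 t012 t021 t013 t031 t023 t032 t123 t132 b01 b02 b03 b10 b12 b13 b20 b21 b23 b30 b31 b32
  generalize p 1 3 0 = x130 at r00 r11 r22 r33 r01 r02 r03 r12 r13 r23 t001 t011 t002 t022 t003 t033 t112 t122 t113 t133 t223 t233 t012 t021 t013 t031 t023 t032 t123 t132 b01 b02 b03 b10 b12 b13 b20 b21 b23 b30 b31 b32
  generalize p 1 3 1 = x131 at r00 r11 r22 r33 r01 r02 r03 r12 r13 r23 t001 t011 t002 t022 t003 t033 t112 t122 t113 t133 t223 t233 t012 t021 t013 t031 t023 t032 t123 t132 b01 b02 b03 b10 b12 b13 b20 b21 b23 b30 b31 b32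
  generalize p 1 3 2 = x132 at r00 r11 r22 r33 r01 r02 r03 r12 r13 r23 t001 t011 t002 t022 t003 t033 t112 t122 t113 t133 t223 t233 t012 t021 t013 t031 t023 t032 t123 t132 b01 b02 b03 b10 b12 b13 b20 b21 b23 b30 b31 b32
  generalize p 1 3 3 = x133 at r00 r11 r22 r33 r01 r02 r03 r12 r13 r23 t001 t011 t002 t022 t003 t033 t112 t122 t113 t133 t223 t233 t012 t021 t013 t031 t023 t032 t123 t132 b01 b02 b03 b10 b12 b13 b20 b21 b23 b30 b31 b32
  generalize p 2 2 0 = x220 at r00 r11 r22 r33 r01 r02 r03 r12 r13 r23 t001 t011 t002 t022 t003 t033 t112 t122 t113 t133 t223 t233 t012 t021 t013 t031 t023 t032 t123 t132 b01 b02 b03 b10 b12 b13 b20 b21 b23 b30 b31 b32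
  generalize p 2 2 1 = x221 at r00 r11 r22 r33 r01 r02 r03 r12 r13 r23 t001 t011 t002 t022 t003 t033 t112 t122 t113 t133 t223 t233 t012 t021 t013 t031 t023 t032 t123 t132 b01 b02 b03 b10 b12 b13 b20 b21 b23 b30 b31 b32
  generalize p 2 2 3 = x223 at r00 r11 r22 r33 r01 r02 r03 r12 r13 r23 t001 t011 t002 t022 t003 t033 t112 t122 t113 t133 t223 t233 t012 t021 t013 t031 t023 t032 t123 t132 b01 b02 b03 b10 b12 b13 b20 b21 b23 b30 b31 b32
  generalize p 2 3 0 = x230 at r00 r11 r22 r33 r01 r02 r03 r12 r13 r23 t001 t011 t002 t022 t003 t033 t112 t122 t113 t133 t223 t233 t012 t021 t013 t031 t023 t032 t123 t132 b01 b02 b03 b10 b12 b13 b20 b21 b23 b30 b31 b32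
  generalize p 2 3 1 = x231 at r00 r11 r22 r33 r01 r02 r03 r12 r13 r23 t001 t011 t002 t022 t003 t033 t112 t122 t113 t133 t223 t233 t012 t021 t013 t031 t023 t032 t123 t132 b01 b02 b03 b10 b12 b13 b20 b21 b23 b30 b31 b32
  generalize p 2 3 2 = x232 at r00 r11 r22 r33 r01 r02 r03 r12 r13 r23 t001 t011 t002 t022 t003 t033 t112 t122 t113 t133 t223 t233 t012 t021 t013 t031 t023 t032 t123 t132 b01 b02 b03 b10 b12 b13 b20 b21 b23 b30 b31 b32
  generalize p 2 3 3 = x233 at r00 r11 r22 r33 r01 r02 r03 r12 r13 r23 t001 t011 t002 t022 t003 t033 t112 t122 t113 t133 t223 t233 t012 t021 t013 t031 t023 t032 t123 t132 b01 b02 b03 b10 b12 b13 b20 b21 b23 b30 b31 b32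
  generalize p 3 3 0 = x330 at r00 r11 r22 r33 r01 r02 r03 r12 r13 r23 t001 t011 t002 t022 t003 t033 t112 t122 t113 t133 t223 t233 t012 t021 t013 t031 t023 t032 t123 t132 b01 b02 b03 b10 b12 b13 b20 b21 b23 b30 b31 b32
  generalize p 3 3 1 = x331 at r00 r11 r22 r33 r01 r02 r03 r12 r13 r23 t001 t011 t002 t022 t003 t033 t112 t122 t113 t133 t223 t233 t012 t021 t013 t031 t023 t032 t123 t132 b01 b02 b03 b10 b12 b13 b20 b21 b23 b30 b31 b32
  generalize p 3 3 2 = x332 at r00 r11 r22 r33 r01 r02 r03 r12 r13 r23 t001 t011 t002 t022 t003 t033 t112 t122 t113 t133 t223 t233 t012 t021 t013 t031 t023 t032 t123 t132 b01 b02 b03 b10 b12 b13 b20 b21 b23 b30 b31 b32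
  clear h
  have a1 : x010 = 5 := by clear * - r00 b01 b02 b03; omega
  have a2 : x020 = 5 := by clear * - r00 b01 b02 b03; omega
  have a3 : x030 = 5 := by clear * - r00 b01 b02 b03; omega
  have c1 : x011 = 0 := by clear * - t011 b10; omega
  have c2 : x022 = 0 := by clear * - t022 b20; omega
  have c3 : x033 = 0 := by clear * - t033 b30; omega
  have d1 : x021 + x031 = 8 := by clear * - r01 t001 a1 c1; omega
  have d2 : x012 + x032 = 8 := by clear * - r02 t002 a2 c2; omega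
  have d3 : x013 + x023 = 8 := by clear * - r03 t003 a3 c3; omega
  have f1 : x012 = x021 := by clear * - t012 t021; omega
  have f2 : x013 = x031 := by clear * - t013 t031; omega
  have f3 : x023 = x032 := by clear * - t023 t032; omega
  clear * - d1 d2 d3 f1 f2 f3 t012
  omega

end Pool.Agent.R4S
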