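import Pool.Agent.R4S.KillD

/-!
# Valencies excluded by the identities (KillE)
-/

namespace Pool.Agent.R4S

open Finset

theorem core7 {m n k a s t w v : ℕ} (h1 : m + n + k = 3) (h2 : n ≤ m) (h3 : k ≤ m)
    (hm : m ≤ 2) (ha : a ≤ 5) (hs : s ≤ 5) (ht : t ≤ 5) (hr : a + s + t = 13)
    (hw : m + a + w + v = 7)
    (hid : 7 + (n * s + k * t) = a * a + w * w + v * v + 2 * m * m) : False := by
  have hk : k = 3 - m - n := by omega
  have hv : v = 7 - m - a - w := by omega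
  have hw' : w ≤ 4 := by omega
  have ha' : 3 ≤ a := by omega
  subst hk hv
  have hm1 : 1 ≤ m := by omega
  interval_cases m <;> interval_cases n <;> interval_cases a <;> interval_cases w <;> omega

theorem core9 {n k s t w v : ℕ} (h1 : n + k = 3) (h2 : n = 0 ∨ n = 3) (hs : s ≤ 5) (ht : t ≤ 5)
    (hw : w + v = 3) (hid : 9 + (n * s + k * t) = 9 + w * w + v * v + 12) : False := by
  have hk : k = 3 - n := by omega
  have hv : v = 3 - w := by omega
  have hw' : w ≤ 3 := by omega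
  subst hk hv
  rcases h2 with rfl | rfl <;> interval_cases w <;> omega

theorem kill_14_14_14_7 {p : Fin 4 → Fin 4 → Fin 4 → ℕ} {K : Fin 4 → ℕ} (h : Facts p K)
    (k0 : K 0 = 14) (k1 : K 1 = 14) (k2 : K 2 = 14) (k3 : K 3 = 7) : False := by
  have r00 := h.row 0 0
  rw [Fin.sum_univ_four, if_pos rfl, k0] at r00
  have r11 := h.row 1 1
  rw [Fin.sum_univ_four, if_pos rfl, k1] at r11
  have r22 := h.row 2 2
  rw [Fin.sum_univ_four, if_pos rfl, k2] at r22
  have r33 := h.row 3 3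
  rw [Fin.sum_univ_four, if_pos rfl, k3] at r33
  have r30 := h.row 3 0
  rw [Fin.sum_univ_four, if_neg (by decide), k3] at r30
  have r31 := h.row 3 1
  rw [Fin.sum_univ_four, if_neg (by decide), k3] at r31
  have r32 := h.row 3 2
  rw [Fin.sum_univ_four, if_neg (by decide), k3] at r32
  have t330 := h.tri 3 3 0
  rw [k3, k0] at t330
  have t331 := h.tri 3 3 1
  rw [k3, k1] at t331
  have t332 := h.tri 3 3 2
  rw [k3, k2] at t332
  have t310 := h.tri 3 1 0
  rw [k3, k0] at t310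
  have t301 := h.tri 3 0 1
  rw [k3, k1] at t301
  have t320 := h.tri 3 2 0
  rw [k3, k0] at t320
  have t302 := h.tri 3 0 2
  rw [k3, k2] at t302
  have t321 := h.tri 3 2 1
  rw [k3, k1] at t321
  have t312 := h.tri 3 1 2
  rw [k3, k2] at t312
  have ha0 := h.assoc 3 0 (by decide)
  rw [Fin.sum_univ_four, Fin.sum_univ_four, k3] at ha0
  have ha1 := h.assoc 3 1 (by decide)
  rw [Fin.sum_univ_four, Fin.sum_univ_four, k3] at ha1
  have ha2 := h.assoc 3 2 (by decide)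
  rw [Fin.sum_univ_four, Fin.sum_univ_four, k3] at ha2
  have b01 := h.bd 0 1 0 (by decide)
  have b02 := h.bd 0 2 0 (by decide)
  have b03 := h.bd 0 3 0 (by decide)
  have b10 := h.bd 1 0 1 (by decide)
  have b12 := h.bd 1 2 1 (by decide)
  have b13 := h.bd 1 3 1 (by decide)
  have b20 := h.bd 2 0 2 (by decide)
  have b21 := h.bd 2 1 2 (by decide)
  have b23 := h.bd 2 3 2 (by decide)
  have b30 := h.bd 3 0 3 (by decide)
  have b31 := h.bd 3 1 3 (by decide)
  have b32 := h.bd 3 2 3 (by decide)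
  simp only [h.zero, h.sym 1 0 0, h.sym 1 0 1, h.sym 1 0 3, h.sym 2 0 0, h.sym 2 0 2, h.sym 2 0 3, h.sym 2 1 1, h.sym 2 1 2, h.sym 2 1 3, h.sym 3 0 0, h.sym 3 0 1, h.sym 3 0 2, h.sym 3 0 3, h.sym 3 1 0, h.sym 3 1 1, h.sym 3 1 2, h.sym 3 1 3, h.sym 3 2 0, h.sym 3 2 1, h.sym 3 2 2, h.sym 3 2 3, zero_mul, mul_zero, add_zero, zero_add] at r00 r11 r22 r33 r30 r31 r32 t330 t331 t332 t310 t301 t320 t302 t321 t312 ha0 ha1 ha2 b01 b02 b03 b10 b12 b13 b20 b21 b23 b30 b31 b32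
  generalize p 0 1 0 = x010 at r00 r11 r22 r33 r30 r31 r32 t330 t331 t332 t310 t301 t320 t302 t321 t312 ha0 ha1 ha2 b01 b02 b03 b10 b12 b13 b20 b21 b23 b30 b31 b32
  generalize p 0 1 1 = x011 at r00 r11 r22 r33 r30 r31 r32 t330 t331 t332 t310 t301 t320 t302 t321 t312 ha0 ha1 ha2 b01 b02 b03 b10 b12 b13 b20 b21 b23 b30 b31 b32
  generalize p 0 1 3 = x013 at r00 r11 r22 r33 r30 r31 r32 t330 t331 t332 t310 t301 t320 t302 t321 t312 ha0 ha1 ha2 b01 b02 b03 b10 b12 b13 b20 b21 b23 b30 b31 b32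
  generalize p 0 2 0 = x020 at r00 r11 r22 r33 r30 r31 r32 t330 t331 t332 t310 t301 t320 t302 t321 t312 ha0 ha1 ha2 b01 b02 b03 b10 b12 b13 b20 b21 b23 b30 b31 b32
  generalize p 0 2 2 = x022 at r00 r11 r22 r33 r30 r31 r32 t330 t331 t332 t310 t301 t320 t302 t321 t312 ha0 ha1 ha2 b01 b02 b03 b10 b12 b13 b20 b21 b23 b30 b31 b32
  generalize p 0 2 3 = x023 at r00 r11 r22 r33 r30 r31 r32 t330 t331 t332 t310 t301 t320 t302 t321 t312 ha0 ha1 ha2 b01 b02 b03 b10 b12 b13 b20 b21 b23 b30 b31 b32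
  generalize p 0 3 0 = x030 at r00 r11 r22 r33 r30 r31 r32 t330 t331 t332 t310 t301 t320 t302 t321 t312 ha0 ha1 ha2 b01 b02 b03 b10 b12 b13 b20 b21 b23 b30 b31 b32
  generalize p 0 3 1 = x031 at r00 r11 r22 r33 r30 r31 r32 t330 t331 t332 t310 t301 t320 t302 t321 t312 ha0 ha1 ha2 b01 b02 b03 b10 b12 b13 b20 b21 b23 b30 b31 b32
  generalize p 0 3 2 = x032 at r00 r11 r22 r33 r30 r31 r32 t330 t331 t332 t310 t301 t320 t302 t321 t312 ha0 ha1 ha2 b01 b02 b03 b10 b12 b13 b20 b21 b23 b30 b31 b32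
  generalize p 0 3 3 = x033 at r00 r11 r22 r33 r30 r31 r32 t330 t331 t332 t310 t301 t320 t302 t321 t312 ha0 ha1 ha2 b01 b02 b03 b10 b12 b13 b20 b21 b23 b30 b31 b32
  generalize p 1 2 1 = x121 at r00 r11 r22 r33 r30 r31 r32 t330 t331 t332 t310 t301 t320 t302 t321 t312 ha0 ha1 ha2 b01 b02 b03 b10 b12 b13 b20 b21 b23 b30 b31 b32
  generalize p 1 2 2 = x122 at r00 r11 r22 r33 r30 r31 r32 t330 t331 t332 t310 t301 t320 t302 t321 t312 ha0 ha1 ha2 b01 b02 b03 b10 b12 b13 b20 b21 b23 b30 b31 b32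
  generalize p 1 2 3 = x123 at r00 r11 r22 r33 r30 r31 r32 t330 t331 t332 t310 t301 t320 t302 t321 t312 ha0 ha1 ha2 b01 b02 b03 b10 b12 b13 b20 b21 b23 b30 b31 b32
  generalize p 1 3 0 = x130 at r00 r11 r22 r33 r30 r31 r32 t330 t331 t332 t310 t301 t320 t302 t321 t312 ha0 ha1 ha2 b01 b02 b03 b10 b12 b13 b20 b21 b23 b30 b31 b32
  generalize p 1 3 1 = x131 at r00 r11 r22 r33 r30 r31 r32 t330 t331 t332 t310 t301 t320 t302 t321 t312 ha0 ha1 ha2 b01 b02 b03 b10 b12 b13 b20 b21 b23 b30 b31 b32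
  generalize p 1 3 2 = x132 at r00 r11 r22 r33 r30 r31 r32 t330 t331 t332 t310 t301 t320 t302 t321 t312 ha0 ha1 ha2 b01 b02 b03 b10 b12 b13 b20 b21 b23 b30 b31 b32
  generalize p 1 3 3 = x133 at r00 r11 r22 r33 r30 r31 r32 t330 t331 t332 t310 t301 t320 t302 t321 t312 ha0 ha1 ha2 b01 b02 b03 b10 b12 b13 b20 b21 b23 b30 b31 b32
  generalize p 2 3 0 = x230 at r00 r11 r22 r33 r30 r31 r32 t330 t331 t332 t310 t301 t320 t302 t321 t312 ha0 ha1 ha2 b01 b02 b03 b10 b12 b13 b20 b21 b23 b30 b31 b32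
  generalize p 2 3 1 = x231 at r00 r11 r22 r33 r30 r31 r32 t330 t331 t332 t310 t301 t320 t302 t321 t312 ha0 ha1 ha2 b01 b02 b03 b10 b12 b13 b20 b21 b23 b30 b31 b32
  generalize p 2 3 2 = x232 at r00 r11 r22 r33 r30 r31 r32 t330 t331 t332 t310 t301 t320 t302 t321 t312 ha0 ha1 ha2 b01 b02 b03 b10 b12 b13 b20 b21 b23 b30 b31 b32
  generalize p 2 3 3 = x233 at r00 r11 r22 r33 r30 r31 r32 t330 t331 t332 t310 t301 t320 t302 t321 t312 ha0 ha1 ha2 b01 b02 b03 b10 b12 b13 b20 b21 b23 b30 b31 b32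
  generalize p 3 3 0 = x330 at r00 r11 r22 r33 r30 r31 r32 t330 t331 t332 t310 t301 t320 t302 t321 t312 ha0 ha1 ha2 b01 b02 b03 b10 b12 b13 b20 b21 b23 b30 b31 b32
  generalize p 3 3 1 = x331 at r00 r11 r22 r33 r30 r31 r32 t330 t331 t332 t310 t301 t320 t302 t321 t312 ha0 ha1 ha2 b01 b02 b03 b10 b12 b13 b20 b21 b23 b30 b31 b32
  generalize p 3 3 2 = x332 at r00 r11 r22 r33 r30 r31 r32 t330 t331 t332 t310 t301 t320 t302 t321 t312 ha0 ha1 ha2 b01 b02 b03 b10 b12 b13 b20 b21 b23 b30 b31 b32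
  clear h
  have w01 : x031 = x130 := by omega
  have w02 : x032 = x230 := by omega
  have w12 : x132 = x231 := by omega
  rw [w01] at ha0 ha1
  rw [w02] at ha0 ha2
  rw [w12] at ha1 ha2
  have e0 : x033 = 2 * x330 := by clear * - t330; omega
  have e1 : x133 = 2 * x331 := by clear * - t331; omega
  have e2 : x233 = 2 * x332 := by clear * - t332; omega
  have hs : x330 + x331 + x332 = 3 := by clear * - e0 e1 e2 r33; omega
  rcases (by omega : (x331 ≤ x330 ∧ x332 ≤ x330) ∨ (x330 ≤ x331 ∧ x332 ≤ x331) ∨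
    (x330 ≤ x332 ∧ x331 ≤ x332)) with hm | hm | hm
  · refine core7 (m := x330) (n := x331) (k := x332) (a := x030) (s := x010) (t := x020)
      (w := x130) (v := x230) ?_ hm.1 hm.2 ?_ b03 b01 b02 ?_ ?_ ?_
    · exact hs
    · clear * - b30 e0; omega
    · clear * - r00; omega
    · clear * - r30; omega
    · rw [ha0, e0]
  · refine core7 (m := x331) (n := x330) (k := x332) (a := x131) (s := x011) (t := x121)
      (w := x130) (v := x231) ?_ hm.1 hm.2 ?_ b13 b10 b12 ?_ ?_ ?_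
    · clear * - hs; omega
    · clear * - b31 e1; omega
    · clear * - r11; omega
    · clear * - r31 w01; omega
    · rw [ha1, e1]; ring
  · refine core7 (m := x332) (n := x330) (k := x331) (a := x232) (s := x022) (t := x122)
      (w := x230) (v := x231) ?_ hm.1 hm.2 ?_ b23 b20 b21 ?_ ?_ ?_
    · clear * - hs; omega
    · clear * - b32 e2; omega
    · clear * - r22; omega
    · clear * - r32 w02 w12; omega
    · rw [ha2, e2]; ring

theorem kill_12_12_12_9 {p : Fin 4 → Fin 4 → Fin 4 → ℕ} {K : Fin 4 → ℕ} (h : Facts p K)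
    (k0 : K 0 = 12) (k1 : K 1 = 12) (k2 : K 2 = 12) (k3 : K 3 = 9) : False := by
  have r00 := h.row 0 0
  rw [Fin.sum_univ_four, if_pos rfl, k0] at r00
  have r11 := h.row 1 1
  rw [Fin.sum_univ_four, if_pos rfl, k1] at r11
  have r22 := h.row 2 2
  rw [Fin.sum_univ_four, if_pos rfl, k2] at r22
  have r33 := h.row 3 3
  rw [Fin.sum_univ_four, if_pos rfl, k3] at r33
  have r30 := h.row 3 0
  rw [Fin.sum_univ_four, if_neg (by decide), k3] at r30
  have r31 := h.row 3 1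
  rw [Fin.sum_univ_four, if_neg (by decide), k3] at r31
  have r32 := h.row 3 2
  rw [Fin.sum_univ_four, if_neg (by decide), k3] at r32
  have t330 := h.tri 3 3 0
  rw [k3, k0] at t330
  have t331 := h.tri 3 3 1
  rw [k3, k1] at t331
  have t332 := h.tri 3 3 2
  rw [k3, k2] at t332
  have t310 := h.tri 3 1 0
  rw [k3, k0] at t310
  have t301 := h.tri 3 0 1
  rw [k3, k1] at t301
  have t320 := h.tri 3 2 0
  rw [k3, k0] at t320
  have t302 := h.tri 3 0 2
  rw [k3, k2] at t302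
  have t321 := h.tri 3 2 1
  rw [k3, k1] at t321
  have t312 := h.tri 3 1 2
  rw [k3, k2] at t312
  have t003 := h.tri 0 0 3
  rw [k0, k3] at t003
  have t113 := h.tri 1 1 3
  rw [k1, k3] at t113
  have t223 := h.tri 2 2 3
  rw [k2, k3] at t223
  have ha0 := h.assoc 3 0 (by decide)
  rw [Fin.sum_univ_four, Fin.sum_univ_four, k3] at ha0
  have ha1 := h.assoc 3 1 (by decide)
  rw [Fin.sum_univ_four, Fin.sum_univ_four, k3] at ha1
  have ha2 := h.assoc 3 2 (by decide)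
  rw [Fin.sum_univ_four, Fin.sum_univ_four, k3] at ha2
  have b01 := h.bd 0 1 0 (by decide)
  have b02 := h.bd 0 2 0 (by decide)
  have b03 := h.bd 0 3 0 (by decide)
  have b10 := h.bd 1 0 1 (by decide)
  have b12 := h.bd 1 2 1 (by decide)
  have b13 := h.bd 1 3 1 (by decide)
  have b20 := h.bd 2 0 2 (by decide)
  have b21 := h.bd 2 1 2 (by decide)
  have b23 := h.bd 2 3 2 (by decide)
  have b30 := h.bd 3 0 3 (by decide)
  have b31 := h.bd 3 1 3 (by decide)
  have b32 := h.bd 3 2 3 (by decide)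
  simp only [h.zero, h.sym 1 0 0, h.sym 1 0 1, h.sym 1 0 3, h.sym 2 0 0, h.sym 2 0 2, h.sym 2 0 3, h.sym 2 1 1, h.sym 2 1 2, h.sym 2 1 3, h.sym 3 0 0, h.sym 3 0 1, h.sym 3 0 2, h.sym 3 0 3, h.sym 3 1 0, h.sym 3 1 1, h.sym 3 1 2, h.sym 3 1 3, h.sym 3 2 0, h.sym 3 2 1, h.sym 3 2 2, h.sym 3 2 3, zero_mul, mul_zero, add_zero, zero_add] at r00 r11 r22 r33 r30 r31 r32 t330 t331 t332 t310 t301 t320 t302 t321 t312 t003 t113 t223 ha0 ha1 ha2 b01 b02 b03 b10 b12 b13 b20 b21 b23 b30 b31 b32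
  generalize p 0 0 3 = x003 at r00 r11 r22 r33 r30 r31 r32 t330 t331 t332 t310 t301 t320 t302 t321 t312 t003 t113 t223 ha0 ha1 ha2 b01 b02 b03 b10 b12 b13 b20 b21 b23 b30 b31 b32
  generalize p 0 1 0 = x010 at r00 r11 r22 r33 r30 r31 r32 t330 t331 t332 t310 t301 t320 t302 t321 t312 t003 t113 t223 ha0 ha1 ha2 b01 b02 b03 b10 b12 b13 b20 b21 b23 b30 b31 b32
  generalize p 0 1 1 = x011 at r00 r11 r22 r33 r30 r31 r32 t330 t331 t332 t310 t301 t320 t302 t321 t312 t003 t113 t223 ha0 ha1 ha2 b01 b02 b03 b10 b12 b13 b20 b21 b23 b30 b31 b32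
  generalize p 0 1 3 = x013 at r00 r11 r22 r33 r30 r31 r32 t330 t331 t332 t310 t301 t320 t302 t321 t312 t003 t113 t223 ha0 ha1 ha2 b01 b02 b03 b10 b12 b13 b20 b21 b23 b30 b31 b32
  generalize p 0 2 0 = x020 at r00 r11 r22 r33 r30 r31 r32 t330 t331 t332 t310 t301 t320 t302 t321 t312 t003 t113 t223 ha0 ha1 ha2 b01 b02 b03 b10 b12 b13 b20 b21 b23 b30 b31 b32
  generalize p 0 2 2 = x022 at r00 r11 r22 r33 r30 r31 r32 t330 t331 t332 t310 t301 t320 t302 t321 t312 t003 t113 t223 ha0 ha1 ha2 b01 b02 b03 b10 b12 b13 b20 b21 b23 b30 b31 b32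
  generalize p 0 2 3 = x023 at r00 r11 r22 r33 r30 r31 r32 t330 t331 t332 t310 t301 t320 t302 t321 t312 t003 t113 t223 ha0 ha1 ha2 b01 b02 b03 b10 b12 b13 b20 b21 b23 b30 b31 b32
  generalize p 0 3 0 = x030 at r00 r11 r22 r33 r30 r31 r32 t330 t331 t332 t310 t301 t320 t302 t321 t312 t003 t113 t223 ha0 ha1 ha2 b01 b02 b03 b10 b12 b13 b20 b21 b23 b30 b31 b32
  generalize p 0 3 1 = x031 at r00 r11 r22 r33 r30 r31 r32 t330 t331 t332 t310 t301 t320 t302 t321 t312 t003 t113 t223 ha0 ha1 ha2 b01 b02 b03 b10 b12 b13 b20 b21 b23 b30 b31 b32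
  generalize p 0 3 2 = x032 at r00 r11 r22 r33 r30 r31 r32 t330 t331 t332 t310 t301 t320 t302 t321 t312 t003 t113 t223 ha0 ha1 ha2 b01 b02 b03 b10 b12 b13 b20 b21 b23 b30 b31 b32
  generalize p 0 3 3 = x033 at r00 r11 r22 r33 r30 r31 r32 t330 t331 t332 t310 t301 t320 t302 t321 t312 t003 t113 t223 ha0 ha1 ha2 b01 b02 b03 b10 b12 b13 b20 b21 b23 b30 b31 b32
  generalize p 1 1 3 = x113 at r00 r11 r22 r33 r30 r31 r32 t330 t331 t332 t310 t301 t320 t302 t321 t312 t003 t113 t223 ha0 ha1 ha2 b01 b02 b03 b10 b12 b13 b20 b21 b23 b30 b31 b32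
  generalize p 1 2 1 = x121 at r00 r11 r22 r33 r30 r31 r32 t330 t331 t332 t310 t301 t320 t302 t321 t312 t003 t113 t223 ha0 ha1 ha2 b01 b02 b03 b10 b12 b13 b20 b21 b23 b30 b31 b32
  generalize p 1 2 2 = x122 at r00 r11 r22 r33 r30 r31 r32 t330 t331 t332 t310 t301 t320 t302 t321 t312 t003 t113 t223 ha0 ha1 ha2 b01 b02 b03 b10 b12 b13 b20 b21 b23 b30 b31 b32
  generalize p 1 2 3 = x123 at r00 r11 r22 r33 r30 r31 r32 t330 t331 t332 t310 t301 t320 t302 t321 t312 t003 t113 t223 ha0 ha1 ha2 b01 b02 b03 b10 b12 b13 b20 b21 b23 b30 b31 b32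
  generalize p 1 3 0 = x130 at r00 r11 r22 r33 r30 r31 r32 t330 t331 t332 t310 t301 t320 t302 t321 t312 t003 t113 t223 ha0 ha1 ha2 b01 b02 b03 b10 b12 b13 b20 b21 b23 b30 b31 b32
  generalize p 1 3 1 = x131 at r00 r11 r22 r33 r30 r31 r32 t330 t331 t332 t310 t301 t320 t302 t321 t312 t003 t113 t223 ha0 ha1 ha2 b01 b02 b03 b10 b12 b13 b20 b21 b23 b30 b31 b32
  generalize p 1 3 2 = x132 at r00 r11 r22 r33 r30 r31 r32 t330 t331 t332 t310 t301 t320 t302 t321 t312 t003 t113 t223 ha0 ha1 ha2 b01 b02 b03 b10 b12 b13 b20 b21 b23 b30 b31 b32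
  generalize p 1 3 3 = x133 at r00 r11 r22 r33 r30 r31 r32 t330 t331 t332 t310 t301 t320 t302 t321 t312 t003 t113 t223 ha0 ha1 ha2 b01 b02 b03 b10 b12 b13 b20 b21 b23 b30 b31 b32
  generalize p 2 2 3 = x223 at r00 r11 r22 r33 r30 r31 r32 t330 t331 t332 t310 t301 t320 t302 t321 t312 t003 t113 t223 ha0 ha1 ha2 b01 b02 b03 b10 b12 b13 b20 b21 b23 b30 b31 b32
  generalize p 2 3 0 = x230 at r00 r11 r22 r33 r30 r31 r32 t330 t331 t332 t310 t301 t320 t302 t321 t312 t003 t113 t223 ha0 ha1 ha2 b01 b02 b03 b10 b12 b13 b20 b21 b23 b30 b31 b32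
  generalize p 2 3 1 = x231 at r00 r11 r22 r33 r30 r31 r32 t330 t331 t332 t310 t301 t320 t302 t321 t312 t003 t113 t223 ha0 ha1 ha2 b01 b02 b03 b10 b12 b13 b20 b21 b23 b30 b31 b32
  generalize p 2 3 2 = x232 at r00 r11 r22 r33 r30 r31 r32 t330 t331 t332 t310 t301 t320 t302 t321 t312 t003 t113 t223 ha0 ha1 ha2 b01 b02 b03 b10 b12 b13 b20 b21 b23 b30 b31 b32
  generalize p 2 3 3 = x233 at r00 r11 r22 r33 r30 r31 r32 t330 t331 t332 t310 t301 t320 t302 t321 t312 t003 t113 t223 ha0 ha1 ha2 b01 b02 b03 b10 b12 b13 b20 b21 b23 b30 b31 b32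
  generalize p 3 3 0 = x330 at r00 r11 r22 r33 r30 r31 r32 t330 t331 t332 t310 t301 t320 t302 t321 t312 t003 t113 t223 ha0 ha1 ha2 b01 b02 b03 b10 b12 b13 b20 b21 b23 b30 b31 b32
  generalize p 3 3 1 = x331 at r00 r11 r22 r33 r30 r31 r32 t330 t331 t332 t310 t301 t320 t302 t321 t312 t003 t113 t223 ha0 ha1 ha2 b01 b02 b03 b10 b12 b13 b20 b21 b23 b30 b31 b32
  generalize p 3 3 2 = x332 at r00 r11 r22 r33 r30 r31 r32 t330 t331 t332 t310 t301 t320 t302 t321 t312 t003 t113 t223 ha0 ha1 ha2 b01 b02 b03 b10 b12 b13 b20 b21 b23 b30 b31 b32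
  clear h
  have w01 : x031 = x130 := by omega
  have w02 : x032 = x230 := by omega
  have w12 : x132 = x231 := by omega
  rw [w01] at ha0 ha1
  rw [w02] at ha0 ha2
  rw [w12] at ha1 ha2
  have hs : x330 + x331 + x332 = 6 := by clear * - t330 t331 t332 r33; omega
  have a0 : x030 = 3 := by clear * - t003 r00 b03 b01 b02; omega
  have a1 : x131 = 3 := by clear * - t113 r11 b13 b10 b12; omega
  have a2 : x232 = 3 := by clear * - t223 r22 b23 b20 b21; omega
  have c0 : (x330 = 0 ∧ x033 = 0) ∨ (x330 = 3 ∧ x033 = 4) := by clear * - t330 b30; omega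
  have c1 : (x331 = 0 ∧ x133 = 0) ∨ (x331 = 3 ∧ x133 = 4) := by clear * - t331 b31; omega
  have c2 : (x332 = 0 ∧ x233 = 0) ∨ (x332 = 3 ∧ x233 = 4) := by clear * - t332 b32; omega
  rcases (by omega : (x330 = 3 ∧ x033 = 4) ∨ (x331 = 3 ∧ x133 = 4)) with hm | hm
  · refine core9 (n := x331) (k := x332) (s := x010) (t := x020)
      (w := x130) (v := x230) ?_ ?_ b01 b02 ?_ ?_
    · clear * - hs hm; omega
    · clear * - c1; omega
    · clear * - r30 a0 hm; omega
    · rw [ha0, a0, hm.1, hm.2]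
  · refine core9 (n := x330) (k := x332) (s := x011) (t := x121)
      (w := x130) (v := x231) ?_ ?_ b10 b12 ?_ ?_
    · clear * - hs hm; omega
    · clear * - c0; omega
    · clear * - r31 w01 a1 hm; omega
    · rw [ha1, a1, hm.1, hm.2]; ring

theorem kill_16_16_16_16 {p : Fin 4 → Fin 4 → Fin 4 → ℕ} {K : Fin 4 → ℕ} (h : Facts p K)
    (k0 : K 0 = 16) (k1 : K 1 = 16) (k2 : K 2 = 16) (k3 : K 3 = 16) : False := by
  have r00 := h.row 0 0
  rw [Fin.sum_univ_four, if_pos rfl, k0] at r00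
  have r11 := h.row 1 1
  rw [Fin.sum_univ_four, if_pos rfl, k1] at r11
  have r22 := h.row 2 2
  rw [Fin.sum_univ_four, if_pos rfl, k2] at r22
  have r33 := h.row 3 3
  rw [Fin.sum_univ_four, if_pos rfl, k3] at r33
  have r01 := h.row 0 1
  rw [Fin.sum_univ_four, if_neg (by decide), k0] at r01
  have r02 := h.row 0 2
  rw [Fin.sum_univ_four, if_neg (by decide), k0] at r02
  have r03 := h.row 0 3
  rw [Fin.sum_univ_four, if_neg (by decide), k0] at r03
  have t001 := h.tri 0 0 1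
  rw [k0, k1] at t001
  have t021 := h.tri 0 2 1
  rw [k0, k1] at t021
  have t031 := h.tri 0 3 1
  rw [k0, k1] at t031
  have t002 := h.tri 0 0 2
  rw [k0, k2] at t002
  have t012 := h.tri 0 1 2
  rw [k0, k2] at t012
  have t032 := h.tri 0 3 2
  rw [k0, k2] at t032
  have t003 := h.tri 0 0 3
  rw [k0, k3] at t003
  have t013 := h.tri 0 1 3
  rw [k0, k3] at t013
  have t023 := h.tri 0 2 3
  rw [k0, k3] at t023
  have t113 := h.tri 1 1 3
  rw [k1, k3] at t113
  have t223 := h.tri 2 2 3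
  rw [k2, k3] at t223
  have t033 := h.tri 0 3 3
  rw [k0, k3] at t033
  have t133 := h.tri 1 3 3
  rw [k1, k3] at t133
  have t233 := h.tri 2 3 3
  rw [k2, k3] at t233
  have s100 := h.sym 1 0 0
  have s011 := h.sym 0 1 1
  have s200 := h.sym 2 0 0
  have s022 := h.sym 0 2 2
  have s300 := h.sym 3 0 0
  have s033 := h.sym 0 3 3
  have s210 := h.sym 2 1 0
  have s310 := h.sym 3 1 0
  have s320 := h.sym 3 2 0
  have s211 := h.sym 2 1 1
  have s311 := h.sym 3 1 1
  have s133 := h.sym 1 3 3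
  have s233 := h.sym 2 3 3
  have s322 := h.sym 3 2 2
  have z0 := h.zero 0
  have z1 := h.zero 1
  have z2 := h.zero 2
  have z3 := h.zero 3
  have b01 := h.bd 0 1 0 (by decide)
  have b02 := h.bd 0 2 0 (by decide)
  have b03 := h.bd 0 3 0 (by decide)
  have b10 := h.bd 1 0 1 (by decide)
  have b12 := h.bd 1 2 1 (by decide)
  have b13 := h.bd 1 3 1 (by decide)
  have b20 := h.bd 2 0 2 (by decide)
  have b21 := h.bd 2 1 2 (by decide)
  have b23 := h.bd 2 3 2 (by decide)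
  have b30 := h.bd 3 0 3 (by decide)
  have b31 := h.bd 3 1 3 (by decide)
  have b32 := h.bd 3 2 3 (by decide)
  have v010 : p 0 1 0 = 5 := by clear * - r00 z0 b01 b02 b03; omega
  have v020 : p 0 2 0 = 5 := by clear * - r00 z0 b01 b02 b03; omega
  have v030 : p 0 3 0 = 5 := by clear * - r00 z0 b01 b02 b03; omega
  have v101 : p 1 0 1 = 5 := by clear * - r11 z1 b10 b12 b13; omega
  have v121 : p 1 2 1 = 5 := by clear * - r11 z1 b10 b12 b13; omega
  have v131 : p 1 3 1 = 5 := by clear * - r11 z1 b10 b12 b13; omega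
  have v202 : p 2 0 2 = 5 := by clear * - r22 z2 b20 b21 b23; omega
  have v212 : p 2 1 2 = 5 := by clear * - r22 z2 b20 b21 b23; omega
  have v232 : p 2 3 2 = 5 := by clear * - r22 z2 b20 b21 b23; omega
  have v303 : p 3 0 3 = 5 := by clear * - r33 z3 b30 b31 b32; omega
  have v313 : p 3 1 3 = 5 := by clear * - r33 z3 b30 b31 b32; omega
  have v323 : p 3 2 3 = 5 := by clear * - r33 z3 b30 b31 b32; omega
  have v001 : p 0 0 1 = 5 := by clear * - t001 s100 v010; omega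
  have v011 : p 0 1 1 = 5 := by clear * - s011 v101; omega
  have v002 : p 0 0 2 = 5 := by clear * - t002 s200 v020; omega
  have v211 : p 2 1 1 = 5 := by clear * - s211 v121; omega
  have v003 : p 0 0 3 = 5 := by clear * - t003 s300 v030; omega
  have v311 : p 3 1 1 = 5 := by clear * - s311 v131; omega
  have v022 : p 0 2 2 = 5 := by clear * - s022 v202; omega
  have v033 : p 0 3 3 = 5 := by clear * - s033 v303; omega
  have v012 : p 0 1 2 = 3 := by clear * - r01 r02 r03 v001 v011 v002 v022 v003 v033 t012 s210 t021 t013 s310 t031 t023 s320 t032; omega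
  have v021 : p 0 2 1 = 3 := by clear * - r01 r02 r03 v001 v011 v002 v022 v003 v033 t012 s210 t021 t013 s310 t031 t023 s320 t032; omega
  have v013 : p 0 1 3 = 3 := by clear * - r01 r02 r03 v001 v011 v002 v022 v003 v033 t012 s210 t021 t013 s310 t031 t023 s320 t032; omega
  have v031 : p 0 3 1 = 3 := by clear * - r01 r02 r03 v001 v011 v002 v022 v003 v033 t012 s210 t021 t013 s310 t031 t023 s320 t032; omega
  have ha := h.assoc 0 1 (by decide)
  rw [Fin.sum_univ_four, Fin.sum_univ_four, k0, v010, v001, v011, v002, v211, v003, v311, v012, v021, v013, v031, z1] at ha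
  rw [z0] at ha
  norm_num at ha

theorem kill_15_15_15_10 {p : Fin 4 → Fin 4 → Fin 4 → ℕ} {K : Fin 4 → ℕ} (h : Facts p K)
    (k0 : K 0 = 15) (k1 : K 1 = 15) (k2 : K 2 = 15) (k3 : K 3 = 10) : False := by
  have r00 := h.row 0 0
  rw [Fin.sum_univ_four, if_pos rfl, k0] at r00
  have r11 := h.row 1 1
  rw [Fin.sum_univ_four, if_pos rfl, k1] at r11
  have r22 := h.row 2 2
  rw [Fin.sum_univ_four, if_pos rfl, k2] at r22
  have r33 := h.row 3 3
  rw [Fin.sum_univ_four, if_pos rfl, k3] at r33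
  have r01 := h.row 0 1
  rw [Fin.sum_univ_four, if_neg (by decide), k0] at r01
  have r02 := h.row 0 2
  rw [Fin.sum_univ_four, if_neg (by decide), k0] at r02
  have r03 := h.row 0 3
  rw [Fin.sum_univ_four, if_neg (by decide), k0] at r03
  have t001 := h.tri 0 0 1
  rw [k0, k1] at t001
  have t021 := h.tri 0 2 1
  rw [k0, k1] at t021
  have t031 := h.tri 0 3 1
  rw [k0, k1] at t031
  have t002 := h.tri 0 0 2
  rw [k0, k2] at t002
  have t012 := h.tri 0 1 2
  rw [k0, k2] at t012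
  have t032 := h.tri 0 3 2
  rw [k0, k2] at t032
  have t003 := h.tri 0 0 3
  rw [k0, k3] at t003
  have t013 := h.tri 0 1 3
  rw [k0, k3] at t013
  have t023 := h.tri 0 2 3
  rw [k0, k3] at t023
  have t113 := h.tri 1 1 3
  rw [k1, k3] at t113
  have t223 := h.tri 2 2 3
  rw [k2, k3] at t223
  have t033 := h.tri 0 3 3
  rw [k0, k3] at t033
  have t133 := h.tri 1 3 3
  rw [k1, k3] at t133
  have t233 := h.tri 2 3 3
  rw [k2, k3] at t233
  have s100 := h.sym 1 0 0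
  have s011 := h.sym 0 1 1
  have s200 := h.sym 2 0 0
  have s022 := h.sym 0 2 2
  have s300 := h.sym 3 0 0
  have s033 := h.sym 0 3 3
  have s210 := h.sym 2 1 0
  have s310 := h.sym 3 1 0
  have s320 := h.sym 3 2 0
  have s211 := h.sym 2 1 1
  have s311 := h.sym 3 1 1
  have s133 := h.sym 1 3 3
  have s233 := h.sym 2 3 3
  have s322 := h.sym 3 2 2
  have z0 := h.zero 0
  have z1 := h.zero 1
  have z2 := h.zero 2
  have z3 := h.zero 3
  have b01 := h.bd 0 1 0 (by decide)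
  have b02 := h.bd 0 2 0 (by decide)
  have b03 := h.bd 0 3 0 (by decide)
  have b10 := h.bd 1 0 1 (by decide)
  have b12 := h.bd 1 2 1 (by decide)
  have b13 := h.bd 1 3 1 (by decide)
  have b20 := h.bd 2 0 2 (by decide)
  have b21 := h.bd 2 1 2 (by decide)
  have b23 := h.bd 2 3 2 (by decide)
  have b30 := h.bd 3 0 3 (by decide)
  have b31 := h.bd 3 1 3 (by decide)
  have b32 := h.bd 3 2 3 (by decide)
  have v010 : p 0 1 0 = 5 := by clear * - r00 z0 b01 b02 b03 t003 s300; omega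
  have v020 : p 0 2 0 = 5 := by clear * - r00 z0 b01 b02 b03 t003 s300; omega
  have v030 : p 0 3 0 = 4 := by clear * - r00 z0 b01 b02 b03 t003 s300; omega
  have v101 : p 1 0 1 = 5 := by clear * - r11 z1 b10 b12 b13 t113 s311; omega
  have v121 : p 1 2 1 = 5 := by clear * - r11 z1 b10 b12 b13 t113 s311; omega
  have v131 : p 1 3 1 = 4 := by clear * - r11 z1 b10 b12 b13 t113 s311; omega
  have v202 : p 2 0 2 = 5 := by clear * - r22 z2 b20 b21 b23 t223 s322; omega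
  have v212 : p 2 1 2 = 5 := by clear * - r22 z2 b20 b21 b23 t223 s322; omega
  have v232 : p 2 3 2 = 4 := by clear * - r22 z2 b20 b21 b23 t223 s322; omega
  have v303 : p 3 0 3 = 3 := by clear * - r33 z3 b30 b31 b32 t033 t133 t233 s033 s133 s233; omega
  have v313 : p 3 1 3 = 3 := by clear * - r33 z3 b30 b31 b32 t033 t133 t233 s033 s133 s233; omega
  have v323 : p 3 2 3 = 3 := by clear * - r33 z3 b30 b31 b32 t033 t133 t233 s033 s133 s233; omega
  have v001 : p 0 0 1 = 5 := by clear * - t001 s100 v010; omega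
  have v011 : p 0 1 1 = 5 := by clear * - s011 v101; omega
  have v002 : p 0 0 2 = 5 := by clear * - t002 s200 v020; omega
  have v211 : p 2 1 1 = 5 := by clear * - s211 v121; omega
  have v003 : p 0 0 3 = 6 := by clear * - t003 s300 v030; omega
  have v311 : p 3 1 1 = 4 := by clear * - s311 v131; omega
  have v022 : p 0 2 2 = 5 := by clear * - s022 v202; omega
  have v033 : p 0 3 3 = 3 := by clear * - s033 v303; omega
  have v012 : p 0 1 2 = 3 := by clear * - r01 r02 r03 v001 v011 v002 v022 v003 v033 t012 s210 t021 t013 s310 t031 t023 s320 t032; omega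
  have v021 : p 0 2 1 = 3 := by clear * - r01 r02 r03 v001 v011 v002 v022 v003 v033 t012 s210 t021 t013 s310 t031 t023 s320 t032; omega
  have v013 : p 0 1 3 = 3 := by clear * - r01 r02 r03 v001 v011 v002 v022 v003 v033 t012 s210 t021 t013 s310 t031 t023 s320 t032; omega
  have v031 : p 0 3 1 = 2 := by clear * - r01 r02 r03 v001 v011 v002 v022 v003 v033 t012 s210 t021 t013 s310 t031 t023 s320 t032; omega
  have ha := h.assoc 0 1 (by decide)
  rw [Fin.sum_univ_four, Fin.sum_univ_four, k0, v010, v001, v011, v002, v211, v003, v311, v012, v021, v013, v031, z1] at ha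
  rw [z0] at ha
  norm_num at ha

end Pool.Agent.R4S
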