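import Pool.Agent.R4S.KillE
import Pool.Agent.R4S.Arith
import Pool.Agent.R4S.Assoc

/-!
# A 4-colouring without monochromatic triangles of a complete graph on at least 42 vertices is not
# an association scheme
-/

namespace Pool.Agent.R4S

open Finset

theorem Facts.mod {p : Fin 4 → Fin 4 → Fin 4 → ℕ} {K : Fin 4 → ℕ} (h : Facts p K)
    (i j : Fin 4) : K i * p i j i % K j = 0 := by
  rw [h.sym i j i, ← h.tri i i j]
  exact Nat.mul_mod_right _ _

theorem noFacts_sorted {p : Fin 4 → Fin 4 → Fin 4 → ℕ} {K : Fin 4 → ℕ} (h : Facts p K)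
    (h10 : K 1 ≤ K 0) (h21 : K 2 ≤ K 1) (h32 : K 3 ≤ K 2) : False := by
  have r0 := h.row 0 0
  have r1 := h.row 1 1
  have r2 := h.row 2 2
  have r3 := h.row 3 3
  rw [Fin.sum_univ_four, if_pos rfl, h.zero] at r0 r1 r2 r3
  have b01 := h.bd 0 1 0 (by decide)
  have b02 := h.bd 0 2 0 (by decide)
  have b03 := h.bd 0 3 0 (by decide)
  have b10 := h.bd 1 0 1 (by decide)
  have b12 := h.bd 1 2 1 (by decide)
  have b13 := h.bd 1 3 1 (by decide)
  have b20 := h.bd 2 0 2 (by decide)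
  have b21 := h.bd 2 1 2 (by decide)
  have b23 := h.bd 2 3 2 (by decide)
  have b30 := h.bd 3 0 3 (by decide)
  have b31 := h.bd 3 1 3 (by decide)
  have b32 := h.bd 3 2 3 (by decide)
  have l0 := h.le 0
  have l3 := h.pos 3
  have hs := h.sum
  have e1 := h.par 0
  have e2 := h.par 1
  have e3 := h.par 2
  have e4 := h.par 3
  rw [Fin.sum_univ_four] at hs e1 e2 e3 e4
  have hv := valencies (x := K 0) (y := K 1) (z := K 2) (w := K 3)
    (by omega) h10 h21 h32 l3
    (prB_of (a := p 0 1 0) (by omega) (by omega) (h.mod 0 1))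
    (prB_of (a := p 1 0 1) (by omega) (by omega) (h.mod 1 0))
    (prB_of (a := p 0 2 0) (by omega) (by omega) (h.mod 0 2))
    (prB_of (a := p 2 0 2) (by omega) (by omega) (h.mod 2 0))
    (prB_of (a := p 1 2 1) (by omega) (by omega) (h.mod 1 2))
    (prB_of (a := p 2 1 2) (by omega) (by omega) (h.mod 2 1))
    hs
    (rowB_of (a := p 0 1 0) (b := p 0 2 0) (d := p 0 3 0) (by omega) (by omega) (by omega)
      (h.mod 0 1) (h.mod 0 2) (h.mod 0 3) (by omega))
    (rowB_of (a := p 1 0 1) (b := p 1 2 1) (d := p 1 3 1) (by omega) (by omega) (by omega)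
      (h.mod 1 0) (h.mod 1 2) (h.mod 1 3) (by omega))
    (rowB_of (a := p 2 0 2) (b := p 2 1 2) (d := p 2 3 2) (by omega) (by omega) (by omega)
      (h.mod 2 0) (h.mod 2 1) (h.mod 2 3) (by omega))
    (rowB_of (a := p 3 0 3) (b := p 3 1 3) (d := p 3 2 3) (by omega) (by omega) (by omega)
      (h.mod 3 0) (h.mod 3 1) (h.mod 3 2) (by omega))
    e1 e2 e3 e4
  clear r0 r1 r2 r3 b01 b02 b03 b10 b12 b13 b20 b21 b23 b30 b31 b32 l0 l3 hs e1 e2 e3 e4
  simp only [survivors, List.mem_cons, Prod.mk.injEq, List.not_mem_nil, or_false] at hv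
  rcases hv with ⟨k0, k1, k2, k3⟩ | ⟨k0, k1, k2, k3⟩ | ⟨k0, k1, k2, k3⟩ | ⟨k0, k1, k2, k3⟩ |
    ⟨k0, k1, k2, k3⟩ | ⟨k0, k1, k2, k3⟩ | ⟨k0, k1, k2, k3⟩ | ⟨k0, k1, k2, k3⟩ |
    ⟨k0, k1, k2, k3⟩ | ⟨k0, k1, k2, k3⟩ | ⟨k0, k1, k2, k3⟩ | ⟨k0, k1, k2, k3⟩ |
    ⟨k0, k1, k2, k3⟩ | ⟨k0, k1, k2, k3⟩ | ⟨k0, k1, k2, k3⟩ | ⟨k0, k1, k2, k3⟩ |
    ⟨k0, k1, k2, k3⟩
  · exact kill_16_16_8_1 h k0 k1 k2 k3
  · exact kill_15_15_10_1 h k0 k1 k2 k3
  · exact kill_15_15_12_1 h k0 k1 k2 k3
  · exact kill_14_14_14_1 h k0 k1 k2 k3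
  · exact kill_16_16_16_1 h k0 k1 k2 k3
  · exact kill_16_10_10_5 h k0 k1 k2 k3
  · exact kill_15_15_10_5 h k0 k1 k2 k3
  · exact kill_15_15_15_6 h k0 k1 k2 k3
  · exact kill_14_14_14_7 h k0 k1 k2 k3
  · exact kill_16_16_8_8 h k0 k1 k2 k3
  · exact kill_16_10_10_8 h k0 k1 k2 k3
  · exact kill_12_12_12_9 h k0 k1 k2 k3
  · exact kill_16_10_10_10 h k0 k1 k2 k3
  · exact kill_15_15_15_10 h k0 k1 k2 k3
  · exact kill_12_12_12_12 h k0 k1 k2 k3
  · exact kill_14_14_14_14 h k0 k1 k2 k3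
  · exact kill_16_16_16_16 h k0 k1 k2 k3

theorem noFacts {p : Fin 4 → Fin 4 → Fin 4 → ℕ} {K : Fin 4 → ℕ} (h : Facts p K) : False := by
  have hm := Tuple.monotone_sort K
  refine noFacts_sorted (h.perm (Fin.revPerm.trans (Tuple.sort K))) ?_ ?_ ?_
  · exact hm (by decide : (2 : Fin 4) ≤ 3)
  · exact hm (by decide : (1 : Fin 4) ≤ 2)
  · exact hm (by decide : (0 : Fin 4) ≤ 1)

section
variable {V : Type} [Fintype V] [DecidableEq V] {c : Sym2 V → Fin 4}
  {p : Fin 4 → Fin 4 → Fin 4 → ℕ}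

theorem valency_const (hp : IsScheme c p) (u v : V) (i : Fin 4) :
    (nb c u i).card = (nb c v i).card := by
  by_cases huv : u = v
  · rw [huv]
  · have h1 := row hp huv i
    have h2 := row hp (Ne.symm huv) i
    rw [Sym2.eq_swap (a := v) (b := u)] at h2
    rw [← h1, h2]

theorem exists_colour (hc : NoMono c) (hn : 42 ≤ Fintype.card V) (hp : IsScheme c p)
    (u : V) (k : Fin 4) : ∃ v, u ≠ v ∧ c s(u, v) = k := by
  by_contra hcon
  push Not at hcon
  have h0 : ∀ v, (nb c v k).card = 0 := by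
    intro v
    rw [valency_const hp v u k, Finset.card_eq_zero, Finset.eq_empty_iff_forall_notMem]
    intro w hw
    exact hcon w (mem_nb.mp hw).1 (mem_nb.mp hw).2
  have h1 := card_le_ramseyBound hc 3 (Finset.univ.erase k) (Finset.univ : Finset V)
    (by rw [Finset.card_erase_of_mem (Finset.mem_univ k)]; simp) ?_
  · rw [Finset.card_univ] at h1
    have h2 : ramseyBound 3 = 16 := rfl
    omega
  · intro x _ y _ hxy
    rw [Finset.mem_erase]
    refine ⟨?_, Finset.mem_univ _⟩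
    intro h
    have h2 := h0 x
    rw [Finset.card_eq_zero] at h2
    have h3 : y ∈ nb c x k := mem_nb.mpr ⟨hxy, h⟩
    rw [h2] at h3
    exact absurd h3 (Finset.notMem_empty _)

theorem facts_of_scheme (hc : NoMono c) (hn : 42 ≤ Fintype.card V) (hp : IsScheme c p) (u : V) :
    Facts p (fun i => (nb c u i).card) := by
  refine ⟨?_, ?_, ?_, ?_, ?_, ?_, ?_, ?_, ?_, ?_⟩
  · intro i k
    obtain ⟨v, hv, hk⟩ := exists_colour hc hn hp u k
    have h1 := row hp hv i
    rw [hk] at h1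
    exact h1
  · intro i j k
    obtain ⟨v, hv, hk⟩ := exists_colour hc hn hp u k
    have h1 := symm_p hp hv i j
    rw [hk] at h1
    exact h1
  · intro i j k
    exact tri hp u i j k
  · intro i
    obtain ⟨v, hv, hk⟩ := exists_colour hc hn hp u i
    have h1 := zero_p hc hp hv
    rw [hk] at h1
    exact h1
  · intro i j k hij
    obtain ⟨v, hv, hk⟩ := exists_colour hc hn hp u k
    have h1 := bd_p hc hp hv hij
    rw [hk] at h1
    exact h1
  · intro i j hij
    obtain ⟨v, hv, hk⟩ := exists_colour hc hn hp u j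
    have h1 := assoc hp hv (i := i) (by rw [hk]; exact hij)
    rw [hk] at h1
    exact h1
  · intro i
    exact card_nb_le hc i u
  · have h1 := sum_card_nb c u
    change 41 ≤ ∑ i, (nb c u i).card
    omega
  · intro i
    obtain ⟨v, hv, hk⟩ := exists_colour hc hn hp u i
    exact Finset.card_pos.mpr ⟨v, mem_nb.mpr ⟨hv, hk⟩⟩
  · intro i
    have h1 := sum_card_nb c u
    have h2 : (∑ i, (nb c u i).card) + 1 = Fintype.card V := by omega
    change ((∑ i, (nb c u i).card) + 1) * (nb c u i).card % 2 = 0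
    rw [h2]
    have h3 := (colourGraph c i).sum_degrees_eq_twice_card_edges
    have h4 : ∑ v, (colourGraph c i).degree v = Fintype.card V * (nb c u i).card := by
      rw [Finset.sum_congr rfl (fun v _ => (degree_eq c i v).trans (valency_const hp v u i)),
        Finset.sum_const, smul_eq_mul, Finset.card_univ]
    rw [← h4, h3]
    exact Nat.mul_mod_right _ _

/-- A 4-colouring of the edges of a complete graph on at least 42 vertices without monochromatic
triangles is not an association scheme. -/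
theorem not_scheme (hc : NoMono c) (hn : 42 ≤ Fintype.card V) : ¬ IsScheme c p := by
  intro hp
  have : 0 < Fintype.card V := by omega
  obtain ⟨u⟩ := Fintype.card_pos_iff.mp this
  exact noFacts (facts_of_scheme hc hn hp u)

end

end Pool.Agent.R4S
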