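import Mathlib

/-!
# The integrality condition for triangle-free strongly regular graphs, by traces of idempotents
-/

namespace Pool.Agent.R4S

open Finset

theorem trace_idem {V : Type} [Fintype V] [DecidableEq V] (P : Matrix V V ℝ) (h : P * P = P) :
    ∃ r : ℕ, P.trace = r := by
  have hid : IsIdempotentElem (Matrix.toLin' P) := by
    change Matrix.toLin' P ∘ₗ Matrix.toLin' P = Matrix.toLin' P
    rw [← Matrix.toLin'_mul, h]
  have h1 := LinearMap.IsProj.trace (LinearMap.IsIdempotentElem.isProj_range _ hid)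
  rw [Matrix.trace_toLin'_eq] at h1
  exact ⟨_, h1⟩

theorem sq_id {V : Type} [Fintype V] [DecidableEq V] (A J : Matrix V V ℝ) (n k μ s D : ℝ)
    (hA2 : A * A = k • (1 : Matrix V V ℝ) + μ • (J - 1 - A)) (hAJ : A * J = k • J)
    (hJA : J * A = k • J) (hJJ : J * J = n • J)
    (hs : n * s ^ 2 + 2 * (2 * k + μ) * s + 4 * μ = 0) (hD : D = μ ^ 2 + 4 * (k - μ)) :
    ((2 : ℝ) • A + μ • (1 : Matrix V V ℝ) + s • J) * ((2 : ℝ) • A + μ • (1 : Matrix V V ℝ) + s • J)
      = D • (1 : Matrix V V ℝ) := by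
  have h1 : ((2 : ℝ) • A + μ • (1 : Matrix V V ℝ) + s • J) *
      ((2 : ℝ) • A + μ • (1 : Matrix V V ℝ) + s • J)
      = (4 : ℝ) • (A * A) + (4 * μ) • A + (μ ^ 2) • (1 : Matrix V V ℝ) + (2 * s) • (A * J)
        + (2 * s) • (J * A) + (2 * μ * s) • J + (s ^ 2) • (J * J) := by
    simp only [add_mul, mul_add, smul_mul_assoc, mul_smul_comm, one_mul, mul_one, smul_smul,
      smul_add]
    module
  rw [h1, hA2, hAJ, hJA, hJJ, hD]
  have h2 : (4 : ℝ) • (k • (1 : Matrix V V ℝ) + μ • (J - 1 - A)) + (4 * μ) • A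
      + (μ ^ 2) • (1 : Matrix V V ℝ) + (2 * s) • (k • J) + (2 * s) • (k • J)
      + (2 * μ * s) • J + (s ^ 2) • (n • J)
      = (μ ^ 2 + 4 * (k - μ)) • (1 : Matrix V V ℝ)
        + (n * s ^ 2 + 2 * (2 * k + μ) * s + 4 * μ) • J := by
    module
  rw [h2, hs, zero_smul, add_zero]

theorem srg_trace {V : Type} [Fintype V] [DecidableEq V] (G : SimpleGraph V) [DecidableRel G.Adj]
    {n k μ : ℕ} (h : G.IsSRGWith n k 0 μ) (hn : 0 < n) (hk : 2 ≤ k)
    (hpar : k * (k - 1) = (n - k - 1) * μ) (hkn : k + 1 ≤ n) :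
    ∃ z : ℤ, ((n : ℤ) * μ - 2 * k - μ) ^ 2 = z ^ 2 * ((μ : ℤ) ^ 2 + 4 * (k - μ)) := by
  set A : Matrix V V ℝ := G.adjMatrix ℝ with hA
  set J : Matrix V V ℝ := Matrix.of fun _ _ => (1 : ℝ) with hJ
  have hcompl : 1 + A + Gᶜ.adjMatrix ℝ = J := by
    rw [hA, hJ]
    ext u v
    simp only [Matrix.add_apply, Matrix.one_apply, SimpleGraph.adjMatrix_apply,
      SimpleGraph.compl_adj, Matrix.of_apply]
    by_cases h1 : u = v
    · subst h1; simp
    · by_cases h2 : G.Adj u v <;> simp [h1, h2]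
  have hA2 : A * A = (k : ℝ) • (1 : Matrix V V ℝ) + (μ : ℝ) • (J - 1 - A) := by
    have h1 := h.matrix_eq (α := ℝ)
    rw [← hA] at h1
    rw [← pow_two, h1, ← hcompl]
    simp only [zero_smul, add_zero, Nat.cast_smul_eq_nsmul]
    congr 2
    abel
  have hreg := h.regular
  have hAJ : A * J = (k : ℝ) • J := by
    ext v w
    rw [hA, SimpleGraph.adjMatrix_mul_apply]
    simp [hJ, hreg v]
  have hJA : J * A = (k : ℝ) • J := by
    ext v w
    rw [hA, SimpleGraph.mul_adjMatrix_apply]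
    simp [hJ, hreg w]
  have hcard : (Fintype.card V : ℝ) = n := by exact_mod_cast h.card
  have hJJ : J * J = (n : ℝ) • J := by
    ext v w
    simp [hJ, Matrix.mul_apply, hcard]
  have hnR : (0 : ℝ) < n := by exact_mod_cast hn
  have hparR : (k : ℝ) * (k - 1) = (n - k - 1) * μ := by
    have h1 : 1 ≤ k := by omega
    have h2 : k ≤ n := by omega
    have h3 : 1 ≤ n - k := by omega
    have := congrArg (Nat.cast : ℕ → ℝ) hpar
    push_cast [h1, h2, h3] at this
    exact this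
  set D : ℝ := (μ : ℝ) ^ 2 + 4 * (k - μ) with hD
  have hDpos : 0 < D := by
    have : (2 : ℝ) ≤ k := by exact_mod_cast hk
    rw [hD]; nlinarith [sq_nonneg ((μ : ℝ) - 2)]
  set q : ℝ := Real.sqrt D with hq
  have hqpos : 0 < q := Real.sqrt_pos.mpr hDpos
  have hq2 : q ^ 2 = D := Real.sq_sqrt hDpos.le
  set s : ℝ := (-(2 * k + μ) + q) / n with hs
  have hns : n * s = -(2 * k + μ) + q := by rw [hs]; field_simp
  have hsq : n * s ^ 2 + 2 * (2 * k + μ) * s + 4 * μ = 0 := by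
    have h1 : n * (n * s ^ 2 + 2 * (2 * k + μ) * s + 4 * μ) = 0 := by
      have : n * (n * s ^ 2 + 2 * (2 * k + μ) * s + 4 * μ)
          = (n * s) ^ 2 + 2 * (2 * k + μ) * (n * s) + 4 * n * μ := by ring
      rw [this, hns]
      nlinarith [hq2, hparR]
    rcases mul_eq_zero.mp h1 with h2 | h2
    · exact absurd h2 hnR.ne'
    · exact h2
  have hC := sq_id A J n k μ s D hA2 hAJ hJA hJJ hsq hD
  set C : Matrix V V ℝ := (2 : ℝ) • A + (μ : ℝ) • (1 : Matrix V V ℝ) + s • J with hCdef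
  have hP : ((1 / (2 * q)) • (C + q • (1 : Matrix V V ℝ))) *
      ((1 / (2 * q)) • (C + q • (1 : Matrix V V ℝ)))
      = (1 / (2 * q)) • (C + q • (1 : Matrix V V ℝ)) := by
    simp only [smul_mul_assoc, mul_smul_comm, smul_smul, add_mul, mul_add, hC, one_mul, mul_one,
      smul_add]
    rw [← hq2]
    match_scalars <;> field_simp <;> ring
  obtain ⟨r, hr⟩ := trace_idem _ hP
  have htrA : A.trace = 0 := by rw [hA]; exact G.trace_adjMatrix ℝ
  have htr1 : (1 : Matrix V V ℝ).trace = n := by rw [Matrix.trace_one, hcard]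
  have htrJ : J.trace = n := by simp [hJ, Matrix.trace, hcard]
  have htrC : C.trace = n * μ + n * s := by
    rw [hCdef, Matrix.trace_add, Matrix.trace_add, Matrix.trace_smul, Matrix.trace_smul,
      Matrix.trace_smul, htrA, htr1, htrJ]
    simp only [smul_eq_mul]; ring
  rw [Matrix.trace_smul, Matrix.trace_add, Matrix.trace_smul, htrC, htr1, hns] at hr
  simp only [smul_eq_mul] at hr
  have hmain : (n : ℝ) * μ - 2 * k - μ = (2 * r - n - 1) * q := by
    field_simp at hr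
    linarith
  refine ⟨2 * r - n - 1, ?_⟩
  have : (((n : ℤ) * μ - 2 * k - μ : ℤ) : ℝ) ^ 2
      = (((2 * r - n - 1 : ℤ) : ℝ)) ^ 2 * (((μ : ℤ) ^ 2 + 4 * (k - μ) : ℤ) : ℝ) := by
    push_cast
    rw [hmain, mul_pow, hq2, hD]
  exact_mod_cast this

end Pool.Agent.R4S
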