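import Pool.Agent.R4S.Defs
import Pool.Agent.R4S.Trace

/-!
# Strongly regular colour classes
-/

namespace Pool.Agent.R4S

open Finset

theorem params {n k μ : ℕ} (h1 : 51 ≤ n) (h2 : n ≤ 65) (h3 : 2 ≤ k) (h4 : k ≤ 16)
    (h : k * (k - 1) = (n - k - 1) * μ) :
    (n = 56 ∧ k = 10 ∧ μ = 2) ∨ (n = 65 ∧ k = 8 ∧ μ = 1) ∨ (n = 57 ∧ k = 12 ∧ μ = 3) ∨
    (n = 53 ∧ k = 13 ∧ μ = 4) ∨ (n = 58 ∧ k = 15 ∧ μ = 5) ∨ (n = 51 ∧ k = 15 ∧ μ = 6) ∨
    (n = 65 ∧ k = 16 ∧ μ = 5) ∨ (n = 57 ∧ k = 16 ∧ μ = 6) := by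
  interval_cases n <;> interval_cases k <;> norm_num at h ⊢ <;> omega

theorem not_sq {z : ℤ} (a b : ℤ) (ha : 0 ≤ a) (h1 : a * a < b) (h2 : b < (a + 1) * (a + 1)) :
    z ^ 2 ≠ b := by
  intro h
  rcases le_or_gt |z| a with hz | hz
  · have : z ^ 2 ≤ a * a := by
      rw [← sq_abs]; nlinarith [abs_nonneg z]
    omega
  · have : (a + 1) * (a + 1) ≤ z ^ 2 := by
      rw [← sq_abs]; nlinarith [abs_nonneg z]
    omega

theorem srg_params {n k μ : ℕ} (h1 : 51 ≤ n) (h2 : n ≤ 65) (h3 : 2 ≤ k) (h4 : k ≤ 16)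
    (h : k * (k - 1) = (n - k - 1) * μ)
    (hz : ∃ z : ℤ, ((n : ℤ) * μ - 2 * k - μ) ^ 2 = z ^ 2 * ((μ : ℤ) ^ 2 + 4 * (k - μ))) :
    n = 56 ∧ k = 10 ∧ μ = 2 := by
  obtain ⟨z, hz⟩ := hz
  rcases params h1 h2 h3 h4 h with ⟨rfl, rfl, rfl⟩ | ⟨rfl, rfl, rfl⟩ | ⟨rfl, rfl, rfl⟩ |
    ⟨rfl, rfl, rfl⟩ | ⟨rfl, rfl, rfl⟩ | ⟨rfl, rfl, rfl⟩ | ⟨rfl, rfl, rfl⟩ | ⟨rfl, rfl, rfl⟩
  · exact ⟨rfl, rfl, rfl⟩
  · exfalso; norm_num at hz; omega
  · exfalso; norm_num at hz; omega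
  · exfalso; norm_num at hz
    exact not_sq (z := z) 25 637 (by norm_num) (by norm_num) (by norm_num) (by linarith)
  · exfalso; norm_num at hz; omega
  · exfalso; norm_num at hz; omega
  · exfalso; norm_num at hz; omega
  · exfalso; norm_num at hz
    exact not_sq (z := z) 34 1216 (by norm_num) (by norm_num) (by norm_num) (by linarith)

section
variable {V : Type} [Fintype V] [DecidableEq V] {c : Sym2 V → Fin 4}

theorem srg_colour (hc : NoMono c) (hn : 51 ≤ Fintype.card V) {i : Fin 4} {k l m : ℕ}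
    (h : (colourGraph c i).IsSRGWith (Fintype.card V) k l m) :
    Fintype.card V = 56 ∧ k = 10 ∧ l = 0 ∧ m = 2 := by
  have hpos : 0 < Fintype.card V := by omega
  obtain ⟨v⟩ := Fintype.card_pos_iff.mp hpos
  have hs := sum_card_nb c v
  have h0 := card_nb_le hc 0 v
  have h1 := card_nb_le hc 1 v
  have h2 := card_nb_le hc 2 v
  have h3 := card_nb_le hc 3 v
  rw [Fin.sum_univ_four] at hs
  have hk : (nb c v i).card = k := by
    rw [← degree_eq]; exact h.regular v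
  have hk2 : 2 ≤ k := by
    rw [← hk]
    fin_cases i
    · change 2 ≤ (nb c v 0).card; omega
    · change 2 ≤ (nb c v 1).card; omega
    · change 2 ≤ (nb c v 2).card; omega
    · change 2 ≤ (nb c v 3).card; omega
  have hk16 : k ≤ 16 := by rw [← hk]; exact card_nb_le hc i v
  have hl : l = 0 := by
    have h4 : 0 < (nb c v i).card := by omega
    obtain ⟨w, hw⟩ := Finset.card_pos.mp h4
    have hw' := mem_nb.mp hw
    have hadj : (colourGraph c i).Adj v w := hw'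
    rw [← h.of_adj v w hadj, Fintype.card_eq_zero_iff]
    refine ⟨fun x => ?_⟩
    have hx := x.2
    rw [SimpleGraph.mem_commonNeighbors] at hx
    obtain ⟨⟨hx1, hx2⟩, ⟨hx3, hx4⟩⟩ := hx
    refine hc v w x.1 hw'.1 hx3 hx1 ⟨?_, ?_⟩
    · rw [hw'.2, hx4]
    · rw [hw'.2, hx2]
  subst hl
  have hpar := SimpleGraph.IsSRGWith.param_eq _ h hpos
  rw [Nat.sub_zero] at hpar
  have h5 := srg_params hn (by omega) hk2 hk16 hpar
    (srg_trace _ h hpos hk2 hpar (by omega))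
  exact ⟨h5.1, h5.2.1, rfl, h5.2.2⟩

theorem srg_unique (hc : NoMono c) (hn : 51 ≤ Fintype.card V) {i j : Fin 4}
    {k l m k' l' m' : ℕ} (h : (colourGraph c i).IsSRGWith (Fintype.card V) k l m)
    (h' : (colourGraph c j).IsSRGWith (Fintype.card V) k' l' m') : i = j := by
  by_contra hij
  obtain ⟨e1, e2, -, -⟩ := srg_colour hc hn h
  obtain ⟨-, e3, -, -⟩ := srg_colour hc hn h'
  have hpos : 0 < Fintype.card V := by omega
  obtain ⟨v⟩ := Fintype.card_pos_iff.mp hpos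
  have hs := sum_card_nb c v
  have h0 := card_nb_le hc 0 v
  have h1 := card_nb_le hc 1 v
  have h2 := card_nb_le hc 2 v
  have h3 := card_nb_le hc 3 v
  rw [Fin.sum_univ_four] at hs
  have hk : (nb c v i).card = 10 := by
    rw [← degree_eq, ← e2]; exact h.regular v
  have hk' : (nb c v j).card = 10 := by
    rw [← degree_eq, ← e3]; exact h'.regular v
  fin_cases i <;> fin_cases j <;> first
    | exact hij rfl
    | (simp only [Fin.zero_eta, Fin.mk_one, Fin.reduceFinMk] at hk hk'; omega)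

end

end Pool.Agent.R4S
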