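import Pool.Agent.R4S.Defs

/-!
# Colourings that are association schemes: the counting identities
-/

namespace Pool.Agent.R4S

open Finset

/-- The colouring `c` is a symmetric association scheme with four classes: the number of
vertices `w` with `uw` of colour `i` and `wv` of colour `j` depends only on `i`, `j` and the colour
of `uv`. -/
def IsScheme {V : Type} [Fintype V] [DecidableEq V] (c : Sym2 V → Fin 4)
    (p : Fin 4 → Fin 4 → Fin 4 → ℕ) : Prop :=
  ∀ u v : V, u ≠ v → ∀ i j : Fin 4,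
    (Finset.univ.filter (fun w => u ≠ w ∧ w ≠ v ∧ c s(u, w) = i ∧ c s(w, v) = j)).card
      = p i j (c s(u, v))

section
variable {V : Type} [Fintype V] [DecidableEq V] {c : Sym2 V → Fin 4}
  {p : Fin 4 → Fin 4 → Fin 4 → ℕ}

theorem row (hp : IsScheme c p) {u v : V} (huv : u ≠ v) (i : Fin 4) :
    ∑ j, p i j (c s(u, v)) + (if i = c s(u, v) then 1 else 0) = (nb c u i).card := by
  have h1 : ((nb c u i).erase v).card = ∑ j : Fin 4,
      (((nb c u i).erase v).filter (fun w => c s(w, v) = j)).card :=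
    Finset.card_eq_sum_card_fiberwise (fun _ _ => Finset.mem_coe.mpr (Finset.mem_univ _))
  have h2 : ∑ j : Fin 4, (((nb c u i).erase v).filter (fun w => c s(w, v) = j)).card
      = ∑ j, p i j (c s(u, v)) := by
    refine Finset.sum_congr rfl fun j _ => ?_
    rw [← hp u v huv i j]
    congr 1
    ext w
    simp only [Finset.mem_filter, Finset.mem_erase, mem_nb, Finset.mem_univ, true_and]
    tauto
  rw [← h2, ← h1]
  by_cases h : i = c s(u, v)
  · have hv : v ∈ nb c u i := mem_nb.mpr ⟨huv, h.symm⟩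
    rw [if_pos h, Finset.card_erase_of_mem hv]
    have := Finset.card_pos.mpr ⟨v, hv⟩
    omega
  · have hv : v ∉ nb c u i := fun hh => h (mem_nb.mp hh).2.symm
    rw [if_neg h, Finset.erase_eq_of_notMem hv, add_zero]

theorem symm_p (hp : IsScheme c p) {u v : V} (huv : u ≠ v) (i j : Fin 4) :
    p i j (c s(u, v)) = p j i (c s(u, v)) := by
  have h1 := hp u v huv i j
  have h2 := hp v u huv.symm j i
  rw [Sym2.eq_swap (a := v) (b := u)] at h2
  rw [← h1, ← h2]
  congr 1
  ext w
  simp only [Finset.mem_filter, Finset.mem_univ, true_and]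
  rw [Sym2.eq_swap (a := u) (b := w), Sym2.eq_swap (a := w) (b := v)]
  constructor
  · rintro ⟨h1, h2, h3, h4⟩; exact ⟨h2.symm, h1.symm, h4, h3⟩
  · rintro ⟨h1, h2, h3, h4⟩; exact ⟨h2.symm, h1.symm, h4, h3⟩

theorem tri (hp : IsScheme c p) (u : V) (i j k : Fin 4) :
    (nb c u k).card * p i j k = (nb c u i).card * p k j i := by
  have hA : ∀ a b : Fin 4, ∑ v : V, (Finset.univ.filter (fun w =>
      (u ≠ v ∧ c s(u, v) = a) ∧ u ≠ w ∧ w ≠ v ∧ c s(u, w) = b ∧ c s(w, v) = j)).card
      = (nb c u a).card * p b j a := by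
    intro a b
    have h1 : ∀ v : V, (Finset.univ.filter (fun w =>
        (u ≠ v ∧ c s(u, v) = a) ∧ u ≠ w ∧ w ≠ v ∧ c s(u, w) = b ∧ c s(w, v) = j)).card
        = if v ∈ nb c u a then p b j a else 0 := by
      intro v
      by_cases hv : v ∈ nb c u a
      · rw [if_pos hv]
        have hv' := mem_nb.mp hv
        have h2 := hp u v hv'.1 b j
        rw [hv'.2] at h2
        rw [← h2]
        congr 1
        ext w
        simp only [Finset.mem_filter, Finset.mem_univ, true_and]
        exact ⟨fun h => h.2, fun h => ⟨hv', h⟩⟩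
      · rw [if_neg hv, Finset.card_eq_zero, Finset.filter_eq_empty_iff]
        intro w _ h
        exact hv (mem_nb.mpr h.1)
    rw [Finset.sum_congr rfl (fun v _ => h1 v), ← Finset.sum_filter]
    rw [Finset.sum_const, smul_eq_mul]
    congr 2
    ext v; simp
  rw [← hA k i, ← hA i k]
  simp_rw [Finset.card_filter]
  rw [Finset.sum_comm]
  refine Finset.sum_congr rfl fun v _ => Finset.sum_congr rfl fun w _ => ?_
  congr 1
  rw [Sym2.eq_swap (a := w) (b := v)]
  apply propext
  constructor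
  · rintro ⟨⟨h1, h2⟩, h3, h4, h5, h6⟩; exact ⟨⟨h3, h5⟩, h1, h4.symm, h2, h6⟩
  · rintro ⟨⟨h1, h2⟩, h3, h4, h5, h6⟩; exact ⟨⟨h3, h5⟩, h1, h4.symm, h2, h6⟩

theorem zero_p (hc : NoMono c) (hp : IsScheme c p) {u v : V} (huv : u ≠ v) :
    p (c s(u, v)) (c s(u, v)) (c s(u, v)) = 0 := by
  rw [← hp u v huv, Finset.card_eq_zero, Finset.filter_eq_empty_iff]
  rintro w _ ⟨h1, h2, h3, h4⟩
  refine hc u v w huv h2.symm h1 ⟨?_, h3.symm⟩
  rw [Sym2.eq_swap (a := v) (b := w), h4]

theorem bd_p (hc : NoMono c) (hp : IsScheme c p) {u v : V} (huv : u ≠ v) {i j : Fin 4}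
    (hij : i ≠ j) : p i j (c s(u, v)) ≤ 5 := by
  rw [← hp u v huv i j]
  have h := card_le_ramseyBound hc 2 ((Finset.univ.erase i).erase j)
    (Finset.univ.filter (fun w => u ≠ w ∧ w ≠ v ∧ c s(u, w) = i ∧ c s(w, v) = j)) ?_ ?_
  · exact h
  · rw [Finset.card_erase_of_mem, Finset.card_erase_of_mem (Finset.mem_univ i)]
    · simp
    · rw [Finset.mem_erase]; exact ⟨hij.symm, Finset.mem_univ _⟩
  · intro x hx y hy hxy
    simp only [Finset.mem_filter, Finset.mem_univ, true_and] at hx hy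
    rw [Finset.mem_erase, Finset.mem_erase]
    refine ⟨?_, ?_, Finset.mem_univ _⟩
    · intro h
      refine hc x y v hxy hy.2.1 hx.2.1 ⟨?_, ?_⟩
      · rw [h, hy.2.2.2]
      · rw [h, hx.2.2.2]
    · intro h
      refine hc u x y hx.1 hxy hy.1 ⟨?_, ?_⟩
      · rw [hx.2.2.1, h]
      · rw [hx.2.2.1, hy.2.2.1]

end

end Pool.Agent.R4S
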